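import Mathlib

/-! # Minimal supports and the module `D' K` (MP_87570e_al) -/

open Polynomial

namespace SDR

variable {D : Type} [DivisionRing D] {K : Type} [Field K]

/-- the evaluation `b ↦ ∑ b_n g_n` -/
noncomputable abbrev E {α : Type} (g : α → D) : (α →₀ D) →ₗ[D] D := Finsupp.linearCombination D g

/-- coordinatewise right multiplication -/
noncomputable def rtw {α : Type} (c : α → D) (b : α →₀ D) : α →₀ D :=
  Finsupp.onFinset b.support (fun n => b n * c n) (fun n hn => by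
    rw [Finsupp.mem_support_iff]
    intro h
    exact hn (by rw [h, zero_mul]))

theorem rtw_apply {α : Type} (c : α → D) (b : α →₀ D) (n : α) : rtw c b n = b n * c n := rfl

theorem rtw_support {α : Type} (c : α → D) (b : α →₀ D) : (rtw c b).support ⊆ b.support :=
  Finsupp.support_onFinset_subset

theorem E_eq {α : Type} (g : α → D) (b : α →₀ D) (s : Finset α) (hs : b.support ⊆ s) :
    E g b = ∑ n ∈ s, b n * g n := by
  rw [E, Finsupp.linearCombination_apply, Finsupp.sum_of_support_subset b hs _ (by simp)]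
  rfl

theorem E_rtw {α : Type} (g : α → D) (c : α → D) (t : D) (h : ∀ n, c n * g n = g n * t)
    (b : α →₀ D) : E g (rtw c b) = E g b * t := by
  rw [E_eq g _ b.support (rtw_support c b), E_eq g b b.support subset_rfl, Finset.sum_mul]
  refine Finset.sum_congr rfl fun n _ => ?_
  rw [rtw_apply, mul_assoc, h, mul_assoc]

/-- elements of minimal support -/
theorem minsup {α : Type} (M : Set (α →₀ D)) (s : D) (c : α → α → D)
    (hnorm : ∀ v ∈ M, ∀ a, v a ≠ 0 → ∃ w ∈ M, w.support ⊆ v.support ∧ w a = 1)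
    (hc : ∀ a, c a a = s)
    (hT : ∀ v ∈ M, ∀ a, v a = 1 → s • v - rtw (c a) v ∈ M)
    (v : α →₀ D) (hv : v ∈ M) (hv0 : v ≠ 0) :
    ∃ w ∈ M, ∃ a, w.support ⊆ v.support ∧ w a = 1 ∧ ∀ n, s * w n = w n * c a n := by
  classical
  have key : ∀ N : ℕ, ∀ v ∈ M, v ≠ 0 → v.support.card ≤ N →
      ∃ w ∈ M, ∃ a, w.support ⊆ v.support ∧ w a = 1 ∧ ∀ n, s * w n = w n * c a n := by
    intro N
    induction N with
    | zero =>
      intro v _ hv0 hN
      exact absurd (Finsupp.card_support_eq_zero.mp (Nat.le_zero.mp hN)) hv0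
    | succ N ih =>
      intro v hv hv0 hN
      obtain ⟨a, ha⟩ := Finsupp.ne_iff.mp hv0
      rw [Finsupp.zero_apply] at ha
      obtain ⟨w, hw, hws, hwa⟩ := hnorm v hv a ha
      by_cases hz : s • w - rtw (c a) w = 0
      · refine ⟨w, hw, a, hws, hwa, fun n => ?_⟩
        have h1 := DFunLike.congr_fun hz n
        rw [Finsupp.sub_apply, Finsupp.smul_apply, rtw_apply, Finsupp.zero_apply,
          smul_eq_mul] at h1
        exact sub_eq_zero.mp h1
      · have hsub : (s • w - rtw (c a) w).support ⊆ w.support.erase a := by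
          intro n hn
          rw [Finsupp.mem_support_iff, Finsupp.sub_apply, Finsupp.smul_apply, rtw_apply,
            smul_eq_mul] at hn
          rw [Finset.mem_erase, Finsupp.mem_support_iff]
          constructor
          · rintro rfl
            apply hn
            rw [hwa, hc, mul_one, one_mul, sub_self]
          · intro h0
            apply hn
            rw [h0, mul_zero, zero_mul, sub_self]
        have hcard : (s • w - rtw (c a) w).support.card ≤ N := by
          have h1 := Finset.card_le_card hsub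
          have h2 : (w.support.erase a).card < w.support.card := by
            apply Finset.card_erase_lt_of_mem
            rw [Finsupp.mem_support_iff, hwa]
            exact one_ne_zero
          have h3 := Finset.card_le_card hws
          omega
        obtain ⟨w', hw', a', hs', ha', hn'⟩ := ih _ (hT w hw a hwa) hz hcard
        exact ⟨w', hw', a', (hs'.trans hsub).trans ((Finset.erase_subset _ _).trans hws), ha', hn'⟩
  exact key _ v hv hv0 le_rfl

section Sub

variable (ι : K →+* D) (D' : Subfield D)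

/-- `D' ∩ K` -/
abbrev Kp : Subfield K := D'.comap ι

/-- `D' K` -/
def B0 : AddSubgroup D := AddSubgroup.closure {z | ∃ d ∈ D', ∃ a : K, z = d * ι a}

variable {ι D'}

theorem B0_gen {d : D} (hd : d ∈ D') (a : K) : d * ι a ∈ B0 ι D' :=
  AddSubgroup.subset_closure ⟨d, hd, a, rfl⟩

theorem B0_K (a : K) : ι a ∈ B0 ι D' := by
  have := B0_gen (ι := ι) (D' := D') (one_mem D') a
  rwa [one_mul] at this

theorem B0_D {d : D} (hd : d ∈ D') : d ∈ B0 ι D' := by
  have := B0_gen (ι := ι) (D' := D') hd 1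
  rwa [map_one, mul_one] at this

theorem B0_left {d z : D} (hd : d ∈ D') (hz : z ∈ B0 ι D') : d * z ∈ B0 ι D' := by
  induction hz using AddSubgroup.closure_induction with
  | mem z hz =>
    obtain ⟨d', hd', a, rfl⟩ := hz
    rw [← mul_assoc]
    exact B0_gen (mul_mem hd hd') a
  | zero => rw [mul_zero]; exact zero_mem _
  | add x y _ _ hx hy => rw [mul_add]; exact add_mem hx hy
  | neg x _ hx => rw [mul_neg]; exact neg_mem hx

theorem B0_right {z : D} (a : K) (hz : z ∈ B0 ι D') : z * ι a ∈ B0 ι D' := by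
  induction hz using AddSubgroup.closure_induction with
  | mem z hz =>
    obtain ⟨d', hd', b, rfl⟩ := hz
    rw [mul_assoc, ← map_mul]
    exact B0_gen hd' _
  | zero => rw [zero_mul]; exact zero_mem _
  | add x y _ _ hx hy => rw [add_mul]; exact add_mem hx hy
  | neg x _ hx => rw [neg_mul]; exact neg_mem hx

/-- a family of `K` that is a basis over `D' ∩ K` -/
structure IsBas {J : Type} (ι : K →+* D) (D' : Subfield D) (κ : J → K) : Prop where
  ind : ∀ a : J →₀ K, (∀ j, ι (a j) ∈ D') → (a.sum fun j c => c * κ j) = 0 → a = 0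
  spn : ∀ x : K, ∃ a : J →₀ K, (∀ j, ι (a j) ∈ D') ∧ x = a.sum fun j c => c * κ j

theorem exists_bas (ι : K →+* D) (D' : Subfield D) : ∃ (J : Type) (κ : J → K), IsBas ι D' κ := by
  classical
  let B := Module.Basis.ofVectorSpace (Kp ι D') K
  refine ⟨_, B, ⟨?_, ?_⟩⟩
  · intro a ha hs
    let a' : _ →₀ (Kp ι D') := Finsupp.onFinset a.support (fun j => ⟨a j, ha j⟩) (by
      intro j hj
      rw [Finsupp.mem_support_iff]
      intro h0
      exact hj (Subtype.ext h0))
    have h1 : Finsupp.linearCombination (Kp ι D') B a' = 0 := by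
      rw [Finsupp.linearCombination_apply, Finsupp.sum_of_support_subset a'
        (Finsupp.support_onFinset_subset (s := a.support)) _ (by simp), ← hs, Finsupp.sum]
      rfl
    have h2 : a' = 0 := linearIndependent_iff.mp B.linearIndependent a' h1
    ext j
    have h3 := DFunLike.congr_fun h2 j
    exact congrArg Subtype.val h3
  · intro x
    refine ⟨(B.repr x).mapRange (fun c : Kp ι D' => (c : K)) rfl, ?_, ?_⟩
    · intro j
      rw [Finsupp.mapRange_apply]
      exact (B.repr x j).2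
    · rw [Finsupp.sum_mapRange_index (by simp)]
      conv_lhs => rw [← B.linearCombination_repr x]
      rw [Finsupp.linearCombination_apply]
      rfl

variable {J : Type} {κ : J → K}

/-- a vector with entries in `D' ∩ ι K` comes from `K` -/
theorem lift_vec (w : J →₀ D) (hw : ∀ j, w j ∈ Set.range ι) :
    ∃ a : J →₀ K, ∀ j, ι (a j) = w j := by
  classical
  choose f hf using hw
  refine ⟨Finsupp.onFinset w.support (fun j => f j) (fun j hj => ?_), hf⟩
  rw [Finsupp.mem_support_iff, ← hf j]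
  intro h
  exact hj ((map_eq_zero ι).mp h)

theorem E_lift (a : J →₀ K) (w : J →₀ D) (h : ∀ j, ι (a j) = w j) :
    E (fun j => ι (κ j)) w = ι (a.sum fun j c => c * κ j) := by
  have hs : w.support ⊆ a.support := by
    intro j hj
    rw [Finsupp.mem_support_iff] at hj ⊢
    intro h0
    apply hj
    rw [← h j, h0, map_zero]
  rw [E_eq _ _ a.support hs, Finsupp.sum, map_sum]
  refine Finset.sum_congr rfl fun j _ => ?_
  rw [map_mul, h j]

/-- the key minimality argument for `D' ⊗ K` -/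
theorem key_vec (hκ : IsBas ι D' κ) {s0 : K} (hs : ι s0 ∈ D')
    (hcent : ∀ x : D, ι s0 * x = x * ι s0 → x ∈ Set.range ι) (N : AddSubgroup D)
    (hNl : ∀ d ∈ D', ∀ z ∈ N, d * z ∈ N) (hNr : ∀ z ∈ N, z * ι s0 ∈ N)
    (v : J →₀ D) (hv : ∀ j, v j ∈ D') (hvN : E (fun j => ι (κ j)) v ∈ N) (hv0 : v ≠ 0) :
    ∃ x : K, x ≠ 0 ∧ ι x ∈ N := by
  classical
  let M : Set (J →₀ D) := {b | (∀ j, b j ∈ D') ∧ E (fun j => ι (κ j)) b ∈ N}
  have hcom : ∀ n, ι s0 * ι (κ n) = ι (κ n) * ι s0 := fun n => by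
    rw [← map_mul, mul_comm, map_mul]
  obtain ⟨w, ⟨hwD, hwN⟩, a, -, hwa, hws⟩ := minsup M (ι s0) (fun _ _ => ι s0)
    (by
      rintro v ⟨hvD, hvN⟩ a ha
      refine ⟨(v a)⁻¹ • v, ⟨fun j => ?_, ?_⟩, Finsupp.support_smul, ?_⟩
      · rw [Finsupp.smul_apply, smul_eq_mul]
        exact mul_mem (inv_mem (hvD a)) (hvD j)
      · rw [map_smul, smul_eq_mul]
        exact hNl _ (inv_mem (hvD a)) _ hvN
      · rw [Finsupp.smul_apply, smul_eq_mul, inv_mul_cancel₀ ha])
    (fun _ => rfl)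
    (by
      rintro v ⟨hvD, hvN⟩ a ha
      refine ⟨fun j => ?_, ?_⟩
      · rw [Finsupp.sub_apply, Finsupp.smul_apply, rtw_apply, smul_eq_mul]
        exact sub_mem (mul_mem hs (hvD j)) (mul_mem (hvD j) hs)
      · rw [map_sub, map_smul, smul_eq_mul, E_rtw _ _ (ι s0) hcom]
        exact sub_mem (hNl _ hs _ hvN) (hNr _ hvN))
    v ⟨hv, hvN⟩ hv0
  obtain ⟨f, hf⟩ := lift_vec (ι := ι) w fun j => hcent _ (hws j)
  refine ⟨f.sum fun j c => c * κ j, ?_, ?_⟩
  · intro h0
    have h1 := hκ.ind f (fun j => by rw [hf j]; exact hwD j) h0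
    have h2 := hf a
    rw [h1, Finsupp.zero_apply, map_zero, hwa] at h2
    exact zero_ne_one h2
  · rw [← E_lift (κ := κ) f w hf]
    exact hwN

/-- elements of `K` independent over `K'` are independent over `D'` -/
theorem indep (hκ : IsBas ι D' κ) {s0 : K} (hs : ι s0 ∈ D')
    (hcent : ∀ x : D, ι s0 * x = x * ι s0 → x ∈ Set.range ι)
    (v : J →₀ D) (hv : ∀ j, v j ∈ D') (hE : E (fun j => ι (κ j)) v = 0) : v = 0 := by
  by_contra h0
  obtain ⟨x, hx0, hx⟩ := key_vec hκ hs hcent ⊥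
    (fun d _ z hz => by rw [AddSubgroup.mem_bot] at hz ⊢; rw [hz, mul_zero])
    (fun z hz => by rw [AddSubgroup.mem_bot] at hz ⊢; rw [hz, zero_mul])
    v hv (by rw [hE]; exact zero_mem _) h0
  rw [AddSubgroup.mem_bot] at hx
  exact hx0 ((map_eq_zero ι).mp hx)

/-- coordinates of the elements of `D' K` -/
theorem coords (hκ : IsBas ι D' κ) {z : D} (hz : z ∈ B0 ι D') :
    ∃ b : J →₀ D, (∀ j, b j ∈ D') ∧ E (fun j => ι (κ j)) b = z := by
  classical
  induction hz using AddSubgroup.closure_induction with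
  | mem z hz =>
    obtain ⟨d, hd, x, rfl⟩ := hz
    obtain ⟨a, ha, hx⟩ := hκ.spn x
    refine ⟨d • (a.mapRange ι (map_zero ι)), fun j => ?_, ?_⟩
    · rw [Finsupp.smul_apply, Finsupp.mapRange_apply, smul_eq_mul]
      exact mul_mem hd (ha j)
    · rw [map_smul, smul_eq_mul, E_lift (κ := κ) a _ fun j => by rw [Finsupp.mapRange_apply], ← hx]
  | zero => exact ⟨0, fun j => zero_mem _, map_zero _⟩
  | add x y _ _ hx hy =>
    obtain ⟨b, hb, rfl⟩ := hx
    obtain ⟨c, hc, rfl⟩ := hy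
    exact ⟨b + c, fun j => add_mem (hb j) (hc j), map_add _ _ _⟩
  | neg x _ hx =>
    obtain ⟨b, hb, rfl⟩ := hx
    exact ⟨-b, fun j => neg_mem (hb j), map_neg _ _⟩

/-- `D' K` is a simple bimodule -/
theorem simp_B0 {s0 : K} (hs : ι s0 ∈ D')
    (hcent : ∀ x : D, ι s0 * x = x * ι s0 → x ∈ Set.range ι) (N : AddSubgroup D)
    (hN : N ≤ B0 ι D')
    (hNl : ∀ d ∈ D', ∀ z ∈ N, d * z ∈ N) (hNr : ∀ z ∈ N, ∀ a : K, z * ι a ∈ N)
    (z : D) (hz : z ∈ N) (hz0 : z ≠ 0) : (1 : D) ∈ N := by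
  obtain ⟨J, κ, hκ⟩ := exists_bas ι D'
  obtain ⟨b, hb, hbz⟩ := coords hκ (hN hz)
  obtain ⟨x, hx0, hx⟩ := key_vec hκ hs hcent N hNl (fun z hz => hNr z hz s0) b hb
    (by rw [hbz]; exact hz) (by rintro rfl; rw [map_zero] at hbz; exact hz0 hbz.symm)
  have h1 := hNr _ hx x⁻¹
  rwa [← map_mul, mul_inv_cancel₀ hx0, map_one] at h1

/-- weak form of the simplicity -/
theorem simp_B0' {s0 : K} (hs : ι s0 ∈ D')
    (hcent : ∀ x : D, ι s0 * x = x * ι s0 → x ∈ Set.range ι) (N : AddSubgroup D)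
    (hN : N ≤ B0 ι D')
    (hNl : ∀ d ∈ D', ∀ z ∈ N, d * z ∈ N) (hNr : ∀ z ∈ N, z * ι s0 ∈ N)
    (z : D) (hz : z ∈ N) (hz0 : z ≠ 0) : ∃ x : K, x ≠ 0 ∧ ι x ∈ N := by
  obtain ⟨J, κ, hκ⟩ := exists_bas ι D'
  obtain ⟨b, hb, hbz⟩ := coords hκ (hN hz)
  exact key_vec hκ hs hcent N hNl hNr b hb
    (by rw [hbz]; exact hz) (by rintro rfl; rw [map_zero] at hbz; exact hz0 hbz.symm)

end Sub

section Theta

variable (ι : K →+* D) (s0 : K)

/-- the action of `K[T]`: `K` by left multiplication, `T` by right multiplication by `s0` -/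
noncomputable def Th : K[X] →+* AddMonoid.End D :=
  Polynomial.eval₂RingHom' ((Module.toAddMonoidEnd D D).comp ι) (AddMonoidHom.mulRight (ι s0))
    (fun a => by
      refine AddMonoidHom.ext fun z => ?_
      show ι a * (z * ι s0) = (ι a * z) * ι s0
      rw [mul_assoc])

theorem Th_C (a : K) (z : D) : Th ι s0 (C a) z = ι a * z := by
  have : Th ι s0 (C a) = (Module.toAddMonoidEnd D D).comp ι a := eval₂_C _ _
  rw [this]
  rfl

theorem Th_X (z : D) : Th ι s0 X z = z * ι s0 := by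
  have : Th ι s0 X = AddMonoidHom.mulRight (ι s0) := eval₂_X _ _
  rw [this]
  rfl

theorem Th_mul (F G : K[X]) (z : D) : Th ι s0 (F * G) z = Th ι s0 F (Th ι s0 G z) := by
  rw [map_mul]; rfl

theorem Th_add (F G : K[X]) (z : D) : Th ι s0 (F + G) z = Th ι s0 F z + Th ι s0 G z := by
  rw [map_add]; rfl

theorem Th_mulK (F : K[X]) (z : D) (a : K) : Th ι s0 F (z * ι a) = Th ι s0 F z * ι a := by
  induction F using Polynomial.induction_on' with
  | add p q hp hq => rw [Th_add, Th_add, hp, hq, add_mul]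
  | monomial n c =>
    rw [← C_mul_X_pow_eq_monomial, Th_mul, Th_mul, Th_C, Th_C]
    have : ∀ n : ℕ, Th ι s0 (X ^ n) (z * ι a) = Th ι s0 (X ^ n) z * ι a := by
      intro n
      induction n with
      | zero => rw [pow_zero, map_one]; rfl
      | succ n ih =>
        rw [pow_succ', Th_mul, Th_mul, Th_X, Th_X, ih, mul_assoc, mul_assoc, ← map_mul, ← map_mul,
          mul_comm a]
    rw [this, mul_assoc]

variable {ι s0}

theorem Th_memD {D' : Subfield D} (hs : ι s0 ∈ D') (F : (Kp ι D')[X]) {z : D} (hz : z ∈ D') :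
    Th ι s0 (F.map (algebraMap (Kp ι D') K)) z ∈ D' := by
  induction F using Polynomial.induction_on' with
  | add p q hp hq => rw [Polynomial.map_add, Th_add]; exact add_mem hp hq
  | monomial n c =>
    rw [map_monomial, ← C_mul_X_pow_eq_monomial, Th_mul, Th_C]
    have : ∀ n : ℕ, Th ι s0 (X ^ n) z ∈ D' := by
      intro n
      induction n with
      | zero => rw [pow_zero, map_one]; exact hz
      | succ n ih => rw [pow_succ', Th_mul, Th_X]; exact mul_mem ih hs
    exact mul_mem c.2 (this n)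

/-- coordinates of locally finite elements of `D' K` are locally finite -/
theorem coord_lf {D' : Subfield D} {J : Type} {κ : J → K} (hκ : IsBas ι D' κ) (hs : ι s0 ∈ D')
    (hcent : ∀ x : D, ι s0 * x = x * ι s0 → x ∈ Set.range ι)
    (halg : Algebra.IsAlgebraic (Kp ι D') K)
    (b : J →₀ D) (hb : ∀ j, b j ∈ D') (F : K[X]) (hF : F ≠ 0)
    (hz : Th ι s0 F (E (fun j => ι (κ j)) b) = 0) (j : J) : ∃ G : K[X], G ≠ 0 ∧ Th ι s0 G (b j) = 0 := by
  classical
  obtain ⟨g, hg0, hg⟩ := Polynomial.exists_dvd_map_of_isAlgebraic (R := Kp ι D') hF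
  have hinj : Function.Injective (algebraMap (Kp ι D') K) := (algebraMap (Kp ι D') K).injective
  refine ⟨g.map (algebraMap (Kp ι D') K), ?_, ?_⟩
  · rwa [Ne, Polynomial.map_eq_zero_iff hinj]
  · set G := g.map (algebraMap (Kp ι D') K) with hG
    obtain ⟨H, hH⟩ := hg
    have h1 : Th ι s0 G (E (fun j => ι (κ j)) b) = 0 := by
      rw [hH, mul_comm, Th_mul, hz, map_zero]
    let b' : J →₀ D := b.mapRange (Th ι s0 G) (map_zero _)
    have h2 : E (fun j => ι (κ j)) b' = 0 := by
      rw [← h1, E_eq _ b b.support subset_rfl, E_eq _ b' b.support Finsupp.support_mapRange,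
        map_sum]
      refine Finset.sum_congr rfl fun j _ => ?_
      rw [Finsupp.mapRange_apply, Th_mulK]
    have h3 := indep hκ hs hcent b' (fun j => by
      rw [Finsupp.mapRange_apply]; exact Th_memD hs g (hb j)) h2
    have h4 := DFunLike.congr_fun h3 j
    rw [Finsupp.mapRange_apply] at h4
    exact h4

theorem Th_sum (F : K[X]) (z : D) (n : ℕ) (hn : F.natDegree < n) :
    Th ι s0 F z = ∑ i ∈ Finset.range n, ι (F.coeff i) * (z * ι s0 ^ i) := by
  conv_lhs => rw [F.as_sum_range' n hn]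
  rw [map_sum]
  have h1 : ∀ i, Th ι s0 (monomial i (F.coeff i)) z = ι (F.coeff i) * (z * ι s0 ^ i) := by
    intro i
    rw [← C_mul_X_pow_eq_monomial, Th_mul, Th_C]
    congr 1
    induction i with
    | zero => rw [pow_zero, map_one, pow_zero, mul_one]; rfl
    | succ n ih => rw [pow_succ', Th_mul, Th_X, ih, mul_assoc, ← pow_succ]
  have h2 : ∀ s : Finset ℕ, (∑ i ∈ s, Th ι s0 (monomial i (F.coeff i)) : AddMonoid.End D) z =
      ∑ i ∈ s, Th ι s0 (monomial i (F.coeff i)) z := by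
    classical
    intro s
    induction s using Finset.induction_on with
    | empty => rfl
    | insert a s ha ih =>
      rw [Finset.sum_insert ha, Finset.sum_insert ha, ← ih]
      rfl
  rw [h2]
  exact Finset.sum_congr rfl fun i _ => h1 i

/-- the last power is controlled by the previous ones -/
theorem top_mem {S : Subring D} (hK : ∀ a, ι a ∈ S) {F : K[X]} (hF : F ≠ 0) {c P : D}
    (hc : Th ι s0 F c = 0) (h : ∀ i < F.natDegree, c * ι s0 ^ i * P ∈ S) :
    c * ι s0 ^ F.natDegree * P ∈ S := by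
  rw [Th_sum F c _ (Nat.lt_succ_self _), Finset.sum_range_succ] at hc
  have hl : ι F.leadingCoeff ≠ 0 := by
    rw [Ne, map_eq_zero]
    exact leadingCoeff_ne_zero.mpr hF
  have h1 : c * ι s0 ^ F.natDegree = -(ι (F.leadingCoeff)⁻¹ *
      ∑ i ∈ Finset.range F.natDegree, ι (F.coeff i) * (c * ι s0 ^ i)) := by
    have h2 : ι (F.coeff F.natDegree) * (c * ι s0 ^ F.natDegree) =
        -∑ i ∈ Finset.range F.natDegree, ι (F.coeff i) * (c * ι s0 ^ i) := by
      rw [eq_neg_iff_add_eq_zero, add_comm]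
      exact hc
    rw [← mul_neg, ← h2, ← mul_assoc, map_inv₀]
    show _ = (ι F.leadingCoeff)⁻¹ * ι F.leadingCoeff * _
    rw [inv_mul_cancel₀ hl, one_mul]
  rw [h1, neg_mul, mul_assoc, Finset.sum_mul]
  refine neg_mem (mul_mem (hK _) (sum_mem fun i hi => ?_))
  rw [mul_assoc]
  exact mul_mem (hK _) (h i (Finset.mem_range.mp hi))

/-- sums of locally finite elements are locally finite -/
theorem tors_add {x z : D} (hx : ∃ F : K[X], F ≠ 0 ∧ Th ι s0 F x = 0)
    (hz : ∃ F : K[X], F ≠ 0 ∧ Th ι s0 F z = 0) : ∃ F : K[X], F ≠ 0 ∧ Th ι s0 F (x + z) = 0 := by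
  obtain ⟨F, hF, hF'⟩ := hx
  obtain ⟨G, hG, hG'⟩ := hz
  refine ⟨F * G, mul_ne_zero hF hG, ?_⟩
  rw [map_add]
  have h1 : Th ι s0 (F * G) x = 0 := by rw [mul_comm, Th_mul, hF', map_zero]
  have h2 : Th ι s0 (F * G) z = 0 := by rw [Th_mul, hG', map_zero]
  rw [h1, h2, add_zero]

/-- the final step: a right denominator inside `D' K` gives a right denominator inside `D'` -/
theorem fin_abs {S : Subring D} {D' : Subfield D}
    (ht1 : ∀ z ∈ S, ∃ F : K[X], F ≠ 0 ∧ Th ι s0 F z = 0)
    (ht2 : ∀ z, (∃ F : K[X], F ≠ 0 ∧ Th ι s0 F z = 0) → z ∈ S)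
    (hs : ι s0 ∈ D') (hcent : ∀ x : D, ι s0 * x = x * ι s0 → x ∈ Set.range ι)
    (halg : Algebra.IsAlgebraic (Kp ι D') K) {x P : D} (hx : x ∈ D') (hP : P ∈ S) (hP0 : P ≠ 0)
    (hPB : P ∈ B0 ι D') (hxP : x * P ∈ S) : ∃ c ∈ D', c ∈ S ∧ c ≠ 0 ∧ x * c ∈ S := by
  obtain ⟨J, κ, hκ⟩ := exists_bas ι D'
  obtain ⟨b, hb, hbP⟩ := coords hκ hPB
  have hb0 : b ≠ 0 := by
    rintro rfl
    rw [map_zero] at hbP
    exact hP0 hbP.symm
  obtain ⟨j, hj⟩ := Finsupp.ne_iff.mp hb0
  rw [Finsupp.zero_apply] at hj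
  obtain ⟨F, hF, hF'⟩ := ht1 P hP
  obtain ⟨G, hG, hG'⟩ := ht1 _ hxP
  refine ⟨b j, hb j, ?_, hj, ?_⟩
  · exact ht2 _ (coord_lf hκ hs hcent halg b hb F hF (by rw [hbP]; exact hF') j)
  · have h1 := coord_lf hκ hs hcent halg (x • b)
      (fun j => by rw [Finsupp.smul_apply, smul_eq_mul]; exact mul_mem hx (hb j)) G hG
      (by rw [map_smul, smul_eq_mul, hbP]; exact hG') j
    rw [Finsupp.smul_apply, smul_eq_mul] at h1
    exact ht2 _ h1

end Theta

end SDR
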