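import Mathlib

/-! # Right denominators in Ore extensions (MP_87570e_al) -/

open Polynomial

namespace SDR

variable {D : Type} [DivisionRing D] {K : Type} [Field K]

/-- the right vector space structure -/
@[reducible] noncomputable def rmod (ι : K →+* D) : Module K D :=
  Module.compHom D (ι.toOpposite fun x y => by
    rw [commute_iff_eq, ← map_mul, mul_comm, map_mul])

theorem rmod_smul (ι : K →+* D) (a : K) (x : D) :
    (letI := rmod ι; a • x) = x * ι a := rfl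

/-- the right vector space spanned by `y ^ i`, `i < n` -/
noncomputable def FF (ι : K →+* D) (y : D) (n : ℕ) :
    letI := rmod ι; Submodule K D :=
  letI := rmod ι
  Submodule.span K (Set.range fun i : Fin n => y ^ (i : ℕ))

section

variable {ι : K →+* D} {y : D}

theorem FF_smul {n : ℕ} {x : D} (a : K) (hx : x ∈ FF ι y n) : x * ι a ∈ FF ι y n := by
  let _ := rmod ι
  exact Submodule.smul_mem (FF ι y n) a hx

theorem FF_pow {n i : ℕ} (h : i < n) : y ^ i ∈ FF ι y n := by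
  let _ := rmod ι
  exact Submodule.subset_span ⟨⟨i, h⟩, rfl⟩

theorem FF_ind {n : ℕ} {p : D → Prop} (h0 : p 0) (hadd : ∀ x z, p x → p z → p (x + z))
    (hsm : ∀ x a, p x → p (x * ι a)) (hp : ∀ i < n, p (y ^ i)) {x : D} (hx : x ∈ FF ι y n) :
    p x := by
  let _ := rmod ι
  refine Submodule.span_induction (p := fun x _ => p x) ?_ h0 (fun x z _ _ => hadd x z)
    (fun a x _ => hsm x a) hx
  rintro _ ⟨i, rfl⟩
  exact hp i.1 i.2

theorem FF_add {n : ℕ} {x z : D} (hx : x ∈ FF ι y n) (hz : z ∈ FF ι y n) : x + z ∈ FF ι y n := by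
  let _ := rmod ι
  exact Submodule.add_mem _ hx hz

theorem FF_zero {n : ℕ} : (0 : D) ∈ FF ι y n := by
  let _ := rmod ι
  exact Submodule.zero_mem _

theorem FF_neg {n : ℕ} {x : D} (hx : x ∈ FF ι y n) : -x ∈ FF ι y n := by
  let _ := rmod ι
  exact Submodule.neg_mem _ hx

theorem FF_sub {n : ℕ} {x z : D} (hx : x ∈ FF ι y n) (hz : z ∈ FF ι y n) : x - z ∈ FF ι y n := by
  rw [sub_eq_add_neg]; exact FF_add hx (FF_neg hz)

theorem FF_mono {n m : ℕ} (h : n ≤ m) {x : D} (hx : x ∈ FF ι y n) : x ∈ FF ι y m :=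
  FF_ind (p := fun x => x ∈ FF ι y m) FF_zero (fun _ _ => FF_add) (fun _ a => FF_smul a)
    (fun i hi => FF_pow (lt_of_lt_of_le hi h)) hx

theorem FF_y {n : ℕ} {x : D} (hx : x ∈ FF ι y n) : y * x ∈ FF ι y (n + 1) :=
  FF_ind (p := fun x => y * x ∈ FF ι y (n + 1)) (by rw [mul_zero]; exact FF_zero)
    (fun x z hx hz => by rw [mul_add]; exact FF_add hx hz)
    (fun x a hx => by rw [← mul_assoc]; exact FF_smul a hx)
    (fun i hi => by rw [← pow_succ']; exact FF_pow (by omega)) hx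

variable {σ : K ≃+* K} {δ : K → K}

theorem K_pow (hyδ : ∀ a, y * ι a = ι (σ a) * y + ι (δ a)) (i : ℕ) :
    ∀ a : K, ι a * y ^ i ∈ FF ι y (i + 1) := by
  induction i with
  | zero =>
    intro a
    rw [pow_zero, mul_one]
    have := FF_smul (ι := ι) (y := y) a (FF_pow (n := 1) (i := 0) (by omega))
    rwa [pow_zero, one_mul] at this
  | succ i ih =>
    intro a
    have h1 : ι a * y = y * ι (σ.symm a) - ι (δ (σ.symm a)) := by
      rw [hyδ, RingEquiv.apply_symm_apply, add_sub_cancel_right]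
    rw [pow_succ', ← mul_assoc, h1, sub_mul, mul_assoc]
    exact FF_sub (FF_y (ih _)) (FF_mono (by omega) (ih _))

theorem FF_K (hyδ : ∀ a, y * ι a = ι (σ a) * y + ι (δ a)) {n : ℕ} {x : D} (a : K)
    (hx : x ∈ FF ι y n) : ι a * x ∈ FF ι y n :=
  FF_ind (p := fun x => ι a * x ∈ FF ι y n) (by rw [mul_zero]; exact FF_zero)
    (fun x z hx hz => by rw [mul_add]; exact FF_add hx hz)
    (fun x b hx => by rw [← mul_assoc]; exact FF_smul b hx)
    (fun i hi => FF_mono (by omega) (K_pow hyδ i a)) hx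

theorem FF_mul (hyδ : ∀ a, y * ι a = ι (σ a) * y + ι (δ a)) {n m : ℕ} {x : D}
    (hx : x ∈ FF ι y n) : ∀ z, z ∈ FF ι y m → x * z ∈ FF ι y (n + m) := by
  refine FF_ind (p := fun x => ∀ z, z ∈ FF ι y m → x * z ∈ FF ι y (n + m)) ?_ ?_ ?_ ?_ hx
  · intro z _; rw [zero_mul]; exact FF_zero
  · intro x x' hx hx' z hz; rw [add_mul]; exact FF_add (hx z hz) (hx' z hz)
  · intro x a hx z hz; rw [mul_assoc]; exact hx _ (FF_K hyδ a hz)
  · intro i hi z hz
    have : ∀ j, y ^ j * z ∈ FF ι y (m + j) := by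
      intro j
      induction j with
      | zero => rw [pow_zero, one_mul]; exact hz
      | succ j ih => rw [pow_succ', mul_assoc]; exact FF_y ih
    exact FF_mono (by omega) (this i)

/-- the polynomials in `y` -/
noncomputable def Rp (hyδ : ∀ a, y * ι a = ι (σ a) * y + ι (δ a)) : Subring D where
  carrier := {x | ∃ n, x ∈ FF ι y n}
  mul_mem' := by
    rintro a b ⟨n, hn⟩ ⟨m, hm⟩
    exact ⟨n + m, FF_mul hyδ hn b hm⟩
  one_mem' := ⟨1, by simpa using FF_pow (ι := ι) (y := y) (n := 1) (i := 0) (by omega)⟩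
  add_mem' := by
    rintro a b ⟨n, hn⟩ ⟨m, hm⟩
    exact ⟨n + m, FF_add (FF_mono (by omega) hn) (FF_mono (by omega) hm)⟩
  zero_mem' := ⟨0, FF_zero⟩
  neg_mem' := by
    rintro a ⟨n, hn⟩
    exact ⟨n, FF_neg hn⟩

theorem Rp_K (hyδ : ∀ a, y * ι a = ι (σ a) * y + ι (δ a)) (a : K) : ι a ∈ Rp hyδ := by
  refine ⟨1, ?_⟩
  have := K_pow hyδ 0 a
  rwa [pow_zero, mul_one] at this

theorem Rp_y (hyδ : ∀ a, y * ι a = ι (σ a) * y + ι (δ a)) : y ∈ Rp hyδ := by
  refine ⟨2, ?_⟩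
  have := FF_pow (ι := ι) (y := y) (n := 2) (i := 1) (by omega)
  rwa [pow_one] at this

theorem Rp_le (hyδ : ∀ a, y * ι a = ι (σ a) * y + ι (δ a)) (S : Subring D)
    (hK : ∀ a, ι a ∈ S) (hy : y ∈ S) : Rp hyδ ≤ S := by
  rintro x ⟨n, hx⟩
  exact FF_ind (p := fun x => x ∈ S) (zero_mem S) (fun _ _ => add_mem)
    (fun x a hx => mul_mem hx (hK a)) (fun _ _ => pow_mem hy _) hx

/-- the right Ore condition -/
theorem Rp_ore (hyδ : ∀ a, y * ι a = ι (σ a) * y + ι (δ a))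
    (hind : ∀ n (a : Fin n → K), ∑ i : Fin n, y ^ (i : ℕ) * ι (a i) = 0 → a = 0)
    {P Q : D} (hP : P ∈ Rp hyδ) (hQ : Q ∈ Rp hyδ) (hP0 : P ≠ 0) (hQ0 : Q ≠ 0) :
    ∃ A ∈ Rp hyδ, ∃ B ∈ Rp hyδ, A ≠ 0 ∧ B ≠ 0 ∧ P * A = Q * B := by
  let _ := rmod ι
  obtain ⟨d1, hd1⟩ := hP
  obtain ⟨d2, hd2⟩ := hQ
  let d := d1 + d2
  have hPd : P ∈ FF ι y d := FF_mono (by omega) hd1
  have hQd : Q ∈ FF ι y d := FF_mono (by omega) hd2
  let n := d + 1
  let Φ : (Fin n → K) →ₗ[K] D := Fintype.linearCombination K (fun i : Fin n => y ^ (i : ℕ))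
  have hΦ : ∀ a : Fin n → K, Φ a = ∑ i : Fin n, y ^ (i : ℕ) * ι (a i) := fun a => rfl
  have hΦmem : ∀ a : Fin n → K, Φ a ∈ FF ι y n := by
    intro a
    rw [hΦ]
    exact Submodule.sum_mem (FF ι y n) fun i _ => FF_smul _ (FF_pow i.2)
  let mulL : D → (D →ₗ[K] D) := fun P =>
    { toFun := fun x => P * x
      map_add' := mul_add P
      map_smul' := fun a x => by
        show P * (x * ι a) = (P * x) * ι a
        rw [mul_assoc] }
  let f0 : ((Fin n → K) × (Fin n → K)) →ₗ[K] D :=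
    ((mulL P).comp Φ).comp (LinearMap.fst K _ _) - ((mulL Q).comp Φ).comp (LinearMap.snd K _ _)
  have hf0 : ∀ v, f0 v = P * Φ v.1 - Q * Φ v.2 := fun v => rfl
  have hmem : ∀ v, f0 v ∈ FF ι y (d + n) := by
    intro v
    rw [hf0]
    exact FF_sub (FF_mul hyδ hPd _ (hΦmem _)) (FF_mul hyδ hQd _ (hΦmem _))
  let f : ((Fin n → K) × (Fin n → K)) →ₗ[K] FF ι y (d + n) := f0.codRestrict _ hmem
  have hfin : FiniteDimensional K (FF ι y (d + n)) :=
    FiniteDimensional.span_of_finite K (Set.finite_range _)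
  have hlt : Module.finrank K (FF ι y (d + n)) < Module.finrank K ((Fin n → K) × (Fin n → K)) := by
    have h1 : Module.finrank K (FF ι y (d + n)) ≤ d + n := by
      have := finrank_range_le_card (R := K) (fun i : Fin (d + n) => y ^ (i : ℕ))
      rw [Fintype.card_fin] at this
      exact this
    have h2 : Module.finrank K ((Fin n → K) × (Fin n → K)) = n + n := by
      rw [Module.finrank_prod, Module.finrank_fin_fun]
    rw [h2]
    omega
  have hker := LinearMap.ker_ne_bot_of_finrank_lt (f := f) hlt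
  obtain ⟨v, hv, hv0⟩ := Submodule.exists_mem_ne_zero_of_ne_bot hker
  have h1 : P * Φ v.1 = Q * Φ v.2 := by
    have h2 : f0 v = 0 := congrArg Subtype.val (LinearMap.mem_ker.mp hv)
    rw [hf0] at h2
    exact sub_eq_zero.mp h2
  have hA0 : Φ v.1 ≠ 0 := by
    intro h0
    have h2 : Φ v.2 = 0 := by
      rw [h0, mul_zero] at h1
      exact (mul_eq_zero.mp h1.symm).resolve_left hQ0
    apply hv0
    exact Prod.ext (hind n _ h0) (hind n _ h2)
  have hB0 : Φ v.2 ≠ 0 := by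
    intro h0
    rw [h0, mul_zero] at h1
    exact hA0 ((mul_eq_zero.mp h1).resolve_left hP0)
  exact ⟨Φ v.1, ⟨n, hΦmem _⟩, Φ v.2, ⟨n, hΦmem _⟩, hA0, hB0, h1⟩

theorem Rp_denom (hyδ : ∀ a, y * ι a = ι (σ a) * y + ι (δ a))
    (hind : ∀ n (a : Fin n → K), ∑ i : Fin n, y ^ (i : ℕ) * ι (a i) = 0 → a = 0)
    (hgen : Subfield.closure (Set.range ι ∪ {y}) = ⊤) (x : D) :
    ∃ P ∈ Rp hyδ, P ≠ 0 ∧ x * P ∈ Rp hyδ := by
  have hx : x ∈ Subfield.closure (Set.range ι ∪ {y}) := by rw [hgen]; trivial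
  induction hx using Subfield.closure_induction with
  | mem x hx =>
    refine ⟨1, one_mem _, one_ne_zero, ?_⟩
    rw [mul_one]
    rcases hx with ⟨a, rfl⟩ | hx
    · exact Rp_K hyδ a
    · rw [Set.mem_singleton_iff] at hx
      rw [hx]; exact Rp_y hyδ
  | one => exact ⟨1, one_mem _, one_ne_zero, by rw [mul_one]; exact one_mem _⟩
  | add x z _ _ hx hz =>
    obtain ⟨P, hP, hP0, hxP⟩ := hx
    obtain ⟨Q, hQ, hQ0, hzQ⟩ := hz
    obtain ⟨A, hA, B, hB, hA0, hB0, hAB⟩ := Rp_ore hyδ hind hP hQ hP0 hQ0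
    refine ⟨P * A, mul_mem hP hA, mul_ne_zero hP0 hA0, ?_⟩
    rw [add_mul, ← mul_assoc, hAB, ← mul_assoc]
    exact add_mem (mul_mem hxP hA) (mul_mem hzQ hB)
  | neg x _ hx =>
    obtain ⟨P, hP, hP0, hxP⟩ := hx
    exact ⟨P, hP, hP0, by rw [neg_mul]; exact neg_mem hxP⟩
  | inv x _ hx =>
    obtain ⟨P, hP, hP0, hxP⟩ := hx
    by_cases h0 : x = 0
    · rw [h0, inv_zero]
      exact ⟨1, one_mem _, one_ne_zero, by rw [zero_mul]; exact zero_mem _⟩
    · refine ⟨x * P, hxP, mul_ne_zero h0 hP0, ?_⟩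
      rw [← mul_assoc, inv_mul_cancel₀ h0, one_mul]
      exact hP
  | mul x z _ _ hx hz =>
    obtain ⟨P, hP, hP0, hxP⟩ := hx
    obtain ⟨Q, hQ, hQ0, hzQ⟩ := hz
    by_cases h0 : z = 0
    · rw [h0, mul_zero]
      exact ⟨1, one_mem _, one_ne_zero, by rw [zero_mul]; exact zero_mem _⟩
    obtain ⟨A, hA, B, hB, hA0, hB0, hAB⟩ :=
      Rp_ore hyδ hind hP hzQ hP0 (mul_ne_zero h0 hQ0)
    refine ⟨Q * B, mul_mem hQ hB, mul_ne_zero hQ0 hB0, ?_⟩
    have h1 : x * z * (Q * B) = x * P * A := by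
      calc x * z * (Q * B) = x * (z * Q * B) := by simp only [mul_assoc]
        _ = x * (P * A) := by rw [hAB]
        _ = x * P * A := by rw [mul_assoc]
    rw [h1]
    exact mul_mem hxP hA

/-- common right denominators inside any subring containing `K` and `y` -/
theorem denoms (hyδ : ∀ a, y * ι a = ι (σ a) * y + ι (δ a))
    (hind : ∀ n (a : Fin n → K), ∑ i : Fin n, y ^ (i : ℕ) * ι (a i) = 0 → a = 0)
    (hgen : Subfield.closure (Set.range ι ∪ {y}) = ⊤) (S : Subring D)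
    (hK : ∀ a, ι a ∈ S) (hy : y ∈ S) (m : ℕ) (x : ℕ → D) :
    ∃ P ∈ S, P ≠ 0 ∧ ∀ i < m, x i * P ∈ S := by
  induction m with
  | zero => exact ⟨1, one_mem _, one_ne_zero, fun i hi => absurd hi (by omega)⟩
  | succ m ih =>
    obtain ⟨P, hP, hP0, hxP⟩ := ih
    obtain ⟨Q, hQ, hQ0, hQx⟩ := Rp_denom hyδ hind hgen (x m * P)
    have hQ' := Rp_le hyδ S hK hy hQ
    refine ⟨P * Q, mul_mem hP hQ', mul_ne_zero hP0 hQ0, fun i hi => ?_⟩
    rcases Nat.lt_succ_iff_lt_or_eq.mp hi with h | h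
    · rw [← mul_assoc]; exact mul_mem (hxP i h) hQ'
    · rw [h, ← mul_assoc]; exact Rp_le hyδ S hK hy hQx

end

end SDR
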