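import Pool.Agent.Helper9_SDR.Base
import Pool.Agent.Helper9_SDR.Ore

/-! # Differential operator extensions `K(y; δ)` (MP_87570e_al) -/

open Polynomial

namespace SDR

variable {k : Type} [Field k] {D : Type} [DivisionRing D] {K : Type} [Field K] [Algebra k K]
variable {ι : K →+* D} {y : D} {δ : Derivation k K K}

/-- right multiplication by `s0` on polynomials in `y` with left coefficients, when `δ s0 = 1` -/
theorem pow_s {s : D} (h : y * s = s * y + 1) (n : ℕ) : y ^ (n + 1) * s = s * y ^ (n + 1) +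
    ((n + 1 : ℕ) : D) * y ^ n := by
  induction n with
  | zero => rw [zero_add, pow_one, h, pow_zero, Nat.cast_one, one_mul]
  | succ n ih =>
    have h1 : ∀ m : ℕ, y * (m : D) = (m : D) * y := fun m => (Nat.cast_commute m y).symm.eq
    rw [pow_succ' y (n + 1), mul_assoc, ih, mul_add, ← mul_assoc, h, add_mul, one_mul, mul_assoc,
      ← mul_assoc y, h1, mul_assoc, ← pow_succ', Nat.cast_add (n + 1) 1, Nat.cast_one, add_mul,
      one_mul, add_assoc, add_comm (y ^ (n + 1)), ← pow_succ' y n]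

theorem eval_s {s : D} (h : y * s = s * y + 1) (p : D[X]) :
    p.eval y * s = (p * C s + derivative p).eval y := by
  induction p using Polynomial.induction_on' with
  | add p q hp hq =>
    rw [eval_add, add_mul, hp, hq, add_mul, derivative_add, ← eval_add]
    congr 1
    abel
  | monomial n c =>
    rw [derivative_monomial, monomial_mul_C, eval_add, eval_monomial, eval_monomial, eval_monomial]
    cases n with
    | zero => simp
    | succ n =>
      rw [mul_assoc, pow_s h, mul_add, mul_assoc, mul_assoc, Nat.add_sub_cancel]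

/-- the ring of differential operators -/
def DR (hyδ : ∀ a, y * ι a = ι a * y + ι (δ a)) : Subring D where
  carrier := {x | ∃ p : K[X], x = (p.map ι).eval y}
  mul_mem' := by
    rintro _ _ ⟨p, rfl⟩ ⟨q, rfl⟩
    have hK : ∀ (p : K[X]) (a : K), ∃ r : K[X], (p.map ι).eval y * ι a = (r.map ι).eval y := by
      intro p
      induction p using Polynomial.induction_on with
      | C c => exact fun a => ⟨C (c * a), by simp⟩
      | add p q hp hq =>
        intro a
        obtain ⟨r, hr⟩ := hp a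
        obtain ⟨t, ht⟩ := hq a
        exact ⟨r + t, by rw [Polynomial.map_add, eval_add, add_mul, hr, ht, Polynomial.map_add,
          eval_add]⟩
      | monomial n c ih =>
        intro a
        obtain ⟨r, hr⟩ := ih a
        obtain ⟨t, ht⟩ := ih (δ a)
        refine ⟨r * X + t, ?_⟩
        rw [pow_succ, ← mul_assoc, Polynomial.map_mul, map_X, eval_mul_X, mul_assoc, hyδ, mul_add,
          ← mul_assoc, hr, ht, Polynomial.map_add, Polynomial.map_mul, map_X, eval_add, eval_mul_X]
    induction q using Polynomial.induction_on with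
    | C c =>
      obtain ⟨r, hr⟩ := hK p c
      exact ⟨r, by rw [map_C, eval_C, hr]⟩
    | add q q' hq hq' =>
      obtain ⟨r, hr⟩ := hq
      obtain ⟨t, ht⟩ := hq'
      exact ⟨r + t, by rw [Polynomial.map_add, eval_add, mul_add, hr, ht, Polynomial.map_add,
          eval_add]⟩
    | monomial n c ih =>
      obtain ⟨r, hr⟩ := ih
      refine ⟨r * X, ?_⟩
      rw [pow_succ, ← mul_assoc, Polynomial.map_mul, map_X, eval_mul_X, ← mul_assoc, hr,
        Polynomial.map_mul, map_X, eval_mul_X]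
  one_mem' := ⟨1, by simp⟩
  add_mem' := by
    rintro _ _ ⟨p, rfl⟩ ⟨q, rfl⟩
    exact ⟨p + q, by rw [Polynomial.map_add, eval_add]⟩
  zero_mem' := ⟨0, by simp⟩
  neg_mem' := by
    rintro _ ⟨p, rfl⟩
    refine ⟨-p, ?_⟩
    rw [eq_comm, eq_neg_iff_add_eq_zero, ← eval_add, ← Polynomial.map_add, neg_add_cancel,
      Polynomial.map_zero, eval_zero]

section

variable (hyδ : ∀ a, y * ι a = ι a * y + ι (δ a))

theorem DR_K (a : K) : ι a ∈ DR hyδ := ⟨C a, by simp⟩

theorem DR_y : y ∈ DR hyδ := ⟨X, by simp⟩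

include hyδ in
theorem ys_of {s0 : K} (hs0 : δ s0 = 1) : y * ι s0 = ι s0 * y + 1 := by
  rw [hyδ, hs0, map_one]

include hyδ in
/-- the commutator with `s0` is the derivative -/
theorem comm_s {s0 : K} (hs0 : δ s0 = 1) (p : K[X]) :
    (p.map ι).eval y * ι s0 = ι s0 * (p.map ι).eval y + ((derivative p).map ι).eval y := by
  rw [eval_s (ys_of hyδ hs0), eval_add, derivative_map, ← map_C, ← Polynomial.map_mul,
    mul_comm p, Polynomial.map_mul, map_C, eval_C_mul]

variable [CharZero K]

include hyδ in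
theorem indep_del {s0 : K} (hs0 : δ s0 = 1) (p : K[X]) (h : (p.map ι).eval y = 0) : p = 0 := by
  have key : ∀ N : ℕ, ∀ p : K[X], p.natDegree ≤ N → (p.map ι).eval y = 0 → p = 0 := by
    intro N
    induction N with
    | zero =>
      intro p hp h
      rw [eq_C_of_natDegree_le_zero hp, map_C, eval_C, map_eq_zero] at h
      rw [eq_C_of_natDegree_le_zero hp, h, C_0]
    | succ N ih =>
      intro p hp h
      have h1 := comm_s hyδ hs0 p
      rw [h, zero_mul, mul_zero, zero_add] at h1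
      have h2 := ih (derivative p) ((natDegree_derivative_le p).trans (by omega)) h1.symm
      have h3 := derivative_eq_zero.mp h2
      rw [eq_C_of_natDegree_eq_zero h3, map_C, eval_C, map_eq_zero] at h
      rw [eq_C_of_natDegree_eq_zero h3, h, C_0]
  exact key _ p le_rfl h

include hyδ in
theorem hind_del {s0 : K} (hs0 : δ s0 = 1) (n : ℕ) : ∀ (a : Fin n → K)
    (_ : ∑ i : Fin n, y ^ (i : ℕ) * ι (a i) = 0), a = 0 := by
  have hys := ys_of hyδ hs0
  induction n with
  | zero => intro a _; funext i; exact i.elim0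
  | succ n ih =>
    intro a h
    rw [Fin.sum_univ_succ] at h
    have h0 : (∑ i : Fin n, y ^ (i : ℕ) * ι ((((i : ℕ) + 1 : ℕ) : K) * a i.succ)) = 0 := by
      have h1 : ∀ i : Fin n, y ^ (i : ℕ) * ι ((((i : ℕ) + 1 : ℕ) : K) * a i.succ) =
          (y ^ ((i.succ : Fin (n + 1)) : ℕ) * ι (a i.succ)) * ι s0 -
            ι s0 * (y ^ ((i.succ : Fin (n + 1)) : ℕ) * ι (a i.succ)) := by
        intro i
        have e1 : y ^ ((i : ℕ) + 1) * ι (a i.succ) * ι s0 =
            y ^ ((i : ℕ) + 1) * ι s0 * ι (a i.succ) := by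
          rw [mul_assoc, mul_assoc, ← map_mul, ← map_mul, mul_comm (a i.succ)]
        rw [Fin.val_succ, e1, pow_s hys, add_mul, mul_assoc (ι s0), add_sub_cancel_left, map_mul,
          map_natCast, ← mul_assoc, (Nat.cast_commute ((i : ℕ) + 1) (y ^ (i : ℕ))).eq]
      rw [Finset.sum_congr rfl fun i _ => h1 i, Finset.sum_sub_distrib, ← Finset.sum_mul,
        ← Finset.mul_sum]
      have h2 : ∑ i : Fin n, y ^ ((i.succ : Fin (n + 1)) : ℕ) * ι (a i.succ) = -ι (a 0) := by
        rw [eq_neg_iff_add_eq_zero, add_comm, ← h, Fin.val_zero, pow_zero, one_mul]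
      rw [h2, neg_mul, mul_neg, ← map_mul, ← map_mul, mul_comm, sub_self]
    have h3 := ih _ h0
    have h4 : ∀ i : Fin n, a i.succ = 0 := by
      intro i
      have h5 := congrFun h3 i
      have h6 : (((i : ℕ) + 1 : ℕ) : K) * a i.succ = 0 := h5
      have h7 : (((i : ℕ) + 1 : ℕ) : K) ≠ 0 := Nat.cast_ne_zero.mpr (by omega)
      exact (mul_eq_zero.mp h6).resolve_left h7
    have h8 : a 0 = 0 := by
      have h9 : ∑ i : Fin n, y ^ ((i.succ : Fin (n + 1)) : ℕ) * ι (a i.succ) = 0 :=
        Finset.sum_eq_zero fun i _ => by rw [h4 i, map_zero, mul_zero]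
      rw [h9, add_zero, Fin.val_zero, pow_zero, one_mul, map_eq_zero] at h
      exact h
    funext i
    refine Fin.cases h8 h4 i

omit [CharZero K] in
theorem DR_tors {s0 : K} (hs0 : δ s0 = 1) {z : D} (hz : z ∈ DR hyδ) :
    ∃ F : K[X], F ≠ 0 ∧ Th ι s0 F z = 0 := by
  obtain ⟨p, rfl⟩ := hz
  have hX : ∀ p : K[X], Th ι s0 (X - C s0) ((p.map ι).eval y) = ((derivative p).map ι).eval y := by
    intro p
    rw [sub_eq_add_neg, ← C_neg, Th_add, Th_X, Th_C, comm_s hyδ hs0, map_neg, neg_mul]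
    abel
  have key : ∀ N : ℕ, ∀ p : K[X], p.natDegree < N → ∃ F : K[X], F ≠ 0 ∧
      Th ι s0 F ((p.map ι).eval y) = 0 := by
    intro N
    induction N with
    | zero => intro p hp; exact absurd hp (by omega)
    | succ N ih =>
      intro p hp
      by_cases h0 : p.natDegree = 0
      · refine ⟨X - C s0, X_sub_C_ne_zero _, ?_⟩
        rw [hX, derivative_of_natDegree_zero h0, Polynomial.map_zero, eval_zero]
      · obtain ⟨F, hF, hF'⟩ := ih (derivative p)
          (lt_of_lt_of_le (natDegree_derivative_lt h0) (by omega))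
        refine ⟨F * (X - C s0), mul_ne_zero hF (X_sub_C_ne_zero _), ?_⟩
        rw [Th_mul, hX, hF']
  exact key _ p (Nat.lt_succ_self _)

theorem tors_DR {s0 : K} (hs0 : δ s0 = 1)
    (hgen : Subfield.closure (Set.range ι ∪ {y}) = ⊤) (c : D)
    (h : ∃ F : K[X], F ≠ 0 ∧ Th ι s0 F c = 0) : c ∈ DR hyδ := by
  obtain ⟨F, hF, hFc⟩ := h
  by_cases hm : F.natDegree = 0
  · rw [eq_C_of_natDegree_eq_zero hm, Th_C] at hFc
    have h1 : F.coeff 0 ≠ 0 := by
      intro h0
      apply hF
      rw [eq_C_of_natDegree_eq_zero hm, h0, C_0]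
    have h2 : ι (F.coeff 0) ≠ 0 := by rwa [Ne, map_eq_zero]
    rw [(mul_eq_zero.mp hFc).resolve_left h2]
    exact zero_mem _
  have hyδ' : ∀ a, y * ι a = ι ((RingEquiv.refl K) a) * y + ι ((fun a => δ a : K → K) a) := hyδ
  obtain ⟨P, ⟨p, hp⟩, hP0, hP⟩ := denoms hyδ' (hind_del hyδ hs0) hgen (DR hyδ)
    (DR_K hyδ) (DR_y hyδ) F.natDegree (fun i => c * ι s0 ^ i)
  have key : ∀ N : ℕ, ∀ p : K[X], p.natDegree ≤ N → p ≠ 0 →
      (∀ i < F.natDegree, c * ι s0 ^ i * (p.map ι).eval y ∈ DR hyδ) → c ∈ DR hyδ := by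
    intro N
    induction N with
    | zero =>
      intro p hpN hp0 hp
      have h1 := hp 0 (by omega)
      rw [eq_C_of_natDegree_le_zero hpN, map_C, eval_C, pow_zero, mul_one] at h1
      have h2 : p.coeff 0 ≠ 0 := by
        intro h0
        apply hp0
        rw [eq_C_of_natDegree_le_zero hpN, h0, C_0]
      have h3 := mul_mem h1 (DR_K hyδ (p.coeff 0)⁻¹)
      rwa [mul_assoc, ← map_mul, mul_inv_cancel₀ h2, map_one, mul_one] at h3
    | succ N ih =>
      intro p hpN hp0 hp
      by_cases hd : p.natDegree = 0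
      · have h1 := hp 0 (by omega)
        rw [eq_C_of_natDegree_eq_zero hd, map_C, eval_C, pow_zero, mul_one] at h1
        have h2 : p.coeff 0 ≠ 0 := by
          intro h0
          apply hp0
          rw [eq_C_of_natDegree_eq_zero hd, h0, C_0]
        have h3 := mul_mem h1 (DR_K hyδ (p.coeff 0)⁻¹)
        rwa [mul_assoc, ← map_mul, mul_inv_cancel₀ h2, map_one, mul_one] at h3
      · refine ih (derivative p) ((natDegree_derivative_le p).trans (by omega)) ?_ ?_
        · intro h0
          exact hd (derivative_eq_zero.mp h0)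
        · intro i hi
          have h1 : ((derivative p).map ι).eval y =
              (p.map ι).eval y * ι s0 - ι s0 * (p.map ι).eval y := by
            rw [comm_s hyδ hs0, add_sub_cancel_left]
          rw [h1, mul_sub]
          refine sub_mem ?_ ?_
          · rw [← mul_assoc]
            exact mul_mem (hp i hi) (DR_K hyδ _)
          · rw [← mul_assoc, mul_assoc c, ← pow_succ]
            rcases Nat.lt_or_ge (i + 1) F.natDegree with h | h
            · exact hp _ h
            · have h1 : i + 1 = F.natDegree := by omega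
              rw [h1]
              exact top_mem (DR_K hyδ) hF hFc hp
  refine key _ p le_rfl ?_ (fun i hi => by rw [← hp]; exact hP i hi)
  rintro rfl
  rw [Polynomial.map_zero, eval_zero] at hp
  exact hP0 hp

include hyδ in
theorem cent_del {s0 : K} (hs0 : δ s0 = 1)
    (hgen : Subfield.closure (Set.range ι ∪ {y}) = ⊤) (x : D) (hx : ι s0 * x = x * ι s0) :
    x ∈ Set.range ι := by
  have hxL : x ∈ DR hyδ := by
    refine tors_DR hyδ hs0 hgen x ⟨X - C s0, X_sub_C_ne_zero _, ?_⟩
    rw [sub_eq_add_neg, ← C_neg, Th_add, Th_X, Th_C, map_neg, neg_mul, hx, add_neg_cancel]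
  obtain ⟨p, hp⟩ := hxL
  have h1 : ((derivative p).map ι).eval y = 0 := by
    have h2 := comm_s hyδ hs0 p
    rw [← hp, hx] at h2
    exact left_eq_add.mp h2
  have h3 := derivative_eq_zero.mp (indep_del hyδ hs0 _ h1)
  rw [hp, eq_C_of_natDegree_eq_zero h3, map_C, eval_C]
  exact ⟨_, rfl⟩

include hyδ in
/-- a relation over `D' K` gives `y ∈ D' K` -/
theorem rel_del {s0 : K} (hs0 : δ s0 = 1)
    (hgen : Subfield.closure (Set.range ι ∪ {y}) = ⊤) {D' : Subfield D} (hs : ι s0 ∈ D')
    (b : D[X]) (hb : ∀ n, b.coeff n ∈ B0 ι D') (hE : b.eval y = 0) (hb0 : b ≠ 0) :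
    y ∈ B0 ι D' := by
  classical
  have hcent := cent_del hyδ hs0 hgen
  have hys := ys_of hyδ hs0
  let M : Set D[X] := {b | (∀ n, b.coeff n ∈ B0 ι D') ∧ b.eval y = 0}
  have hex : ∃ N : ℕ, ∃ w ∈ M, w ≠ 0 ∧ w.natDegree = N := ⟨_, b, ⟨hb, hE⟩, hb0, rfl⟩
  let N := Nat.find hex
  obtain ⟨w, ⟨hw1, hw2⟩, hw0, hwN⟩ := Nat.find_spec hex
  have hmin : ∀ v ∈ M, v.natDegree < N → v = 0 := by
    intro v hv hvN
    by_contra h0
    exact Nat.find_min hex hvN ⟨v, hv, h0, rfl⟩
  have hM_s : ∀ v ∈ M, v * C (ι s0) + derivative v ∈ M := by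
    rintro v ⟨hv1, hv2⟩
    refine ⟨fun n => ?_, ?_⟩
    · rw [coeff_add, coeff_mul_C, coeff_derivative]
      refine add_mem (B0_right _ (hv1 n)) ?_
      have h1 : ((n : D) + 1) = ι ((n : K) + 1) := by rw [map_add, map_natCast, map_one]
      rw [h1]
      exact B0_right _ (hv1 _)
    · rw [← eval_s hys, hv2, zero_mul]
  let L : AddSubgroup D :=
    { carrier := {z | ∃ v ∈ M, v.natDegree ≤ N ∧ v.coeff N = z}
      add_mem' := by
        rintro _ _ ⟨v, ⟨hv1, hv2⟩, hvN, rfl⟩ ⟨v', ⟨hv1', hv2'⟩, hvN', rfl⟩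
        refine ⟨v + v', ⟨fun n => ?_, ?_⟩, (natDegree_add_le _ _).trans (max_le hvN hvN'), ?_⟩
        · rw [coeff_add]; exact add_mem (hv1 n) (hv1' n)
        · rw [eval_add, hv2, hv2', add_zero]
        · rw [coeff_add]
      zero_mem' := ⟨0, ⟨fun n => by rw [coeff_zero]; exact zero_mem _, eval_zero⟩, by simp,
        coeff_zero _⟩
      neg_mem' := by
        rintro _ ⟨v, ⟨hv1, hv2⟩, hvN, rfl⟩
        refine ⟨-v, ⟨fun n => ?_, ?_⟩, by rwa [natDegree_neg], coeff_neg _ _⟩
        · rw [coeff_neg]; exact neg_mem (hv1 n)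
        · have h1 : (-v).eval y + v.eval y = 0 := by rw [← eval_add, neg_add_cancel, eval_zero]
          rwa [hv2, add_zero] at h1 }
  have hwlc : w.coeff N ≠ 0 := by
    have h1 : w.coeff w.natDegree ≠ 0 := leadingCoeff_ne_zero.mpr hw0
    rw [hwN] at h1
    exact h1
  obtain ⟨x, hx0, v, ⟨hv1, hv2⟩, hvN, hvx⟩ := simp_B0' (D' := D') hs hcent L
    (by rintro _ ⟨v, ⟨hv1, _⟩, _, rfl⟩; exact hv1 N)
    (by
      rintro d hd _ ⟨v, ⟨hv1, hv2⟩, hvN, rfl⟩
      refine ⟨C d * v, ⟨fun n => ?_, ?_⟩, (natDegree_C_mul_le _ _).trans hvN, coeff_C_mul _⟩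
      · rw [coeff_C_mul]; exact B0_left hd (hv1 n)
      · rw [eval_C_mul, hv2, mul_zero])
    (by
      rintro _ ⟨v, hv, hvN, rfl⟩
      refine ⟨v * C (ι s0) + derivative v, hM_s v hv, ?_, ?_⟩
      · refine (natDegree_add_le _ _).trans (max_le ((natDegree_mul_C_le _ _).trans hvN) ?_)
        exact (natDegree_derivative_le v).trans (by omega)
      · rw [coeff_add, coeff_mul_C, coeff_derivative,
          coeff_eq_zero_of_natDegree_lt (lt_of_le_of_lt hvN (Nat.lt_succ_self N)), zero_mul,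
          add_zero])
    (w.coeff N) ⟨w, ⟨hw1, hw2⟩, hwN.le, rfl⟩ hwlc
  -- the commutator
  have hT : C (ι s0) * v - (v * C (ι s0) + derivative v) = 0 := by
    have hTM : C (ι s0) * v - (v * C (ι s0) + derivative v) ∈ M := by
      obtain ⟨h1, h2⟩ := hM_s v ⟨hv1, hv2⟩
      refine ⟨fun n => ?_, ?_⟩
      · rw [coeff_sub, coeff_C_mul]
        exact sub_mem (B0_left hs (hv1 n)) (h1 n)
      · have h3 : (C (ι s0) * v - (v * C (ι s0) + derivative v)).eval y +
            (v * C (ι s0) + derivative v).eval y = 0 := by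
          rw [← eval_add, sub_add_cancel, eval_C_mul, hv2, mul_zero]
        rwa [h2, add_zero] at h3
    by_cases hN0 : N = 0
    · -- then `v` is constant and zero, impossible
      exfalso
      have h1 := hv2
      rw [hN0] at hvN
      rw [eq_C_of_natDegree_le_zero hvN, eval_C] at h1
      rw [hN0, h1] at hvx
      exact hx0 ((map_eq_zero ι).mp hvx.symm)
    · apply hmin _ hTM
      rw [Nat.lt_iff_le_pred (Nat.pos_of_ne_zero hN0), natDegree_le_iff_coeff_eq_zero]
      intro m hm
      rw [coeff_sub, coeff_C_mul, coeff_add, coeff_mul_C, coeff_derivative]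
      have hm1 : v.coeff (m + 1) = 0 := coeff_eq_zero_of_natDegree_lt (by omega)
      rw [hm1, zero_mul, add_zero]
      rcases Nat.lt_or_ge N m with h | h
      · rw [coeff_eq_zero_of_natDegree_lt (lt_of_le_of_lt hvN h), mul_zero, zero_mul, sub_zero]
      · have h2 : m = N := by omega
        rw [h2, hvx, ← map_mul, ← map_mul, mul_comm, sub_self]
  have hN0 : N ≠ 0 := by
    intro hN0
    have h1 := hv2
    rw [hN0] at hvN
    rw [eq_C_of_natDegree_le_zero hvN, eval_C] at h1
    rw [hN0, h1] at hvx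
    exact hx0 ((map_eq_zero ι).mp hvx.symm)
  obtain ⟨m, hm⟩ := Nat.exists_eq_succ_of_ne_zero hN0
  have h1 : ι s0 * v.coeff m - (v.coeff m * ι s0 + ι x * ((m : D) + 1)) = 0 := by
    have h2 := congrArg (fun p : D[X] => p.coeff m) hT
    simp only [coeff_sub, coeff_C_mul, coeff_add, coeff_mul_C, coeff_derivative, coeff_zero] at h2
    have hvx' : v.coeff (m + 1) = ι x := by rw [← hvx, hm]
    rw [hvx'] at h2
    exact h2
  -- `v_m + (m+1) x y` commutes with `s0`
  have hcast : ι x * ((m : D) + 1) = ι (x * ((m : K) + 1)) := by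
    rw [map_mul, map_add, map_natCast, map_one]
  have hz0 : x * ((m : K) + 1) ≠ 0 := mul_ne_zero hx0 (Nat.cast_add_one_ne_zero m)
  rw [hcast, sub_eq_zero] at h1
  generalize x * ((m : K) + 1) = z at hz0 h1
  have h3 : ι s0 * (v.coeff m + ι z * y) = (v.coeff m + ι z * y) * ι s0 := by
    have e1 : ι s0 * (ι z * y) = ι z * (ι s0 * y) := by
      rw [← mul_assoc, ← mul_assoc, ← map_mul, ← map_mul, mul_comm]
    rw [mul_add, add_mul, h1, mul_assoc (ι z), hys, mul_add, mul_one, e1]
    abel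
  obtain ⟨t, ht⟩ := hcent _ h3
  have h4 : ι z * y = ι t - v.coeff m := by rw [ht, add_sub_cancel_left]
  have h5 : ι z * y ∈ B0 ι D' := by rw [h4]; exact sub_mem (B0_K t) (hv1 m)
  have h6 : y * ι z ∈ B0 ι D' := by rw [hyδ]; exact add_mem h5 (B0_K _)
  have h7 := B0_right (ι := ι) (D' := D') z⁻¹ h6
  rwa [mul_assoc, ← map_mul, mul_inv_cancel₀ hz0, map_one, mul_one] at h7

/-- the main statement: right denominators inside `D' ∩ DR` -/
theorem main_del {s0 : K} (hs0 : δ s0 = 1)
    (hgen : Subfield.closure (Set.range ι ∪ {y}) = ⊤) {D' : Subfield D} (hs : ι s0 ∈ D')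
    (halg : Algebra.IsAlgebraic (Kp ι D') K) {x : D} (hx : x ∈ D') :
    ∃ c ∈ D', c ∈ DR hyδ ∧ c ≠ 0 ∧ x * c ∈ DR hyδ := by
  classical
  have hcent := cent_del hyδ hs0 hgen
  by_cases hxK : x ∈ Set.range ι
  · obtain ⟨a, rfl⟩ := hxK
    exact ⟨1, one_mem _, one_mem _, one_ne_zero, by rw [mul_one]; exact DR_K hyδ a⟩
  have hyδ' : ∀ a, y * ι a = ι ((RingEquiv.refl K) a) * y + ι ((fun a => δ a : K → K) a) := hyδ
  obtain ⟨P, ⟨p, hp⟩, hP0, hP⟩ := denoms hyδ' (hind_del hyδ hs0) hgen (DR hyδ)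
    (DR_K hyδ) (DR_y hyδ) 1 (fun _ => x)
  obtain ⟨q, hq⟩ := hP 0 Nat.one_pos
  have hyB : y ∈ B0 ι D' := by
    have hadd : (C x * p.map ι - q.map ι).eval y + (q.map ι).eval y = 0 + (q.map ι).eval y := by
      rw [← eval_add, sub_add_cancel, eval_C_mul, ← hp, hq, zero_add]
    refine rel_del hyδ hs0 hgen hs (C x * p.map ι - q.map ι) ?_ (add_right_cancel hadd) ?_
    · intro n
      rw [coeff_sub, coeff_C_mul, coeff_map, coeff_map]
      exact sub_mem (B0_gen hx _) (B0_K _)
    · intro h0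
      have hp0 : p ≠ 0 := by
        rintro rfl
        rw [Polynomial.map_zero, eval_zero] at hp
        exact hP0 hp
      have h1 := congrArg (fun r : D[X] => r.coeff p.natDegree) h0
      simp only [coeff_sub, coeff_C_mul, coeff_map, coeff_zero] at h1
      rw [sub_eq_zero] at h1
      have h2 : ι (p.coeff p.natDegree) ≠ 0 := by
        rw [Ne, map_eq_zero]
        exact leadingCoeff_ne_zero.mpr hp0
      apply hxK
      refine ⟨q.coeff p.natDegree * (p.coeff p.natDegree)⁻¹, ?_⟩
      rw [map_mul, ← h1, map_inv₀, mul_assoc, mul_inv_cancel₀ h2, mul_one]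
  have hBy : ∀ z ∈ B0 ι D', z * y ∈ B0 ι D' := by
    intro z hz
    induction hz using AddSubgroup.closure_induction with
    | mem z hz =>
      obtain ⟨d, hd, a, rfl⟩ := hz
      have h1 : ι a * y = y * ι a - ι (δ a) := by rw [hyδ, add_sub_cancel_right]
      rw [mul_assoc, h1]
      exact B0_left hd (sub_mem (B0_right _ hyB) (B0_K _))
    | zero => rw [zero_mul]; exact zero_mem _
    | add x z _ _ hx hz => rw [add_mul]; exact add_mem hx hz
    | neg x _ hx => rw [neg_mul]; exact neg_mem hx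
  have hPB : P ∈ B0 ι D' := by
    rw [hp]
    have key : ∀ p : K[X], (p.map ι).eval y ∈ B0 ι D' := by
      intro p
      induction p using Polynomial.induction_on with
      | C c => rw [map_C, eval_C]; exact B0_K c
      | add p q hp hq => rw [Polynomial.map_add, eval_add]; exact add_mem hp hq
      | monomial n c ih =>
        rw [pow_succ, ← mul_assoc, Polynomial.map_mul, map_X, eval_mul_X]
        exact hBy _ ih
    exact key p
  exact fin_abs (fun z hz => DR_tors hyδ hs0 hz) (fun z hz => tors_DR hyδ hs0 hgen z hz)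
    hs hcent halg hx ⟨p, hp⟩ hP0 hPB ⟨q, hq⟩

end

end SDR
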