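import Mathlib

/-! # Dimension bounds in function fields of transcendence degree one (MP_87570e_al) -/

open Polynomial IntermediateField

namespace SDR

variable {k K : Type} [Field k] [Field K] [Algebra k K]

/-- `z` is integral over `k[v]` -/
def Int (v z : K) : Prop := IsIntegral (Algebra.adjoin k ({v} : Set K)) z

variable (k) in
/-- `k[v]` -/
abbrev Av (v : K) : Subalgebra k K := Algebra.adjoin k ({v} : Set K)

theorem mem_Av {v z : K} : z ∈ Av k v ↔ ∃ p : k[X], aeval v p = z := by
  rw [Av, Algebra.adjoin_singleton_eq_range_aeval]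
  exact AlgHom.mem_range _

theorem aeval_mem (v : K) (p : k[X]) : aeval v p ∈ Av k v := mem_Av.mpr ⟨p, rfl⟩

theorem int_of_mem {v z : K} (h : z ∈ Av k v) : Int (k := k) v z :=
  isIntegral_algebraMap (R := Av k v) (x := ⟨z, h⟩)

theorem Int.mul {v a b : K} (ha : Int (k := k) v a) (hb : Int (k := k) v b) :
    Int (k := k) v (a * b) := IsIntegral.mul ha hb

theorem Int.add {v a b : K} (ha : Int (k := k) v a) (hb : Int (k := k) v b) :
    Int (k := k) v (a + b) := IsIntegral.add ha hb

theorem Int.prod {v : K} {α : Type*} (s : Finset α) (f : α → K)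
    (h : ∀ i ∈ s, Int (k := k) v (f i)) : Int (k := k) v (∏ i ∈ s, f i) := by
  classical
  induction s using Finset.induction_on with
  | empty => simpa using int_of_mem (k := k) (v := v) (one_mem _)
  | insert a s ha ih =>
    rw [Finset.prod_insert ha]
    exact (h a (Finset.mem_insert_self a s)).mul
      (ih fun i hi => h i (Finset.mem_insert_of_mem hi))

theorem int_zero (v : K) : Int (k := k) v 0 := isIntegral_zero

theorem int_smul {v a : K} (c : k) (ha : Int (k := k) v a) : Int (k := k) v (c • a) := by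
  rw [Algebra.smul_def]
  exact (int_of_mem (Subalgebra.algebraMap_mem _ c)).mul ha

theorem int_of_algebraic {v a : K} (ha : IsAlgebraic k a) : Int (k := k) v a :=
  (ha.isIntegral).tower_top

theorem inj_aeval {v : K} (hv : Transcendental k v) : Function.Injective (aeval v : k[X] →ₐ[k] K) :=
  transcendental_iff_injective.mp hv

/-- `k[v]` is integrally closed -/
theorem Av_closed {v : K} (hv : Transcendental k v) : IsIntegrallyClosed (Av k v) := by
  have e : k[X] ≃ₐ[k] Av k v :=
    (AlgEquiv.ofInjective (aeval v) (inj_aeval hv)).trans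
      (Subalgebra.equivOfEq _ _ (Algebra.adjoin_singleton_eq_range_aeval k v).symm)
  exact IsIntegrallyClosed.of_equiv e.toRingEquiv

open scoped IntermediateField.algebraAdjoinAdjoin in
theorem norm_mem (L : IntermediateField k K) {v : K} (hv : Transcendental k v)
    (hL : L = k⟮v⟯) (z : K) (hz : Int (k := k) v z) :
    ((Algebra.norm L z : L) : K) ∈ Av k v := by
  subst hL
  have hc := Av_closed hv
  have h1 : IsIntegral (Av k v) (Algebra.norm k⟮v⟯ z) := Algebra.isIntegral_norm k⟮v⟯ hz
  obtain ⟨y, hy⟩ := IsIntegrallyClosed.isIntegral_iff.mp h1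
  rw [← hy]
  exact y.2

theorem transc_inv {u : K} (hu : Transcendental k u) : Transcendental k u⁻¹ := by
  intro h
  exact hu (by simpa using h.inv)

theorem adj_inv (u : K) : k⟮u⟯ = k⟮u⁻¹⟯ := by
  apply le_antisymm
  · rw [adjoin_simple_le_iff]
    have := inv_mem (mem_adjoin_simple_self k u⁻¹)
    rwa [inv_inv] at this
  · rw [adjoin_simple_le_iff]
    exact inv_mem (mem_adjoin_simple_self k u)

/-- `u ^ n * q(u⁻¹)` is a polynomial in `u` -/
theorem reflect_mem (u : K) (hu : u ≠ 0) (q : k[X]) (n : ℕ) (hn : q.natDegree ≤ n) :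
    ∃ p : k[X], p.natDegree ≤ n ∧ aeval u p = u ^ n * aeval u⁻¹ q := by
  refine ⟨q.reflect n, ?_, ?_⟩
  · refine natDegree_le_iff_coeff_eq_zero.mpr fun m hm => ?_
    rw [coeff_reflect, revAt_eq_self_of_lt hm]
    exact coeff_eq_zero_of_natDegree_lt (lt_of_le_of_lt hn hm)
  · rw [aeval_eq_sum_range' (Nat.lt_succ_of_le hn), Finset.mul_sum]
    have h1 : (q.reflect n).natDegree < n + 1 := by
      refine Nat.lt_succ_of_le (natDegree_le_iff_coeff_eq_zero.mpr fun m hm => ?_)
      rw [coeff_reflect, revAt_eq_self_of_lt hm]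
      exact coeff_eq_zero_of_natDegree_lt (lt_of_le_of_lt hn hm)
    rw [aeval_eq_sum_range' h1, ← Finset.sum_range_reflect]
    refine Finset.sum_congr rfl fun i hi => ?_
    have hi' : i ≤ n := Nat.lt_succ_iff.mp (Finset.mem_range.mp hi)
    have h2 : n + 1 - 1 - i = n - i := by omega
    rw [h2, coeff_reflect, revAt_le (by omega), Nat.sub_sub_self hi', inv_pow, mul_smul_comm]
    congr 1
    rw [eq_mul_inv_iff_mul_eq₀ (pow_ne_zero _ hu), ← pow_add]
    congr 1
    omega

/-- functions without finite poles and with a zero at infinity vanish -/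
theorem base_zero {u : K} (hu : Transcendental k u) (hfin : FiniteDimensional k⟮u⟯ K) (θ : K)
    (h1 : Int (k := k) u θ) (h2 : Int (k := k) u⁻¹ (u * θ)) : θ = 0 := by
  have hu0 : u ≠ 0 := by
    rintro rfl
    exact hu isAlgebraic_zero
  set L := k⟮u⟯ with hL
  have m1 := norm_mem L hu rfl θ h1
  have m2 := norm_mem L (transc_inv hu) (adj_inv u) (u * θ) h2
  let uL : L := ⟨u, mem_adjoin_simple_self k u⟩
  have h3 : Algebra.norm L (u * θ) = uL ^ Module.finrank L K * Algebra.norm L θ := by
    rw [map_mul]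
    congr 1
    exact Algebra.norm_algebraMap (S := K) uL
  rw [h3] at m2
  obtain ⟨p, hp⟩ := mem_Av.mp m1
  obtain ⟨q, hq⟩ := mem_Av.mp m2
  have hr : 0 < Module.finrank L K := Module.finrank_pos
  have hp0 : p = 0 := by
    by_contra hne
    obtain ⟨p', hp'd, hp'⟩ := reflect_mem u hu0 q q.natDegree le_rfl
    rw [hq] at hp'
    have h4 : aeval u p' = aeval u (X ^ (q.natDegree + Module.finrank L K) * p) := by
      rw [hp', map_mul, map_pow, aeval_X, hp, pow_add]
      push_cast
      ring
    have h5 := inj_aeval hu h4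
    have h6 : p'.natDegree = q.natDegree + Module.finrank L K + p.natDegree := by
      rw [h5, natDegree_mul (pow_ne_zero _ X_ne_zero) hne, natDegree_X_pow]
    omega
  rw [hp0, map_zero] at hp
  have h7 : Algebra.norm L θ = 0 := by
    apply Subtype.ext
    exact hp.symm
  exact (Algebra.norm_eq_zero_iff (R := L)).mp h7

variable (k) in
/-- the Riemann-Roch type spaces -/
def LL (u : K) (β : ℕ) : Submodule k K where
  carrier := {θ | Int (k := k) u θ ∧ Int (k := k) u⁻¹ (u * ((u⁻¹) ^ β * θ))}
  add_mem' := by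
    rintro a b ⟨h1, h2⟩ ⟨h3, h4⟩
    refine ⟨h1.add h3, ?_⟩
    rw [mul_add, mul_add]
    exact h2.add h4
  zero_mem' := ⟨int_zero _, by simpa using int_zero _⟩
  smul_mem' := by
    rintro c a ⟨h1, h2⟩
    refine ⟨int_smul c h1, ?_⟩
    rw [mul_smul_comm, mul_smul_comm]
    exact int_smul c h2

theorem LL_zero {u : K} (hu : Transcendental k u) (hfin : FiniteDimensional k⟮u⟯ K) :
    LL k u 0 = ⊥ := by
  rw [eq_bot_iff]
  rintro θ ⟨h1, h2⟩
  rw [Submodule.mem_bot]
  exact base_zero hu hfin θ h1 (by simpa using h2)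

theorem LL_mono (u : K) (β : ℕ) : LL k u β ≤ LL k u (β + 1) := by
  rintro θ ⟨h1, h2⟩
  refine ⟨h1, ?_⟩
  have h3 : u * ((u⁻¹) ^ (β + 1) * θ) = u⁻¹ * (u * ((u⁻¹) ^ β * θ)) := by
    rw [pow_succ]; ring
  rw [h3]
  exact (int_of_mem (Algebra.self_mem_adjoin_singleton k u⁻¹)).mul h2

open scoped IntermediateField.algebraAdjoinAdjoin in
/-- dependence over `k(u)` gives a primitive relation with coefficients in `k[u⁻¹]` -/
theorem prim_rel {u : K} (hu : Transcendental k u) (hfin : FiniteDimensional k⟮u⟯ K)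
    {n : ℕ} (hn : Module.finrank k⟮u⟯ K < n) (η : Fin n → K) :
    ∃ A : Fin n → k[X], (∃ j, (A j).coeff 0 ≠ 0) ∧ ∑ j, aeval u⁻¹ (A j) * η j = 0 := by
  have hui := transc_inv hu
  have hdep : ¬ LinearIndependent k⟮u⁻¹⟯ η := by
    intro h
    have hfin' : FiniteDimensional k⟮u⁻¹⟯ K := by rw [← adj_inv u]; exact hfin
    have h1 := h.fintype_card_le_finrank
    rw [Fintype.card_fin] at h1
    have h2 : Module.finrank k⟮u⁻¹⟯ K = Module.finrank k⟮u⟯ K := by rw [← adj_inv u]
    omega
  rw [Fintype.not_linearIndependent_iff] at hdep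
  obtain ⟨g, hg, j0, hj0⟩ := hdep
  -- clear denominators
  obtain ⟨b, hb⟩ := IsLocalization.exist_integer_multiples_of_finite
    (nonZeroDivisors (Av k u⁻¹)) g
  have hbne : ((b : Av k u⁻¹) : K) ≠ 0 := by
    intro h
    have h1 : (b : Av k u⁻¹) = 0 := Subtype.ext h
    exact nonZeroDivisors.ne_zero b.2 h1
  choose c hc using hb
  have hc' : ∀ j, (c j : K) = (b : Av k u⁻¹) * (g j : K) := by
    intro j
    have := congrArg (fun x : k⟮u⁻¹⟯ => (x : K)) (hc j)
    exact this
  have hpoly : ∀ j, ∃ p : k[X], aeval u⁻¹ p = (c j : K) := fun j => mem_Av.mp (c j).2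
  choose B hB using hpoly
  have hsum : ∑ j, aeval u⁻¹ (B j) * η j = 0 := by
    have h1 : ∑ j, aeval u⁻¹ (B j) * η j = ((b : Av k u⁻¹) : K) * ∑ j, (g j : K) * η j := by
      rw [Finset.mul_sum]
      refine Finset.sum_congr rfl fun j _ => ?_
      rw [hB, hc', mul_assoc]
    have h2 : ∑ j, (g j : K) * η j = 0 := hg
    rw [h1, h2, mul_zero]
  have hBne : B j0 ≠ 0 := by
    intro h
    have h1 := hB j0
    rw [h, map_zero, hc' j0] at h1
    exact mul_ne_zero hbne (fun h => hj0 (Subtype.ext h)) h1.symm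
  -- divide by the common power of `X`
  have key : ∀ N : ℕ, ∀ B : Fin n → k[X], (∑ j, (B j).natDegree ≤ N) → (∃ j, B j ≠ 0) →
      ∑ j, aeval u⁻¹ (B j) * η j = 0 →
      ∃ A : Fin n → k[X], (∃ j, (A j).coeff 0 ≠ 0) ∧ ∑ j, aeval u⁻¹ (A j) * η j = 0 := by
    intro N
    induction N with
    | zero =>
      rintro B hN ⟨j, hj⟩ hs
      refine ⟨B, ⟨j, ?_⟩, hs⟩
      have h0 : (B j).natDegree = 0 := by
        have := Finset.single_le_sum (f := fun j => (B j).natDegree) (fun _ _ => Nat.zero_le _)
          (Finset.mem_univ j)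
        omega
      intro h
      apply hj
      rw [eq_C_of_natDegree_eq_zero h0, h, C_0]
    | succ N ih =>
      rintro B hN ⟨j, hj⟩ hs
      by_cases hc : ∃ j, (B j).coeff 0 ≠ 0
      · exact ⟨B, hc, hs⟩
      · push Not at hc
        have hX : ∀ j, ∃ q, B j = X * q := fun j => (X_dvd_iff.mpr (hc j))
        choose q hq using hX
        have hui0 : u⁻¹ ≠ 0 := by
          intro h
          exact hui (by rw [h]; exact isAlgebraic_zero)
        refine ih q ?_ ⟨j, fun h => hj (by rw [hq j, h, mul_zero])⟩ ?_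
        · have hle : ∀ i, (q i).natDegree ≤ (B i).natDegree := by
            intro i
            by_cases h0 : q i = 0
            · rw [h0]; simp
            · rw [hq i, natDegree_mul X_ne_zero h0, natDegree_X]; omega
          have hlt : ∑ i, (q i).natDegree < ∑ i, (B i).natDegree := by
            apply Finset.sum_lt_sum (fun i _ => hle i)
            refine ⟨j, Finset.mem_univ _, ?_⟩
            have h0 : q j ≠ 0 := fun h => hj (by rw [hq j, h, mul_zero])
            rw [hq j, natDegree_mul X_ne_zero h0, natDegree_X]; omega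
          omega
        · have h1 : ∑ j, aeval u⁻¹ (B j) * η j = u⁻¹ * ∑ j, aeval u⁻¹ (q j) * η j := by
            rw [Finset.mul_sum]
            refine Finset.sum_congr rfl fun j _ => ?_
            rw [hq j, map_mul, aeval_X, mul_assoc]
          rw [h1] at hs
          exact (mul_eq_zero.mp hs).resolve_left hui0
  exact key _ B le_rfl ⟨j0, hBne⟩ hsum

theorem step_rel {u : K} (hu : Transcendental k u) (hfin : FiniteDimensional k⟮u⟯ K) (β : ℕ)
    {n : ℕ} (hn : Module.finrank k⟮u⟯ K < n) (θ : Fin n → K) (hθ : ∀ j, θ j ∈ LL k u (β + 1)) :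
    ∃ c : Fin n → k, (∃ j, c j ≠ 0) ∧ ∑ j, c j • θ j ∈ LL k u β := by
  have hu0 : u ≠ 0 := by
    rintro rfl
    exact hu isAlgebraic_zero
  obtain ⟨A, ⟨j0, hj0⟩, hA⟩ := prim_rel hu hfin hn fun j => u * ((u⁻¹) ^ (β + 1) * θ j)
  refine ⟨fun j => (A j).coeff 0, ⟨j0, hj0⟩, ?_, ?_⟩
  · have : ∀ s : Finset (Fin n), Int (k := k) u (∑ j ∈ s, (A j).coeff 0 • θ j) := by
      classical
      intro s
      induction s using Finset.induction_on with
      | empty => simpa using int_zero u
      | insert a s ha ih =>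
        rw [Finset.sum_insert ha]
        exact (int_smul _ (hθ a).1).add ih
    exact this _
  · -- `∑ A_j(0) η_j = - u⁻¹ ∑ A'_j(u⁻¹) η_j`
    have hd : ∀ j, aeval u⁻¹ (A j) = u⁻¹ * aeval u⁻¹ (A j).divX + algebraMap k K ((A j).coeff 0) := by
      intro j
      conv_lhs => rw [← X_mul_divX_add (A j)]
      rw [map_add, map_mul, aeval_X, aeval_C]
    have h1 : u * ((u⁻¹) ^ β * ∑ j, (A j).coeff 0 • θ j) =
        - ∑ j, aeval u⁻¹ (A j).divX * (u * ((u⁻¹) ^ (β + 1) * θ j)) := by
      have h2 : ∑ j, algebraMap k K ((A j).coeff 0) * (u * ((u⁻¹) ^ (β + 1) * θ j)) =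
          - (u⁻¹ * ∑ j, aeval u⁻¹ (A j).divX * (u * ((u⁻¹) ^ (β + 1) * θ j))) := by
        rw [eq_neg_iff_add_eq_zero, ← hA, Finset.mul_sum, ← Finset.sum_add_distrib]
        refine Finset.sum_congr rfl fun j _ => ?_
        rw [hd j]; ring
      have h3 : u * ((u⁻¹) ^ β * ∑ j, (A j).coeff 0 • θ j) =
          u * ∑ j, algebraMap k K ((A j).coeff 0) * (u * ((u⁻¹) ^ (β + 1) * θ j)) := by
        rw [Finset.mul_sum, Finset.mul_sum, Finset.mul_sum]
        refine Finset.sum_congr rfl fun j _ => ?_
        rw [Algebra.smul_def, pow_succ]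
        field_simp
      rw [h3, h2, mul_neg, ← mul_assoc, mul_inv_cancel₀ hu0, one_mul]
    rw [h1]
    have h4 : ∀ s : Finset (Fin n), Int (k := k) u⁻¹
        (∑ j ∈ s, aeval u⁻¹ (A j).divX * (u * ((u⁻¹) ^ (β + 1) * θ j))) := by
      classical
      intro s
      induction s using Finset.induction_on with
      | empty => simpa using int_zero _
      | insert a s ha ih =>
        rw [Finset.sum_insert ha]
        exact ((int_of_mem (aeval_mem _ _)).mul (hθ a).2).add ih
    exact IsIntegral.neg (h4 _)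

/-- the dimension bound -/
theorem LL_dim {u : K} (hu : Transcendental k u) (hfin : FiniteDimensional k⟮u⟯ K) (β : ℕ) :
    Module.Finite k (LL k u β) ∧
      Module.finrank k (LL k u β) ≤ Module.finrank k⟮u⟯ K * β := by
  induction β with
  | zero =>
    rw [LL_zero hu hfin]
    exact ⟨inferInstance, by simp⟩
  | succ β ih =>
    obtain ⟨ih1, ih2⟩ := ih
    let W : Submodule k (LL k u (β + 1)) := (LL k u β).comap (LL k u (β + 1)).subtype
    have hrank : Module.rank k (LL k u (β + 1) ⧸ W) ≤ (Module.finrank k⟮u⟯ K : ℕ) := by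
      apply rank_le
      intro s hs
      by_contra hcard
      push Not at hcard
      -- lift the elements
      let e := s.equivFin
      let v : Fin s.card → LL k u (β + 1) := fun j => Quotient.out (e.symm j : LL k u (β + 1) ⧸ W)
      have hv : ∀ j, Submodule.Quotient.mk (v j) = (e.symm j : LL k u (β + 1) ⧸ W) :=
        fun j => Quotient.out_eq _
      obtain ⟨c, ⟨j0, hj0⟩, hc⟩ := step_rel hu hfin β hcard (fun j => (v j : K)) (fun j => (v j).2)
      have h1 : ∑ j, c j • v j ∈ W := by
        show ((∑ j, c j • v j : LL k u (β + 1)) : K) ∈ LL k u β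
        push_cast
        exact hc
      have h2 : ∑ j, c j • (e.symm j : LL k u (β + 1) ⧸ W) = 0 := by
        rw [← (Submodule.Quotient.mk_eq_zero W).mpr h1]
        have : (Submodule.Quotient.mk (∑ j, c j • v j) : LL k u (β + 1) ⧸ W) =
            W.mkQ (∑ j, c j • v j) := rfl
        rw [this, map_sum]
        refine Finset.sum_congr rfl fun j _ => ?_
        rw [map_smul]
        congr 1
        exact (hv j).symm
      have h3 : LinearIndependent k (fun j : Fin s.card => ((e.symm j : s) : LL k u (β + 1) ⧸ W)) :=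
        hs.comp e.symm e.symm.injective
      exact hj0 (Fintype.linearIndependent_iff.mp h3 c h2 j0)
    have hWeq : W ≃ₗ[k] LL k u β :=
      Submodule.comapSubtypeEquivOfLe (LL_mono u β)
    have hWfin : Module.Finite k W := Module.Finite.equiv hWeq.symm
    have hQfin : Module.Finite k (LL k u (β + 1) ⧸ W) := by
      rw [← Module.rank_lt_aleph0_iff]
      exact lt_of_le_of_lt hrank (Cardinal.natCast_lt_aleph0)
    have hfin2 : Module.Finite k (LL k u (β + 1)) := Module.Finite.of_submodule_quotient W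
    refine ⟨hfin2, ?_⟩
    have h4 := Submodule.finrank_quotient_add_finrank W
    have h5 : Module.finrank k (LL k u (β + 1) ⧸ W) ≤ Module.finrank k⟮u⟯ K :=
      Module.finrank_le_of_rank_le hrank
    have h6 : Module.finrank k W = Module.finrank k (LL k u β) := hWeq.finrank_eq
    rw [mul_add, mul_one]
    omega

end SDR
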