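import Pool.Agent.Helper9_SDR.Sig

/-! # Denominators in sub-division rings of `K(y; σ)` (MP_87570e_al) -/

open Polynomial

namespace SDR

variable {k : Type} [Field k] {D : Type} [DivisionRing D] {K : Type} [Field K] [Algebra k K]
variable {ι : K →+* D} {y : D} {σ : K ≃ₐ[k] K}

section

variable (hy0 : y ≠ 0) (hy : ∀ a, y * ι a = ι (σ a) * y)

include hy0 hy in
theorem rel_sig {s0 : K} (hs0 : ∀ n : ℤ, n ≠ 0 → (σ ^ n) s0 ≠ s0)
    (hgen : Subfield.closure (Set.range ι ∪ {y}) = ⊤) {D' : Subfield D} (hs : ι s0 ∈ D')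
    (b : ℤ →₀ D) (hb : ∀ n, b n ∈ B0 ι D') (hE : E (fun n : ℤ => y ^ n) b = 0) (hb0 : b ≠ 0) :
    ∃ a ∈ b.support, ∃ n ∈ b.support, n ≠ a ∧ y ^ (a - n) ∈ B0 ι D' := by
  classical
  have hcent := cent_sig hy0 hy hs0 hgen
  let M : Set (ℤ →₀ D) := {b | (∀ n, b n ∈ B0 ι D') ∧ E (fun n : ℤ => y ^ n) b = 0}
  obtain ⟨w, ⟨hwB, hwE⟩, a, hsupp, hwa, hws⟩ := minsup M (ι s0) (tw ι σ s0)
    (by
      rintro v ⟨hv1, hv2⟩ a ha
      let N : AddSubgroup D :=
        { carrier := {z | ∃ w ∈ M, w.support ⊆ v.support ∧ w a = z}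
          add_mem' := by
            rintro _ _ ⟨w, ⟨hw1, hw2⟩, hws, rfl⟩ ⟨w', ⟨hw1', hw2'⟩, hws', rfl⟩
            refine ⟨w + w', ⟨fun n => add_mem (hw1 n) (hw1' n), ?_⟩, ?_, rfl⟩
            · rw [map_add, hw2, hw2', add_zero]
            · exact Finsupp.support_add.trans (Finset.union_subset hws hws')
          zero_mem' := ⟨0, ⟨fun n => zero_mem _, map_zero _⟩, by simp, rfl⟩
          neg_mem' := by
            rintro _ ⟨w, ⟨hw1, hw2⟩, hws, rfl⟩
            refine ⟨-w, ⟨fun n => neg_mem (hw1 n), ?_⟩, ?_, rfl⟩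
            · rw [map_neg, hw2, neg_zero]
            · rwa [Finsupp.support_neg] }
      have h1 : (1 : D) ∈ N := by
        refine simp_B0 (D' := D') hs hcent N ?_ ?_ ?_ (v a) ⟨v, ⟨hv1, hv2⟩, subset_rfl, rfl⟩ ha
        · rintro _ ⟨w, ⟨hw1, _⟩, _, rfl⟩
          exact hw1 a
        · rintro d hd _ ⟨w, ⟨hw1, hw2⟩, hws, rfl⟩
          refine ⟨d • w, ⟨fun n => B0_left hd (hw1 n), ?_⟩, Finsupp.support_smul.trans hws, rfl⟩
          rw [map_smul, hw2, smul_zero]
        · rintro _ ⟨w, ⟨hw1, hw2⟩, hws, rfl⟩ x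
          refine ⟨rtw (tw ι σ x a) w, ⟨fun n => B0_right _ (hw1 n), ?_⟩,
            (rtw_support _ _).trans hws, ?_⟩
          · rw [E_rtw _ _ _ (tw_comm hy0 hy x a), hw2, zero_mul]
          · rw [rtw_apply, tw_self]
      obtain ⟨w, hw, hws, hwa⟩ := h1
      exact ⟨w, hw, hws, hwa⟩)
    (tw_self s0)
    (by
      rintro v ⟨hv1, hv2⟩ a ha
      refine ⟨fun n => ?_, ?_⟩
      · rw [Finsupp.sub_apply, Finsupp.smul_apply, rtw_apply, smul_eq_mul]
        exact sub_mem (B0_left hs (hv1 n)) (B0_right _ (hv1 n))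
      · rw [map_sub, map_smul, hv2, smul_zero, E_rtw _ _ _ (tw_comm hy0 hy s0 a), hv2, zero_mul,
          sub_zero])
    b ⟨hb, hE⟩ hb0
  -- there is a second element of the support
  have hex : ∃ n, n ≠ a ∧ w n ≠ 0 := by
    by_contra hno
    push Not at hno
    have h1 : w = Finsupp.single a 1 := by
      ext n
      rw [Finsupp.single_apply]
      split_ifs with h
      · rw [← h, hwa]
      · exact hno n (Ne.symm h)
    rw [h1, Finsupp.linearCombination_single, one_smul] at hwE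
    exact zpow_ne_zero a hy0 hwE
  obtain ⟨n, hna, hwn⟩ := hex
  refine ⟨a, hsupp (Finsupp.mem_support_iff.mpr (by rw [hwa]; exact one_ne_zero)), n,
    hsupp (Finsupp.mem_support_iff.mpr hwn), hna, ?_⟩
  have h1 : ι s0 * (w n * y ^ (n - a)) = (w n * y ^ (n - a)) * ι s0 := by
    rw [mul_assoc, zc hy0 hy, ← mul_assoc, ← mul_assoc, hws n, tw]
  obtain ⟨x, hx⟩ := hcent _ h1
  have hx0 : x ≠ 0 := by
    rintro rfl
    rw [map_zero] at hx
    exact mul_ne_zero hwn (zpow_ne_zero _ hy0) hx.symm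
  have h2 : w n = ι x * y ^ (a - n) := by
    rw [hx, mul_assoc, ← zpow_add₀ hy0]
    have : n - a + (a - n) = 0 := by ring
    rw [this, zpow_zero, mul_one]
  have h3 : w n = y ^ (a - n) * ι ((σ ^ (-(a - n))) x) := by
    rw [zc hy0 hy, ← AlgEquiv.mul_apply, ← zpow_add, h2]
    have : a - n + -(a - n) = 0 := by ring
    rw [this, zpow_zero]
    rfl
  have h4 := B0_right (ι := ι) (D' := D') ((σ ^ (-(a - n))) x)⁻¹ (hwB n)
  have h5 : (σ ^ (-(a - n))) x ≠ 0 := by
    intro h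
    exact hx0 ((map_eq_zero (σ ^ (-(a - n)))).mp h)
  rwa [h3, mul_assoc, ← map_mul, mul_inv_cancel₀ h5, map_one, mul_one] at h4

include hy0 hy in
theorem B0_zpow {D' : Subfield D} {e : ℤ} (he : y ^ e ∈ B0 ι D') {z : D} (hz : z ∈ B0 ι D') :
    z * y ^ e ∈ B0 ι D' := by
  induction hz using AddSubgroup.closure_induction with
  | mem z hz =>
    obtain ⟨d, hd, a, rfl⟩ := hz
    have h1 : ι a * y ^ e = y ^ e * ι ((σ ^ (-e)) a) := by
      rw [zc hy0 hy, ← AlgEquiv.mul_apply, ← zpow_add, add_neg_cancel, zpow_zero]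
      rfl
    rw [mul_assoc, h1]
    exact B0_left hd (B0_right _ he)
  | zero => rw [zero_mul]; exact zero_mem _
  | add x z _ _ hx hz => rw [add_mul]; exact add_mem hx hz
  | neg x _ hx => rw [neg_mul]; exact neg_mem hx

include hy0 hy in
theorem B0_zneg {s0 : K} (hs0 : ∀ n : ℤ, n ≠ 0 → (σ ^ n) s0 ≠ s0)
    (hgen : Subfield.closure (Set.range ι ∪ {y}) = ⊤) {D' : Subfield D} (hs : ι s0 ∈ D')
    {e : ℤ} (he : y ^ e ∈ B0 ι D') : y ^ (-e) ∈ B0 ι D' := by
  have hcent := cent_sig hy0 hy hs0 hgen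
  let N : AddSubgroup D := (B0 ι D').map (AddMonoidHom.mulRight (y ^ e))
  have h1 : (1 : D) ∈ N := by
    refine simp_B0 (D' := D') hs hcent N ?_ ?_ ?_ (y ^ e) ⟨1, B0_D (one_mem _), ?_⟩
      (zpow_ne_zero _ hy0)
    · rintro _ ⟨z, hz, rfl⟩
      exact B0_zpow hy0 hy he hz
    · rintro d hd _ ⟨z, hz, rfl⟩
      refine ⟨d * z, B0_left hd hz, ?_⟩
      show d * z * y ^ e = d * (z * y ^ e)
      rw [mul_assoc]
    · rintro _ ⟨z, hz, rfl⟩ x
      refine ⟨z * ι ((σ ^ e) x), B0_right _ hz, ?_⟩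
      show z * ι ((σ ^ e) x) * y ^ e = z * y ^ e * ι x
      rw [mul_assoc, mul_assoc, zc hy0 hy]
    · show 1 * y ^ e = y ^ e
      rw [one_mul]
  obtain ⟨z, hz, hz1⟩ := h1
  have h2 : z * y ^ e = 1 := hz1
  have h3 : z = y ^ (-e) := by
    rw [zpow_neg]
    exact eq_inv_of_mul_eq_one_left h2
  rw [← h3]
  exact hz

/-- the main statement: right denominators inside `D' ∩ LR` -/
theorem main_sig {s0 : K} (hs0 : ∀ n : ℤ, n ≠ 0 → (σ ^ n) s0 ≠ s0)
    (hgen : Subfield.closure (Set.range ι ∪ {y}) = ⊤) {D' : Subfield D} (hs : ι s0 ∈ D')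
    (halg : Algebra.IsAlgebraic (Kp ι D') K) {x : D} (hx : x ∈ D') :
    ∃ c ∈ D', c ∈ LR hy0 hy ∧ c ≠ 0 ∧ x * c ∈ LR hy0 hy := by
  classical
  have hcent := cent_sig hy0 hy hs0 hgen
  by_cases hxK : x ∈ Set.range ι
  · obtain ⟨a, rfl⟩ := hxK
    exact ⟨1, one_mem _, one_mem _, one_ne_zero, by rw [mul_one]; exact LR_K hy0 hy a⟩
  have hyδ : ∀ a, y * ι a = ι ((σ : K ≃+* K) a) * y + ι ((fun _ => 0 : K → K) a) := by
    intro a
    rw [map_zero, add_zero]
    exact hy a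
  obtain ⟨P, ⟨b, hb, hbP⟩, hP0, hP⟩ := denoms hyδ (hind_sig hy0 hy hs0) hgen (LR hy0 hy)
    (LR_K hy0 hy) (LR_y hy0 hy) 1 (fun _ => x)
  obtain ⟨q, hq, hqP⟩ := hP 0 Nat.one_pos
  -- a nontrivial relation over `B0`
  have hrel : ∃ e : ℤ, e ≠ 0 ∧ y ^ e ∈ B0 ι D' := by
    have h1 : E (fun n : ℤ => y ^ n) (x • b - q) = 0 := by
      rw [map_sub, map_smul, smul_eq_mul, ← hbP, hqP, sub_self]
    have h2 : ∀ n, (x • b - q) n ∈ B0 ι D' := by
      intro n
      obtain ⟨u, hu⟩ := hb n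
      obtain ⟨v, hv⟩ := hq n
      rw [Finsupp.sub_apply, Finsupp.smul_apply, smul_eq_mul, ← hu, ← hv]
      exact sub_mem (B0_gen hx u) (B0_K v)
    have h3 : x • b - q ≠ 0 := by
      intro h0
      have hb0 : b ≠ 0 := by
        rintro rfl
        rw [map_zero] at hbP
        exact hP0 hbP
      obtain ⟨n, hn⟩ := Finsupp.ne_iff.mp hb0
      rw [Finsupp.zero_apply] at hn
      have h4 := DFunLike.congr_fun h0 n
      obtain ⟨u, hu⟩ := hb n
      obtain ⟨v, hv⟩ := hq n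
      rw [Finsupp.sub_apply, Finsupp.smul_apply, smul_eq_mul, Finsupp.zero_apply,
        sub_eq_zero] at h4
      apply hxK
      refine ⟨v * u⁻¹, ?_⟩
      rw [map_mul, hv, ← h4, map_inv₀, hu, mul_assoc, mul_inv_cancel₀ hn, mul_one]
    obtain ⟨a, -, n, -, hna, h5⟩ := rel_sig hy0 hy hs0 hgen hs _ h2 h1 h3
    exact ⟨a - n, by omega, h5⟩
  have hposrel : ∃ e : ℕ, 0 < e ∧ y ^ (e : ℤ) ∈ B0 ι D' := by
    obtain ⟨e, he0, he⟩ := hrel
    rcases lt_or_gt_of_ne he0 with h | h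
    · refine ⟨(-e).toNat, by omega, ?_⟩
      have h1 : (((-e).toNat : ℕ) : ℤ) = -e := Int.toNat_of_nonneg (by omega)
      rw [h1]
      exact B0_zneg hy0 hy hs0 hgen hs he
    · refine ⟨e.toNat, by omega, ?_⟩
      have h1 : ((e.toNat : ℕ) : ℤ) = e := Int.toNat_of_nonneg (by omega)
      rw [h1]
      exact he
  -- minimal `e`
  let e := Nat.find hposrel
  obtain ⟨he0, he⟩ := Nat.find_spec hposrel
  have hemin : ∀ m : ℤ, m ≠ 0 → y ^ m ∈ B0 ι D' → (e : ℤ) ≤ |m| := by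
    intro m hm hmB
    have h1 : y ^ |m| ∈ B0 ι D' := by
      rcases abs_choice m with h | h
      · rw [h]; exact hmB
      · rw [h]; exact B0_zneg hy0 hy hs0 hgen hs hmB
    have h2 : (0 : ℤ) < |m| := abs_pos.mpr hm
    have h3 : ((|m|.toNat : ℕ) : ℤ) = |m| := Int.toNat_of_nonneg (by omega)
    have h4 : e ≤ |m|.toNat := Nat.find_min' hposrel ⟨by omega, by rw [h3]; exact h1⟩
    omega
  have hemul : ∀ j : ℤ, y ^ ((e : ℤ) * j) ∈ B0 ι D' := by
    intro j
    induction j with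
    | zero => rw [mul_zero, zpow_zero]; exact B0_D (one_mem _)
    | succ j ih =>
      rw [mul_add, mul_one, zpow_add₀ hy0]
      exact B0_zpow hy0 hy he ih
    | pred j ih =>
      rw [mul_sub, mul_one, sub_eq_add_neg, zpow_add₀ hy0]
      exact B0_zpow hy0 hy (B0_zneg hy0 hy hs0 hgen hs he) ih
  have hepos : (0 : ℤ) < e := by
    have h1 : 0 < e := he0
    omega
  -- pieces of the elements of `LR`
  let pc : (ℤ →₀ D) → ℤ → D := fun b i =>
    ∑ n ∈ b.support with n % (e : ℤ) = i, b n * y ^ (n - i)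
  have hpc_sum : ∀ b : ℤ →₀ D, ∑ i ∈ Finset.Ico (0 : ℤ) e, pc b i * y ^ i =
      E (fun n : ℤ => y ^ n) b := by
    intro b
    rw [E_eq _ b b.support subset_rfl,
      ← Finset.sum_fiberwise_of_maps_to (s := b.support) (t := Finset.Ico (0 : ℤ) e)
        (g := fun n => n % (e : ℤ))
        (fun n _ => Finset.mem_Ico.mpr ⟨Int.emod_nonneg _ (by omega), Int.emod_lt_of_pos _ hepos⟩)]
    refine Finset.sum_congr rfl fun i _ => ?_
    show (∑ n ∈ b.support with n % (e : ℤ) = i, b n * y ^ (n - i)) * y ^ i = _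
    rw [Finset.sum_mul]
    refine Finset.sum_congr rfl fun n _ => ?_
    rw [mul_assoc, ← zpow_add₀ hy0, sub_add_cancel]
  have hpc_mem : ∀ b : ℤ →₀ D, (∀ n, b n ∈ Set.range ι) → ∀ i,
      pc b i ∈ B0 ι D' ∧ pc b i ∈ LR hy0 hy := by
    intro b hb i
    constructor
    · refine sum_mem fun n hn => ?_
      obtain ⟨u, hu⟩ := hb n
      have h1 : n - i = (e : ℤ) * (n / e) := by
        have h2 := (Finset.mem_filter.mp hn).2
        have h3 := Int.emod_add_mul_ediv n e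
        omega
      rw [← hu]
      exact B0_zpow hy0 hy (by rw [h1]; exact hemul _) (B0_K u)
    · refine sum_mem fun n _ => ?_
      obtain ⟨u, hu⟩ := hb n
      rw [← hu]
      exact LR_mono hy0 hy u _
  -- the pieces of `P` and `x P`
  have hpieces : ∀ i ∈ Finset.Ico (0 : ℤ) e, x * pc b i = pc q i := by
    let r : ℤ →₀ D := Finsupp.onFinset (Finset.Ico (0 : ℤ) e)
      (fun i => if i ∈ Finset.Ico (0 : ℤ) e then x * pc b i - pc q i else 0) (by
        intro i hi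
        by_contra h
        exact hi (if_neg h))
    have hrE : E (fun n : ℤ => y ^ n) r = 0 := by
      rw [E_eq _ r (Finset.Ico (0 : ℤ) e) Finsupp.support_onFinset_subset]
      have h1 : ∀ i ∈ Finset.Ico (0 : ℤ) e, r i * y ^ i =
          x * (pc b i * y ^ i) - pc q i * y ^ i := by
        intro i hi
        show (if i ∈ Finset.Ico (0 : ℤ) e then x * pc b i - pc q i else 0) * y ^ i = _
        rw [if_pos hi, sub_mul, mul_assoc]
      rw [Finset.sum_congr rfl h1, Finset.sum_sub_distrib, ← Finset.mul_sum, hpc_sum, hpc_sum,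
        ← hbP, hqP, sub_self]
    have hrB : ∀ n, r n ∈ B0 ι D' := by
      intro n
      show (if n ∈ Finset.Ico (0 : ℤ) e then x * pc b n - pc q n else 0) ∈ B0 ι D'
      split_ifs
      · exact sub_mem (B0_left hx (hpc_mem b hb n).1) (hpc_mem q hq n).1
      · exact zero_mem _
    have hr0 : r = 0 := by
      by_contra h0
      obtain ⟨a, ha, n, hn, hna, hB⟩ := rel_sig hy0 hy hs0 hgen hs r hrB hrE h0
      have ha' := Finset.mem_Ico.mp (Finsupp.support_onFinset_subset ha)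
      have hn' := Finset.mem_Ico.mp (Finsupp.support_onFinset_subset hn)
      have h1 := hemin (a - n) (by omega) hB
      have h2 : |a - n| < e := by
        rw [abs_lt]
        omega
      omega
    intro i hi
    have h1 := DFunLike.congr_fun hr0 i
    have h2 : r i = x * pc b i - pc q i := if_pos hi
    rw [h2, Finsupp.zero_apply, sub_eq_zero] at h1
    exact h1
  -- a nonzero piece
  have hnz : ∃ i ∈ Finset.Ico (0 : ℤ) e, pc b i ≠ 0 := by
    by_contra hno
    push Not at hno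
    apply hP0
    rw [hbP, ← hpc_sum]
    exact Finset.sum_eq_zero fun i hi => by rw [hno i hi, zero_mul]
  obtain ⟨i, hi, hpi⟩ := hnz
  exact fin_abs (fun z hz => LR_tors hy0 hy s0 hz) (fun z hz => tors_LR hy0 hy hs0 hgen z hz)
    hs hcent halg hx (hpc_mem b hb i).2 hpi (hpc_mem b hb i).1
    (by rw [hpieces i hi]; exact (hpc_mem q hq i).2)

end

end SDR
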