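import Pool.Agent.Helper9_SDR.GKDel
import Pool.Agent.Helper9_SDR.SigFin

/-! # Sub-division rings of Ore extensions (MP_87570e_al) -/

open Polynomial IntermediateField

namespace SDR

variable {k : Type} [Field k] {K : Type} [Field K] [Algebra k K]

theorem fin_of_tr (hfg : (⊤ : IntermediateField k K).FG) (htr : Algebra.trdeg k K = 1) (f : K)
    (hf : Transcendental k f) : FiniteDimensional k⟮f⟯ K := by
  have hx : AlgebraicIndependent k (fun _ : Unit => f) :=
    algebraicIndependent_unique_type_iff.mpr hf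
  have hB : IsTranscendenceBasis k (fun _ : Unit => f) :=
    hx.isTranscendenceBasis_of_trdeg_le_of_finite (by rw [htr]; simp)
  have h1 := hB.isAlgebraic_field
  have h2 : Set.range (fun _ : Unit => f) = {f} := Set.range_const
  rw [h2] at h1
  have h3 : Algebra.EssFiniteType k K := fg_top_iff.mp hfg
  have h4 : Algebra.EssFiniteType k⟮f⟯ K := Algebra.EssFiniteType.of_comp k _ _
  exact Algebra.finite_of_essFiniteType_of_isAlgebraic

/-- automorphisms of infinite order move transcendental elements -/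
theorem move (σ : K ≃ₐ[k] K) (hσ : ∀ n : ℕ, 0 < n → σ ^ n ≠ 1) {u : K}
    (hfin : FiniteDimensional k⟮u⟯ K) (n : ℤ) (hn : n ≠ 0) : (σ ^ n) u ≠ u := by
  intro h
  have hmem : σ ^ n ∈ fixingSubgroup (k⟮u⟯ : IntermediateField k K) := by
    have h1 : k⟮u⟯ ≤ fixedField (Subgroup.zpowers (σ ^ n)) := by
      rw [adjoin_simple_le_iff]
      rintro ⟨τ, m, rfl⟩
      show ((σ ^ n) ^ m) u = u
      have h2 : ∀ j : ℕ, ((σ ^ n) ^ j) u = u := by
        intro j
        induction j with
        | zero => rfl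
        | succ j ih => rw [pow_succ, AlgEquiv.mul_apply, h, ih]
      obtain ⟨j, hj | hj⟩ := m.eq_nat_or_neg
      · rw [hj, zpow_natCast]; exact h2 j
      · rw [hj, zpow_neg, zpow_natCast]
        have h3 := h2 j
        have h4 : (((σ ^ n) ^ j)⁻¹ : K ≃ₐ[k] K) (((σ ^ n) ^ j) u) = u := by
          rw [← AlgEquiv.mul_apply, inv_mul_cancel]; rfl
        rwa [h3] at h4
    intro x
    have h2 := h1 x.2
    exact h2 ⟨σ ^ n, Subgroup.mem_zpowers _⟩
  have hfinG : Finite (fixingSubgroup (k⟮u⟯ : IntermediateField k K)) :=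
    Finite.of_equiv _ (fixingSubgroupEquiv (k⟮u⟯ : IntermediateField k K)).symm.toEquiv
  have hord := isOfFinOrder_of_finite
    (⟨σ ^ n, hmem⟩ : fixingSubgroup (k⟮u⟯ : IntermediateField k K))
  obtain ⟨m, hm, hm'⟩ := isOfFinOrder_iff_pow_eq_one.mp hord
  have h5 : (σ ^ n) ^ m = 1 := congrArg Subtype.val hm'
  have h6 : σ ^ (n * m) = 1 := by rw [zpow_mul, zpow_natCast]; exact h5
  have h7 : σ ^ (n * m).natAbs = 1 := by
    rcases Int.natAbs_eq (n * m) with h8 | h8
    · rw [h8, zpow_natCast] at h6; exact h6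
    · rw [h8, zpow_neg, inv_eq_one, zpow_natCast] at h6; exact h6
  refine hσ _ ?_ h7
  rw [Int.natAbs_pos]
  exact mul_ne_zero hn (by exact_mod_cast hm.ne')

/-- derivations killing a transcendental element vanish -/
theorem der_zero [CharZero k] (δ : Derivation k K K) {u : K} (hfin : FiniteDimensional k⟮u⟯ K)
    (h : δ u = 0) (x : K) : δ x = 0 := by
  have h1 : ∀ c ∈ k⟮u⟯, δ c = 0 := by
    intro c hc
    induction hc using IntermediateField.adjoin_induction with
    | mem x hx => rw [Set.mem_singleton_iff.mp hx, h]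
    | algebraMap x => exact δ.map_algebraMap x
    | add x z _ _ hx hz => rw [map_add, hx, hz, add_zero]
    | inv x _ hx => rw [Derivation.leibniz_inv, hx, smul_zero]
    | mul x z _ _ hx hz => rw [Derivation.leibniz, hx, hz, smul_zero, smul_zero, add_zero]
  let δ' : Derivation k⟮u⟯ K K :=
    { toFun := δ
      map_add' := map_add δ
      map_smul' := by
        intro c x
        show δ ((c : K) * x) = (c : K) * δ x
        rw [Derivation.leibniz, h1 c c.2, smul_zero, add_zero, smul_eq_mul]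
      map_one_eq_zero' := Derivation.map_one_eq_zero δ
      leibniz' := Derivation.leibniz δ }
  have hint : IsIntegral k⟮u⟯ x := IsIntegral.of_finite _ x
  have h2 := δ'.map_aeval (minpoly k⟮u⟯ x) x
  rw [minpoly.aeval, map_zero, smul_eq_mul] at h2
  have : CharZero k⟮u⟯ := charZero_of_injective_algebraMap (algebraMap k k⟮u⟯).injective
  have h3 : aeval x (derivative (minpoly k⟮u⟯ x)) ≠ 0 := by
    intro h0
    have h4 : derivative (minpoly k⟮u⟯ x) ≠ 0 := by
      intro h5
      have h6 := derivative_eq_zero.mp h5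
      exact (minpoly.natDegree_pos hint).ne' h6
    have h5 := natDegree_le_natDegree (minpoly.degree_le_of_ne_zero k⟮u⟯ x h4 h0)
    have h6 := natDegree_derivative_lt (minpoly.natDegree_pos hint).ne'
    omega
  exact (mul_eq_zero.mp h2.symm).resolve_left h3

variable {D : Type} [DivisionRing D] [Algebra k D]

/-- the field `D' ∩ K` is large -/
theorem alg_Kp (ι : K →ₐ[k] D) (D' : Subfield D) (hk : ∀ c : k, algebraMap k D c ∈ D') {u : K}
    (hfin : FiniteDimensional k⟮u⟯ K) (huD : ι u ∈ D') :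
    Algebra.IsAlgebraic (Kp (ι : K →+* D) D') K := by
  have h1 : ∀ c ∈ k⟮u⟯, c ∈ Kp (ι : K →+* D) D' := by
    intro c hc
    induction hc using IntermediateField.adjoin_induction with
    | mem x hx => rw [Set.mem_singleton_iff.mp hx]; exact huD
    | algebraMap x =>
      show ι (algebraMap k K x) ∈ D'
      rw [AlgHom.commutes]
      exact hk x
    | add x z _ _ hx hz => exact add_mem hx hz
    | inv x _ hx => exact inv_mem hx
    | mul x z _ _ hx hz => exact mul_mem hx hz
  let φ : k⟮u⟯ →+* Kp (ι : K →+* D) D' :=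
    { toFun := fun c => ⟨c, h1 c c.2⟩
      map_one' := rfl
      map_mul' := fun _ _ => rfl
      map_zero' := rfl
      map_add' := fun _ _ => rfl }
  constructor
  intro x
  have hint : IsIntegral k⟮u⟯ x := IsIntegral.of_finite _ x
  refine ⟨(minpoly k⟮u⟯ x).map φ, ?_, ?_⟩
  · rw [Ne, Polynomial.map_eq_zero_iff φ.injective]
    exact minpoly.ne_zero hint
  · have h2 : (algebraMap (Kp (ι : K →+* D) D') K).comp φ = algebraMap k⟮u⟯ K := by
      ext c; rfl
    rw [aeval_def, eval₂_map, h2, ← aeval_def, minpoly.aeval]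

/-- the conclusion: `D'` is the quotient division ring of a subalgebra of GK dimension `≤ d` -/
def Concl (D' : Subalgebra k D) (d : ℝ) : Prop :=
  ∃ A' : Subalgebra k D, A' ≤ D' ∧
    (∀ V : Submodule k D, V ≤ Subalgebra.toSubmodule A' → FiniteDimensional k ↥V →
      (1 : Submodule k D) ≤ V → ∀ ε : ℝ, 0 < ε →
        ∀ᶠ n : ℕ in Filter.atTop, (Module.finrank k ↥(V ^ n) : ℝ) ≤ (n : ℝ) ^ (d + ε)) ∧
    ∀ x ∈ D', ∃ a ∈ A', ∃ s ∈ A', s ≠ 0 ∧ x = a * s⁻¹

/-- an inverse closed subalgebra as a sub-division ring -/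
def toSF (D' : Subalgebra k D) (hD' : ∀ x ∈ D', x⁻¹ ∈ D') : Subfield D :=
  { D'.toSubring with inv_mem' := hD' }

theorem concl_of (D' : Subalgebra k D) (S : Subring D)
    (hkS : ∀ c : k, algebraMap k D c ∈ S) (e : ℕ)
    (h1 : ∀ x ∈ D', ∃ c ∈ D', c ∈ S ∧ c ≠ 0 ∧ x * c ∈ S)
    (h2 : ∀ V : Submodule k D, (∀ v ∈ V, v ∈ S) → FiniteDimensional k V →
      ∃ C : ℕ, ∀ n, Module.finrank k ↥(V ^ n) ≤ C * (n + 1) ^ e) : Concl D' (e : ℝ) := by
  let S' : Subalgebra k D := { S with algebraMap_mem' := hkS }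
  refine ⟨D' ⊓ S', inf_le_left, ?_, ?_⟩
  · intro V hV hfin _ ε hε
    obtain ⟨C, hC⟩ := h2 V (fun v hv => (hV hv).2) hfin
    exact ev_bound e C _ hC ε hε
  · intro x hx
    obtain ⟨c, hcD, hcS, hc0, hxc⟩ := h1 x hx
    refine ⟨x * c, ⟨mul_mem hx hcD, hxc⟩, c, ⟨hcD, hcS⟩, hc0, ?_⟩
    rw [mul_assoc, mul_inv_cancel₀ hc0, mul_one]

/-- the case of an automorphism of infinite order -/
theorem final_sig (hfg : (⊤ : IntermediateField k K).FG) (htr : Algebra.trdeg k K = 1)
    (ι : K →ₐ[k] D) (y : D) (hy0 : y ≠ 0) (σ : K ≃ₐ[k] K)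
    (hy : ∀ a, y * ι a = ι (σ a) * y) (hσ : ∀ n : ℕ, 0 < n → σ ^ n ≠ 1)
    (hgen : Subfield.closure (Set.range ι ∪ {y}) = ⊤)
    (D' : Subalgebra k D) (hD' : ∀ x ∈ D', x⁻¹ ∈ D') (u : K) (hu : Transcendental k u)
    (huD : ι u ∈ D') : Concl D' 3 := by
  have hK := fin_of_tr hfg htr
  have hmv := move σ hσ (hK u hu)
  have hgen' : Subfield.closure (Set.range (ι : K →+* D) ∪ {y}) = ⊤ := hgen
  have hy' : ∀ a, y * (ι : K →+* D) a = (ι : K →+* D) (σ a) * y := hy
  have h := concl_of D' (LR hy0 hy') (fun c => by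
      have h1 := LR_K hy0 hy' (algebraMap k K c)
      have h2 : (ι : K →+* D) (algebraMap k K c) = algebraMap k D c := ι.commutes c
      rwa [h2] at h1) 3
    (fun x hx => main_sig hy0 hy' hmv hgen' (D' := toSF D' hD') huD
      (alg_Kp ι (toSF D' hD') (fun c => D'.algebraMap_mem c) (hK u hu) huD) hx)
    (fun V hV hfin => gk_sig hK hu ι hy0 hy' V hV hfin)
  exact_mod_cast h

/-- the case of a derivation -/
theorem final_del [CharZero k] (hfg : (⊤ : IntermediateField k K).FG)
    (htr : Algebra.trdeg k K = 1) (ι : K →ₐ[k] D) (y : D) (δ : Derivation k K K) (hδ0 : δ ≠ 0)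
    (hyδ : ∀ a, y * ι a = ι a * y + ι (δ a))
    (hgen : Subfield.closure (Set.range ι ∪ {y}) = ⊤)
    (D' : Subalgebra k D) (hD' : ∀ x ∈ D', x⁻¹ ∈ D') (u : K) (hu : Transcendental k u)
    (huD : ι u ∈ D') : Concl D' 2 := by
  have hK := fin_of_tr hfg htr
  have : CharZero K := charZero_of_injective_algebraMap (algebraMap k K).injective
  have hu0 : δ u ≠ 0 := by
    intro h
    exact hδ0 (Derivation.ext fun x => der_zero δ (hK u hu) h x)
  let δ' : Derivation k K K := (δ u)⁻¹ • δ
  let y' : D := ι (δ u)⁻¹ * y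
  have hδ'u : δ' u = 1 := by
    show (δ u)⁻¹ * δ u = 1
    exact inv_mul_cancel₀ hu0
  have hy' : ∀ a, y' * (ι : K →+* D) a = (ι : K →+* D) a * y' + (ι : K →+* D) (δ' a) := by
    intro a
    show ι (δ u)⁻¹ * y * ι a = ι a * (ι (δ u)⁻¹ * y) + ι ((δ u)⁻¹ * δ a)
    rw [mul_assoc, hyδ, mul_add, ← mul_assoc, ← mul_assoc, ← map_mul, ← map_mul, ← map_mul,
      mul_comm a]
  have hgen' : Subfield.closure (Set.range (ι : K →+* D) ∪ {y'}) = ⊤ := by
    rw [eq_top_iff, ← hgen, Subfield.closure_le]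
    rintro x (hx | hx)
    · exact Subfield.subset_closure (Or.inl hx)
    · rw [Set.mem_singleton_iff] at hx
      have h1 : y = ι (δ u) * y' := by
        show y = ι (δ u) * (ι (δ u)⁻¹ * y)
        rw [← mul_assoc, ← map_mul, mul_inv_cancel₀ hu0, map_one, one_mul]
      rw [hx, h1]
      exact mul_mem (Subfield.subset_closure (Or.inl ⟨δ u, rfl⟩))
        (Subfield.subset_closure (Or.inr rfl))
  have h := concl_of D' (DR hy') (fun c => by
      have h1 := DR_K hy' (algebraMap k K c)
      have h2 : (ι : K →+* D) (algebraMap k K c) = algebraMap k D c := ι.commutes c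
      rwa [h2] at h1) 2
    (fun x hx => main_del hy' hδ'u hgen' (D' := toSF D' hD') huD
      (alg_Kp ι (toSF D' hD') (fun c => D'.algebraMap_mem c) (hK u hu) huD) hx)
    (fun V hV hfin => gk_del hfg hK hu ι hy' V hV hfin)
  exact_mod_cast h

theorem concl_mono {D' : Subalgebra k D} {d d' : ℝ} (h : d ≤ d') (hC : Concl D' d) :
    Concl D' d' := by
  obtain ⟨A', hA, hgk, hfr⟩ := hC
  refine ⟨A', hA, ?_, hfr⟩
  intro V hV hfin h1 ε hε
  filter_upwards [hgk V hV hfin h1 ε hε, Filter.eventually_ge_atTop 1] with n hn hn1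
  refine hn.trans (Real.rpow_le_rpow_of_exponent_le (by exact_mod_cast hn1) (by linarith))

/-- all non PI Ore extensions -/
theorem final (hfg : (⊤ : IntermediateField k K).FG) (htr : Algebra.trdeg k K = 1)
    (ι : K →ₐ[k] D) (y : D) (hyK : y ∉ Set.range ι) (σ : K ≃ₐ[k] K) (δ : K → K)
    (hy : ∀ a, y * ι a = ι (σ a) * y + ι (δ a))
    (hgen : Subfield.closure (Set.range ι ∪ {y}) = ⊤)
    (hnp : (∀ n : ℕ, 0 < n → σ ^ n ≠ 1) ∨ (CharZero k ∧ σ = 1 ∧ δ ≠ 0))
    (D' : Subalgebra k D) (hD' : ∀ x ∈ D', x⁻¹ ∈ D') (u : K) (hu : Transcendental k u)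
    (huD : ι u ∈ D') : Concl D' 3 ∧ (σ = 1 → Concl D' 2) := by
  have hι : Function.Injective ι := ι.toRingHom.injective
  rcases hnp with hσ | ⟨hchar, hσ1, hδ0⟩
  · -- remove `δ`
    have hσ1 : σ ≠ 1 := by
      intro h
      exact hσ 1 one_pos (by rw [h, one_pow])
    refine ⟨?_, fun h => absurd h hσ1⟩
    obtain ⟨a0, ha0⟩ : ∃ a, σ a ≠ a := by
      by_contra hno
      push Not at hno
      exact hσ1 (AlgEquiv.ext hno)
    have ha0' : σ a0 - a0 ≠ 0 := sub_ne_zero.mpr ha0
    have hδm : ∀ a b, δ (a * b) = σ a * δ b + δ a * b := by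
      intro a b
      apply hι
      have h1 : y * ι (a * b) = ι (σ (a * b)) * y + ι (δ (a * b)) := hy _
      have h2 : y * ι (a * b) = ι (σ a * σ b) * y + ι (σ a * δ b + δ a * b) := by
        rw [map_mul ι a b, ← mul_assoc, hy a, add_mul, mul_assoc, hy b, mul_add, ← mul_assoc]
        simp only [map_mul, map_add]
        rw [add_assoc]
      rw [map_mul σ] at h1
      rw [h1] at h2
      exact add_left_cancel h2
    let c : K := δ a0 / (σ a0 - a0)
    have hδc : ∀ b, δ b = c * (σ b - b) := by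
      intro b
      have h1 := hδm a0 b
      have h2 := hδm b a0
      rw [mul_comm b a0] at h2
      rw [h2] at h1
      have h3 : δ b * (σ a0 - a0) = δ a0 * (σ b - b) := by linear_combination -h1
      show δ b = δ a0 / (σ a0 - a0) * (σ b - b)
      rw [div_mul_eq_mul_div, eq_div_iff ha0', h3]
    have hy0 : y + ι c ≠ 0 := by
      intro h
      apply hyK
      exact ⟨-c, by rw [map_neg]; exact (eq_neg_of_add_eq_zero_left h).symm⟩
    refine final_sig hfg htr ι (y + ι c) hy0 σ ?_ hσ ?_ D' hD' u hu huD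
    · intro a
      rw [add_mul, hy, mul_add, hδc, add_assoc, ← map_mul, ← map_mul, ← map_add]
      congr 2
      ring
    · rw [eq_top_iff, ← hgen, Subfield.closure_le]
      rintro x (hx | hx)
      · exact Subfield.subset_closure (Or.inl hx)
      · rw [Set.mem_singleton_iff] at hx
        have h1 : (y + ι c) - ι c ∈ Subfield.closure (Set.range ι ∪ {y + ι c}) :=
          sub_mem (Subfield.subset_closure (Or.inr rfl))
            (Subfield.subset_closure (Or.inl ⟨c, rfl⟩))
        rw [add_sub_cancel_right] at h1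
        rw [hx]
        exact h1
  · -- `δ` is a derivation
    subst hσ1
    have hy1 : ∀ a, y * ι a = ι a * y + ι (δ a) := hy
    have hcomm : ∀ c : k, y * algebraMap k D c = algebraMap k D c * y :=
      fun c => (Algebra.commutes c y).symm
    have hadd : ∀ a b, δ (a + b) = δ a + δ b := by
      intro a b
      apply hι
      have h1 := hy1 (a + b)
      rw [map_add, mul_add, hy1 a, hy1 b, add_mul] at h1
      rw [map_add]
      have h2 : ι a * y + ι b * y + (ι (δ a) + ι (δ b)) = ι a * y + ι b * y + ι (δ (a + b)) := by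
        rw [← h1]; abel
      exact (add_left_cancel h2).symm
    have hmul : ∀ a b, δ (a * b) = a * δ b + b * δ a := by
      intro a b
      apply hι
      have h1 := hy1 (a * b)
      rw [map_mul ι a b, ← mul_assoc, hy1 a, add_mul, mul_assoc, hy1 b, mul_add, ← mul_assoc,
        add_assoc] at h1
      rw [map_add, map_mul, map_mul, ← add_left_cancel h1, ← map_mul ι (δ a), mul_comm (δ a),
        map_mul]
    have hkz : ∀ c : k, δ (algebraMap k K c) = 0 := by
      intro c
      apply hι
      have h1 := hy1 (algebraMap k K c)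
      rw [AlgHom.commutes, hcomm] at h1
      rw [map_zero]
      exact left_eq_add.mp h1
    let δ' : Derivation k K K :=
      { toFun := δ
        map_add' := hadd
        map_smul' := by
          intro c x
          show δ (c • x) = c • δ x
          rw [Algebra.smul_def, hmul, hkz, mul_zero, add_zero, Algebra.smul_def]
        map_one_eq_zero' := by
          have h1 := hkz 1
          rwa [map_one] at h1
        leibniz' := hmul }
    have hδ' : δ' ≠ 0 := by
      intro h
      apply hδ0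
      funext x
      exact DFunLike.congr_fun h x
    have h2 := final_del hfg htr ι y δ' hδ' hy1 hgen D' hD' u hu huD
    exact ⟨concl_mono (by norm_num) h2, fun _ => h2⟩

end SDR
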