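import Pool.Agent.Helper9_SDR.Base
import Pool.Agent.Helper9_SDR.Ore

/-! # Skew Laurent extensions `K(y; σ)` (MP_87570e_al) -/

open Polynomial

namespace SDR

variable {k : Type} [Field k] {D : Type} [DivisionRing D] {K : Type} [Field K] [Algebra k K]
variable {ι : K →+* D} {y : D} {σ : K ≃ₐ[k] K}

/-- commutation of powers of `y` -/
theorem zc (hy0 : y ≠ 0) (hy : ∀ a, y * ι a = ι (σ a) * y) (n : ℤ) :
    ∀ a, y ^ n * ι a = ι ((σ ^ n) a) * y ^ n := by
  induction n with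
  | zero => intro a; rw [zpow_zero, zpow_zero, one_mul, mul_one]; rfl
  | succ n ih =>
    intro a
    rw [zpow_add_one₀ hy0, zpow_add_one, mul_assoc, hy, ← mul_assoc, ih, mul_assoc]
    rfl
  | pred n ih =>
    intro a
    have h1 : y⁻¹ * ι a = ι (σ⁻¹ a) * y⁻¹ := by
      have h2 := hy (σ⁻¹ a)
      have h3 : σ (σ⁻¹ a) = a := by
        rw [← AlgEquiv.mul_apply, mul_inv_cancel]; rfl
      rw [h3] at h2
      rw [inv_mul_eq_iff_eq_mul₀ hy0, ← mul_assoc, h2, mul_assoc, mul_inv_cancel₀ hy0, mul_one]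
    rw [zpow_sub_one₀ hy0, zpow_sub_one, mul_assoc, h1, ← mul_assoc, ih, mul_assoc]
    rfl

/-- the ring of skew Laurent polynomials -/
def LR (hy0 : y ≠ 0) (hy : ∀ a, y * ι a = ι (σ a) * y) : Subring D where
  carrier := {x | ∃ b : ℤ →₀ D, (∀ n, b n ∈ Set.range ι) ∧ x = E (fun n : ℤ => y ^ n) b}
  mul_mem' := by
    classical
    rintro _ _ ⟨b, hb, rfl⟩ ⟨c, hc, rfl⟩
    -- right multiplication by `ι t * y ^ m`
    have key : ∀ (t : K) (m : ℤ) (b : ℤ →₀ D), (∀ n, b n ∈ Set.range ι) →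
        ∃ b' : ℤ →₀ D, (∀ n, b' n ∈ Set.range ι) ∧
          E (fun n : ℤ => y ^ n) b * (ι t * y ^ m) = E (fun n : ℤ => y ^ n) b' := by
      intro t m b hb
      refine ⟨∑ n ∈ b.support, Finsupp.single (n + m) (b n * ι ((σ ^ n) t)), ?_, ?_⟩
      · intro n
        rw [Finsupp.finsetSum_apply]
        have : ∀ s : Finset ℤ, (∑ i ∈ s, (Finsupp.single (i + m) (b i * ι ((σ ^ i) t))) n) ∈
            (ι.range : Subring D) := fun s => sum_mem fun i _ => by
          rw [Finsupp.single_apply]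
          split_ifs
          · obtain ⟨x, hx⟩ := hb i
            rw [← hx, ← map_mul]
            exact ⟨_, rfl⟩
          · exact zero_mem _
        exact this _
      · rw [E_eq _ b b.support subset_rfl, Finset.sum_mul, map_sum]
        refine Finset.sum_congr rfl fun n _ => ?_
        rw [Finsupp.linearCombination_single, smul_eq_mul, mul_assoc, ← mul_assoc (y ^ n),
          zc hy0 hy n, mul_assoc, ← zpow_add₀ hy0, ← mul_assoc]
    rw [E_eq _ c c.support subset_rfl, Finset.mul_sum]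
    have h2 : ∀ s : Finset ℤ, ∃ b' : ℤ →₀ D, (∀ n, b' n ∈ Set.range ι) ∧
        ∑ i ∈ s, E (fun n : ℤ => y ^ n) b * (c i * y ^ i) = E (fun n : ℤ => y ^ n) b' := by
      intro s
      induction s using Finset.induction_on with
      | empty => exact ⟨0, fun n => ⟨0, map_zero ι⟩, by rw [map_zero, Finset.sum_empty]⟩
      | insert a s ha ih =>
        obtain ⟨b', hb', h'⟩ := ih
        obtain ⟨t, ht⟩ := hc a
        obtain ⟨b'', hb'', h''⟩ := key t a b hb
        refine ⟨b'' + b', fun n => ?_, ?_⟩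
        · obtain ⟨x, hx⟩ := hb' n
          obtain ⟨z, hz⟩ := hb'' n
          exact ⟨z + x, by rw [map_add, hx, hz]; rfl⟩
        · rw [Finset.sum_insert ha, h', ← ht, h'', map_add]
    exact h2 _
  one_mem' := ⟨Finsupp.single 0 1, fun n => by
    classical
    rw [Finsupp.single_apply]
    split_ifs
    · exact ⟨1, map_one ι⟩
    · exact ⟨0, map_zero ι⟩, by
    rw [Finsupp.linearCombination_single, zpow_zero, smul_eq_mul, mul_one]⟩
  add_mem' := by
    rintro _ _ ⟨b, hb, rfl⟩ ⟨c, hc, rfl⟩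
    refine ⟨b + c, fun n => ?_, (map_add _ _ _).symm⟩
    obtain ⟨x, hx⟩ := hb n
    obtain ⟨z, hz⟩ := hc n
    exact ⟨x + z, by rw [map_add, hx, hz]; rfl⟩
  zero_mem' := ⟨0, fun n => ⟨0, map_zero ι⟩, (map_zero _).symm⟩
  neg_mem' := by
    rintro _ ⟨b, hb, rfl⟩
    refine ⟨-b, fun n => ?_, (map_neg _ _).symm⟩
    obtain ⟨x, hx⟩ := hb n
    exact ⟨-x, by rw [map_neg, hx]; rfl⟩

section

variable (hy0 : y ≠ 0) (hy : ∀ a, y * ι a = ι (σ a) * y)

theorem LR_mono (a : K) (n : ℤ) : ι a * y ^ n ∈ LR hy0 hy := by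
  classical
  refine ⟨Finsupp.single n (ι a), fun m => ?_, ?_⟩
  · rw [Finsupp.single_apply]
    split_ifs
    · exact ⟨a, rfl⟩
    · exact ⟨0, map_zero ι⟩
  · rw [Finsupp.linearCombination_single, smul_eq_mul]

theorem LR_K (a : K) : ι a ∈ LR hy0 hy := by
  have := LR_mono hy0 hy a 0
  rwa [zpow_zero, mul_one] at this

theorem LR_zpow (n : ℤ) : y ^ n ∈ LR hy0 hy := by
  have := LR_mono hy0 hy 1 n
  rwa [map_one, one_mul] at this

theorem LR_y : y ∈ LR hy0 hy := by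
  have := LR_zpow hy0 hy 1
  rwa [zpow_one] at this

/-- the twisting vector -/
noncomputable def tw (ι : K →+* D) (σ : K ≃ₐ[k] K) (s0 : K) (a n : ℤ) : D := ι ((σ ^ (n - a)) s0)

theorem tw_self (s0 : K) (a : ℤ) : tw ι σ s0 a a = ι s0 := by
  rw [tw, sub_self, zpow_zero]; rfl

include hy0 hy in
theorem tw_comm (s0 : K) (a n : ℤ) : tw ι σ s0 a n * y ^ n = y ^ n * ι ((σ ^ (-a)) s0) := by
  rw [zc hy0 hy, tw, ← AlgEquiv.mul_apply, ← zpow_add]
  rfl

/-- families of minimal support with entries in `K` are monomials -/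
theorem single_mem {s0 : K} (hs0 : ∀ n : ℤ, n ≠ 0 → (σ ^ n) s0 ≠ s0) (M : Set (ℤ →₀ D))
    (hMr : ∀ v ∈ M, ∀ n, v n ∈ Set.range ι)
    (hnorm : ∀ v ∈ M, ∀ a, v a ≠ 0 → ∃ w ∈ M, w.support ⊆ v.support ∧ w a = 1)
    (hT : ∀ v ∈ M, ∀ a, v a = 1 → ι s0 • v - rtw (tw ι σ s0 a) v ∈ M)
    (v : ℤ →₀ D) (hv : v ∈ M) (hv0 : v ≠ 0) : ∃ a, Finsupp.single a 1 ∈ M := by
  classical
  obtain ⟨w, hw, a, -, hwa, hws⟩ := minsup M (ι s0) (tw ι σ s0) hnorm (tw_self s0) hT v hv hv0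
  refine ⟨a, ?_⟩
  have h1 : w = Finsupp.single a 1 := by
    ext n
    rw [Finsupp.single_apply]
    split_ifs with h
    · rw [← h, hwa]
    · obtain ⟨x, hx⟩ := hMr w hw n
      have h2 := hws n
      rw [← hx, tw, ← map_mul, ← map_mul] at h2
      have h3 : s0 * x = x * (σ ^ (n - a)) s0 := ι.injective h2
      have h4 : x * ((σ ^ (n - a)) s0 - s0) = 0 := by
        rw [mul_sub, ← h3, mul_comm, sub_self]
      rcases mul_eq_zero.mp h4 with h5 | h5
      · rw [← hx, h5, map_zero]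
      · exact absurd (sub_eq_zero.mp h5) (hs0 _ (by omega))
  rw [← h1]
  exact hw

include hy0 hy in
/-- independence of the powers of `y` -/
theorem indep_y {s0 : K} (hs0 : ∀ n : ℤ, n ≠ 0 → (σ ^ n) s0 ≠ s0) (b : ℤ →₀ D)
    (hb : ∀ n, b n ∈ Set.range ι) (hE : E (fun n : ℤ => y ^ n) b = 0) : b = 0 := by
  classical
  by_contra h0
  obtain ⟨a, ha⟩ := single_mem (σ := σ) hs0
    {b : ℤ →₀ D | (∀ n, b n ∈ Set.range ι) ∧ E (fun n : ℤ => y ^ n) b = 0}
    (fun v hv => hv.1)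
    (by
      rintro v ⟨hv1, hv2⟩ a ha
      obtain ⟨x, hx⟩ := hv1 a
      refine ⟨(v a)⁻¹ • v, ⟨fun n => ?_, ?_⟩, Finsupp.support_smul, ?_⟩
      · obtain ⟨z, hz⟩ := hv1 n
        rw [Finsupp.smul_apply, smul_eq_mul, ← hz, ← hx, ← map_inv₀, ← map_mul]
        exact ⟨_, rfl⟩
      · rw [map_smul, hv2, smul_zero]
      · rw [Finsupp.smul_apply, smul_eq_mul, inv_mul_cancel₀ ha])
    (by
      rintro v ⟨hv1, hv2⟩ a ha
      refine ⟨fun n => ?_, ?_⟩
      · obtain ⟨z, hz⟩ := hv1 n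
        rw [Finsupp.sub_apply, Finsupp.smul_apply, rtw_apply, smul_eq_mul, tw, ← hz, ← map_mul,
          ← map_mul, ← map_sub]
        exact ⟨_, rfl⟩
      · rw [map_sub, map_smul, hv2, smul_zero, E_rtw _ _ _ (tw_comm hy0 hy s0 a), hv2, zero_mul,
          sub_zero])
    b ⟨hb, hE⟩ h0
  have h1 := ha.2
  rw [Finsupp.linearCombination_single, one_smul] at h1
  exact zpow_ne_zero a hy0 h1

include hy0 hy in
theorem hind_sig {s0 : K} (hs0 : ∀ n : ℤ, n ≠ 0 → (σ ^ n) s0 ≠ s0) (n : ℕ) (a : Fin n → K)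
    (h : ∑ i : Fin n, y ^ (i : ℕ) * ι (a i) = 0) : a = 0 := by
  classical
  let b : ℤ →₀ D := ∑ i : Fin n, Finsupp.single ((i : ℕ) : ℤ) (ι ((σ ^ ((i : ℕ) : ℤ)) (a i)))
  have hbn : ∀ m : ℤ, b m ∈ Set.range ι := by
    intro m
    have h1 : b m = ∑ i : Fin n,
        (Finsupp.single ((i : ℕ) : ℤ) (ι ((σ ^ ((i : ℕ) : ℤ)) (a i)))) m :=
      Finsupp.finsetSum_apply _ _ _
    rw [h1]
    have : ∀ s : Finset (Fin n), (∑ i ∈ s,
        (Finsupp.single ((i : ℕ) : ℤ) (ι ((σ ^ ((i : ℕ) : ℤ)) (a i)))) m) ∈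
        (ι.range : Subring D) := fun s => sum_mem fun i _ => by
      rw [Finsupp.single_apply]
      split_ifs
      · exact ⟨_, rfl⟩
      · exact zero_mem _
    exact this _
  have hE : E (fun n : ℤ => y ^ n) b = 0 := by
    rw [← h, map_sum]
    refine Finset.sum_congr rfl fun i _ => ?_
    rw [Finsupp.linearCombination_single, smul_eq_mul, ← zc hy0 hy, zpow_natCast]
  have hb := indep_y hy0 hy hs0 b hbn hE
  funext j
  have h1 := DFunLike.congr_fun hb ((j : ℕ) : ℤ)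
  have h2 : b ((j : ℕ) : ℤ) = ι ((σ ^ ((j : ℕ) : ℤ)) (a j)) := by
    have h1 : b ((j : ℕ) : ℤ) = ∑ i : Fin n,
        (Finsupp.single ((i : ℕ) : ℤ) (ι ((σ ^ ((i : ℕ) : ℤ)) (a i)))) ((j : ℕ) : ℤ) :=
      Finsupp.finsetSum_apply _ _ _
    rw [h1, Finset.sum_eq_single j]
    · rw [Finsupp.single_eq_same]
    · intro i _ hij
      rw [Finsupp.single_apply, if_neg]
      intro h
      exact hij (Fin.ext (by exact_mod_cast h))
    · intro h; exact absurd (Finset.mem_univ j) h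
  rw [h2, Finsupp.zero_apply, map_eq_zero] at h1
  exact (map_eq_zero (σ ^ ((j : ℕ) : ℤ))).mp h1

/-- elements of `LR` are locally finite -/
theorem LR_tors (s0 : K) {z : D} (hz : z ∈ LR hy0 hy) : ∃ F : K[X], F ≠ 0 ∧ Th ι s0 F z = 0 := by
  classical
  obtain ⟨b, hb, rfl⟩ := hz
  rw [E_eq _ b b.support subset_rfl]
  have : ∀ s : Finset ℤ, ∃ F : K[X], F ≠ 0 ∧ Th ι s0 F (∑ n ∈ s, b n * y ^ n) = 0 := by
    intro s
    induction s using Finset.induction_on with
    | empty => exact ⟨1, one_ne_zero, by rw [Finset.sum_empty, map_zero]⟩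
    | insert a s ha ih =>
      rw [Finset.sum_insert ha]
      refine tors_add ?_ ih
      obtain ⟨x, hx⟩ := hb a
      refine ⟨X - C ((σ ^ a) s0), X_sub_C_ne_zero _, ?_⟩
      rw [sub_eq_add_neg, ← C_neg, Th_add, Th_X, Th_C, ← hx, mul_assoc, zc hy0 hy, map_neg,
        ← mul_assoc, ← mul_assoc, ← map_mul, neg_mul, ← map_mul, mul_comm, neg_mul, add_neg_cancel]
  exact this _

/-- locally finite elements lie in `LR` -/
theorem tors_LR {s0 : K} (hs0 : ∀ n : ℤ, n ≠ 0 → (σ ^ n) s0 ≠ s0)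
    (hgen : Subfield.closure (Set.range ι ∪ {y}) = ⊤) (c : D)
    (h : ∃ F : K[X], F ≠ 0 ∧ Th ι s0 F c = 0) : c ∈ LR hy0 hy := by
  classical
  obtain ⟨F, hF, hFc⟩ := h
  by_cases hm : F.natDegree = 0
  · rw [eq_C_of_natDegree_eq_zero hm, Th_C] at hFc
    have h1 : F.coeff 0 ≠ 0 := by
      intro h0
      apply hF
      rw [eq_C_of_natDegree_eq_zero hm, h0, C_0]
    have h2 : ι (F.coeff 0) ≠ 0 := by rwa [Ne, map_eq_zero]
    rw [(mul_eq_zero.mp hFc).resolve_left h2]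
    exact zero_mem _
  have hyδ : ∀ a, y * ι a = ι ((σ : K ≃+* K) a) * y + ι ((fun _ => 0 : K → K) a) := by
    intro a
    rw [map_zero, add_zero]
    exact hy a
  obtain ⟨P, ⟨b, hb, hbP⟩, hP0, hP⟩ := denoms hyδ (hind_sig hy0 hy hs0) hgen (LR hy0 hy)
    (LR_K hy0 hy) (LR_y hy0 hy) F.natDegree (fun i => c * ι s0 ^ i)
  obtain ⟨a, ha⟩ := single_mem (σ := σ) hs0
    {b : ℤ →₀ D | (∀ n, b n ∈ Set.range ι) ∧ ∀ i < F.natDegree,
      c * ι s0 ^ i * E (fun n : ℤ => y ^ n) b ∈ LR hy0 hy}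
    (fun v hv => hv.1)
    (by
      rintro v ⟨hv1, hv2⟩ a ha
      obtain ⟨x, hx⟩ := hv1 a
      refine ⟨rtw (tw ι σ x⁻¹ a) v, ⟨fun n => ?_, ?_⟩, rtw_support _ _, ?_⟩
      · obtain ⟨z, hz⟩ := hv1 n
        rw [rtw_apply, tw, ← hz, ← map_mul]
        exact ⟨_, rfl⟩
      · intro i hi
        rw [E_rtw _ _ _ (tw_comm hy0 hy _ a), ← mul_assoc]
        exact mul_mem (hv2 i hi) (LR_K hy0 hy _)
      · rw [rtw_apply, tw_self, map_inv₀, hx, mul_inv_cancel₀ ha])
    (by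
      rintro v ⟨hv1, hv2⟩ a ha
      refine ⟨fun n => ?_, ?_⟩
      · obtain ⟨z, hz⟩ := hv1 n
        rw [Finsupp.sub_apply, Finsupp.smul_apply, rtw_apply, smul_eq_mul, tw, ← hz, ← map_mul,
          ← map_mul, ← map_sub]
        exact ⟨_, rfl⟩
      · intro i hi
        rw [map_sub, map_smul, smul_eq_mul, E_rtw _ _ _ (tw_comm hy0 hy s0 a), mul_sub]
        refine sub_mem ?_ ?_
        · rw [← mul_assoc, mul_assoc c, ← pow_succ]
          rcases Nat.lt_or_ge (i + 1) F.natDegree with h | h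
          · exact hv2 _ h
          · have h1 : i + 1 = F.natDegree := by omega
            rw [h1]
            exact top_mem (LR_K hy0 hy) hF hFc hv2
        · rw [← mul_assoc]
          exact mul_mem (hv2 i hi) (LR_K hy0 hy _))
    b ⟨hb, fun i hi => by rw [← hbP]; exact hP i hi⟩ (by
      rintro rfl
      rw [map_zero] at hbP
      exact hP0 hbP)
  have h1 := ha.2 0 (by omega)
  rw [Finsupp.linearCombination_single, one_smul, pow_zero, mul_one] at h1
  have h2 := mul_mem h1 (LR_zpow hy0 hy (-a))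
  rwa [mul_assoc, ← zpow_add₀ hy0, add_neg_cancel, zpow_zero, mul_one] at h2

include hy0 hy in
/-- the centralizer of `s0` is `K` -/
theorem cent_sig {s0 : K} (hs0 : ∀ n : ℤ, n ≠ 0 → (σ ^ n) s0 ≠ s0)
    (hgen : Subfield.closure (Set.range ι ∪ {y}) = ⊤) (x : D) (hx : ι s0 * x = x * ι s0) :
    x ∈ Set.range ι := by
  classical
  have hxL : x ∈ LR hy0 hy := by
    refine tors_LR hy0 hy hs0 hgen x ⟨X - C s0, X_sub_C_ne_zero _, ?_⟩
    rw [sub_eq_add_neg, ← C_neg, Th_add, Th_X, Th_C, map_neg, neg_mul, hx, add_neg_cancel]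
  obtain ⟨b, hb, hbx⟩ := hxL
  have h1 : ι s0 • b - rtw (tw ι σ s0 0) b = 0 := by
    apply indep_y hy0 hy hs0
    · intro n
      obtain ⟨z, hz⟩ := hb n
      rw [Finsupp.sub_apply, Finsupp.smul_apply, rtw_apply, smul_eq_mul, tw, ← hz, ← map_mul,
        ← map_mul, ← map_sub]
      exact ⟨_, rfl⟩
    · rw [map_sub, map_smul, smul_eq_mul, E_rtw _ _ _ (tw_comm hy0 hy s0 0), ← hbx, neg_zero,
        zpow_zero]
      show ι s0 * x - x * ι s0 = 0
      rw [hx, sub_self]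
  have h2 : b = Finsupp.single 0 (b 0) := by
    ext n
    rw [Finsupp.single_apply]
    split_ifs with h
    · rw [h]
    · obtain ⟨z, hz⟩ := hb n
      have h3 := DFunLike.congr_fun h1 n
      rw [Finsupp.sub_apply, Finsupp.smul_apply, rtw_apply, smul_eq_mul, tw, ← hz, ← map_mul,
        ← map_mul, ← map_sub, Finsupp.zero_apply, map_eq_zero, sub_zero] at h3
      have h4 : z * ((σ ^ n) s0 - s0) = 0 := by
        rw [mul_sub, mul_comm z s0]
        rw [← neg_eq_zero, neg_sub]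
        exact h3
      rcases mul_eq_zero.mp h4 with h5 | h5
      · rw [← hz, h5, map_zero]
      · exact absurd (sub_eq_zero.mp h5) (hs0 _ (by omega))
  rw [hbx, h2, Finsupp.linearCombination_single, zpow_zero, smul_eq_mul, mul_one]
  exact hb 0

end

end SDR
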