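import Pool.Agent.Helper9_SDR.Height
import Pool.Agent.Helper9_SDR.Sig
import Pool.Agent.Helper9_SDR.Del

/-! # Growth bounds (MP_87570e_al) -/

open Polynomial IntermediateField

namespace SDR

variable {k : Type} [Field k] {D : Type} [DivisionRing D] [Algebra k D] {K : Type} [Field K]
  [Algebra k K]

theorem fr_bound {α : Type} (ι : K →ₐ[k] D) (W : Submodule k K) (hW : Module.Finite k W)
    (I : Finset α) (g : α → D) (U : Submodule k D)
    (hU : U ≤ Submodule.span k {x | ∃ w ∈ W, ∃ i ∈ I, x = ι w * g i}) :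
    Module.Finite k U ∧ Module.finrank k U ≤ I.card * Module.finrank k W := by
  classical
  let T : (I → W) →ₗ[k] D := ∑ i : I, ((LinearMap.mulRight k (g i)).comp
    (ι.toLinearMap.comp W.subtype)).comp (LinearMap.proj i)
  have hle : U ≤ LinearMap.range T := by
    refine hU.trans (Submodule.span_le.mpr ?_)
    rintro _ ⟨w, hw, i, hi, rfl⟩
    refine ⟨Pi.single ⟨i, hi⟩ ⟨w, hw⟩, ?_⟩
    rw [LinearMap.sum_apply, Finset.sum_eq_single (⟨i, hi⟩ : I)]
    · show ι ((Pi.single ⟨i, hi⟩ ⟨w, hw⟩ : I → W) ⟨i, hi⟩ : K) * g i = ι w * g i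
      rw [Pi.single_eq_same]
    · intro j _ hj
      show ι ((Pi.single ⟨i, hi⟩ ⟨w, hw⟩ : I → W) j : K) * g j = 0
      rw [Pi.single_eq_of_ne hj, ZeroMemClass.coe_zero, map_zero, zero_mul]
    · intro h; exact absurd (Finset.mem_univ _) h
  have hf : Module.Finite k (LinearMap.range T) := Module.Finite.range T
  refine ⟨Submodule.finiteDimensional_of_le hle, ?_⟩
  calc Module.finrank k U ≤ Module.finrank k (LinearMap.range T) := Submodule.finrank_mono hle
    _ ≤ Module.finrank k (I → W) := LinearMap.finrank_range_le T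
    _ = I.card * Module.finrank k W := by
      rw [Module.finrank_pi_fintype, Finset.sum_const, smul_eq_mul, Finset.card_univ,
        Fintype.card_coe]

theorem ev_bound (d C : ℕ) (a : ℕ → ℕ) (h : ∀ n, a n ≤ C * (n + 1) ^ d) (ε : ℝ) (hε : 0 < ε) :
    ∀ᶠ n : ℕ in Filter.atTop, (a n : ℝ) ≤ (n : ℝ) ^ ((d : ℝ) + ε) := by
  have h1 : Filter.Tendsto (fun n : ℕ => (n : ℝ) ^ ε) Filter.atTop Filter.atTop :=
    (tendsto_rpow_atTop hε).comp tendsto_natCast_atTop_atTop
  filter_upwards [h1.eventually_ge_atTop ((C : ℝ) * 2 ^ d), Filter.eventually_ge_atTop 1]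
    with n hn hn1
  have hn0 : (0 : ℝ) < n := by exact_mod_cast hn1
  have h2 : (a n : ℝ) ≤ C * ((n : ℝ) + 1) ^ d := by exact_mod_cast h n
  have h3 : ((n : ℝ) + 1) ^ d ≤ (2 * n) ^ d := by
    apply pow_le_pow_left₀ (by positivity)
    have : (1 : ℝ) ≤ n := by exact_mod_cast hn1
    linarith
  rw [Real.rpow_add hn0, Real.rpow_natCast]
  calc (a n : ℝ) ≤ C * ((n : ℝ) + 1) ^ d := h2
    _ ≤ C * (2 * n) ^ d := by gcongr
    _ = (n : ℝ) ^ d * (C * 2 ^ d) := by rw [mul_pow]; ring
    _ ≤ (n : ℝ) ^ d * (n : ℝ) ^ ε := by gcongr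

/-- uniform height for a finite set -/
theorem HB_fin (hK : ∀ f : K, Transcendental k f → FiniteDimensional k⟮f⟯ K) (Φ : Finset K) :
    ∃ h : ℕ, ∀ f ∈ Φ, ∀ (τ : K ≃ₐ[k] K) (v : K), Transcendental k v →
      ∃ b : k[X], b ≠ 0 ∧ b.natDegree ≤ h ∧ Int (k := k) v (aeval v b * τ f) := by
  classical
  choose h hh using HB hK
  refine ⟨∑ f ∈ Φ, h f, fun f hf τ v hv => ?_⟩
  obtain ⟨b, hb0, hbd, hbi⟩ := hh f τ v hv
  exact ⟨b, hb0, hbd.trans (Finset.single_le_sum (f := h) (fun _ _ => Nat.zero_le _) hf), hbi⟩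

/-- growth of `K[y, y⁻¹; σ]` -/
theorem gk_sig (hK : ∀ f : K, Transcendental k f → FiniteDimensional k⟮f⟯ K) {u : K}
    (hu : Transcendental k u) (ι : K →ₐ[k] D) {y : D} {σ : K ≃ₐ[k] K} (hy0 : y ≠ 0)
    (hy : ∀ a, y * (ι : K →+* D) a = (ι : K →+* D) (σ a) * y) (V : Submodule k D)
    (hV : ∀ v ∈ V, v ∈ LR hy0 hy) (hfin : FiniteDimensional k V) :
    ∃ C : ℕ, ∀ n, Module.finrank k ↥(V ^ n) ≤ C * (n + 1) ^ 3 := by
  classical
  obtain ⟨S, hS⟩ : V.FG := Module.Finite.iff_fg.mp hfin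
  have hSL : ∀ v ∈ S, ∃ b : ℤ →₀ K, v = ∑ n ∈ b.support, ι (b n) * y ^ n := by
    intro v hv
    obtain ⟨b, hb, hbv⟩ := hV v (by rw [← hS]; exact Submodule.subset_span hv)
    obtain ⟨a, ha⟩ := lift_vec (ι := (ι : K →+* D)) b hb
    refine ⟨a, ?_⟩
    have hs : b.support ⊆ a.support := by
      intro j hj
      rw [Finsupp.mem_support_iff] at hj ⊢
      intro h0
      apply hj
      rw [← ha j, h0, map_zero]
    rw [hbv, E_eq _ _ a.support hs]
    exact Finset.sum_congr rfl fun j _ => by rw [← ha j]; rfl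
  choose! b hb using hSL
  let Φ0 : Finset K := S.biUnion fun v => (b v).support.image (b v)
  let r : ℕ := ∑ v ∈ S, ∑ n ∈ (b v).support, n.natAbs
  have hr : ∀ v ∈ S, ∀ n ∈ (b v).support, n.natAbs ≤ r := by
    intro v hv n hn
    exact (Finset.single_le_sum (f := fun n : ℤ => n.natAbs) (fun _ _ => Nat.zero_le _) hn).trans
      (Finset.single_le_sum (f := fun v => ∑ n ∈ (b v).support, n.natAbs)
        (fun _ _ => Nat.zero_le _) hv)
  have hVle : V ≤ Submodule.span k {x | ∃ f ∈ Φ0, ∃ l : ℤ, l.natAbs ≤ r ∧ x = ι f * y ^ l} := by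
    rw [← hS, Submodule.span_le]
    intro v hv
    have hv' : v ∈ S := hv
    rw [hb v hv']
    refine Submodule.sum_mem _ fun n hn => Submodule.subset_span ⟨b v n, ?_, n, hr v hv' n hn, rfl⟩
    exact Finset.mem_biUnion.mpr ⟨v, hv', Finset.mem_image_of_mem _ hn⟩
  obtain ⟨h, hh⟩ := HB_fin hK Φ0
  let N := Module.finrank k⟮u⟯ K
  refine ⟨(2 * r + 1) * (N * (2 * (h * (Φ0.card * (2 * r + 1))) + 1)), fun n => ?_⟩
  let I : Finset ℤ := Finset.Icc (-(r * n : ℕ) : ℤ) (r * n : ℕ)
  have hIcard : I.card = 2 * (r * n) + 1 := by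
    rw [Int.card_Icc]
    omega
  have hI : ∀ i : ℤ, i.natAbs ≤ r * n → i ∈ I := by
    intro i hi
    rw [Finset.mem_Icc]
    omega
  let Φ : Finset K := (Φ0 ×ˢ I).image fun p => (σ ^ p.2) p.1
  have hΦcard : Φ.card ≤ Φ0.card * (2 * (r * n) + 1) := by
    refine Finset.card_image_le.trans ?_
    rw [Finset.card_product, hIcard]
  let W := Submodule.span k (insert (1 : K) (Φ : Set K))
  have hW1 : (1 : Submodule k K) ≤ W := by
    rw [Submodule.one_le]
    exact Submodule.subset_span (Set.mem_insert _ _)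
  have hstep : ∀ j, j ≤ n → V ^ j ≤ Submodule.span k
      {x | ∃ w ∈ W ^ j, ∃ i : ℤ, i.natAbs ≤ r * j ∧ x = ι w * y ^ i} := by
    intro j
    induction j with
    | zero =>
      intro _
      rw [pow_zero, pow_zero]
      intro x hx
      obtain ⟨c, rfl⟩ := Submodule.mem_one.mp hx
      refine Submodule.subset_span ⟨algebraMap k K c, Submodule.algebraMap_mem c, 0, by simp, ?_⟩
      rw [AlgHom.commutes, zpow_zero, mul_one]
    | succ j ih =>
      intro hj
      rw [pow_succ, Submodule.mul_le]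
      intro a ha v hv
      have ha' := ih (by omega) ha
      have hv' := hVle hv
      clear ha hv
      induction ha' using Submodule.span_induction with
      | mem a ha =>
        obtain ⟨w, hw, i, hi, rfl⟩ := ha
        induction hv' using Submodule.span_induction with
        | mem v hv =>
          obtain ⟨f, hf, l, hl, rfl⟩ := hv
          refine Submodule.subset_span ⟨w * (σ ^ i) f, ?_, i + l, ?_, ?_⟩
          · rw [pow_succ]
            refine Submodule.mul_mem_mul hw (Submodule.subset_span (Set.mem_insert_of_mem _ ?_))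
            refine Finset.mem_coe.mpr (Finset.mem_image.mpr ⟨(f, i), ?_, rfl⟩)
            rw [Finset.mem_product]
            refine ⟨hf, hI i (hi.trans ?_)⟩
            exact Nat.mul_le_mul_left r (by omega)
          · have := Int.natAbs_add_le i l
            rw [Nat.mul_succ]
            omega
          · have h1 := zc hy0 hy i f
            rw [map_mul, zpow_add₀ hy0]
            calc ι w * y ^ i * (ι f * y ^ l) = ι w * (y ^ i * ι f) * y ^ l := by
                  simp only [mul_assoc]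
              _ = ι w * (ι ((σ ^ i) f) * y ^ i) * y ^ l := by
                  congr 2
              _ = _ := by simp only [mul_assoc]
        | zero => rw [mul_zero]; exact Submodule.zero_mem _
        | add x z _ _ hx hz => rw [mul_add (ι w * y ^ i)]; exact Submodule.add_mem _ hx hz
        | smul c x _ hx => rw [mul_smul_comm]; exact Submodule.smul_mem _ _ hx
      | zero => rw [zero_mul]; exact Submodule.zero_mem _
      | add x z _ _ hx hz => rw [add_mul]; exact Submodule.add_mem _ hx hz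
      | smul c x _ hx => rw [smul_mul_assoc]; exact Submodule.smul_mem _ _ hx
  obtain ⟨hWf, hWd⟩ := prod_dim hu (hK u hu) Φ h
    (by
      intro φ hφ
      obtain ⟨⟨f, i⟩, hp, rfl⟩ := Finset.mem_image.mp hφ
      exact hh f (Finset.mem_product.mp hp).1 (σ ^ i) u hu)
    (by
      intro φ hφ
      obtain ⟨⟨f, i⟩, hp, rfl⟩ := Finset.mem_image.mp hφ
      exact hh f (Finset.mem_product.mp hp).1 (σ ^ i) u⁻¹ (transc_inv hu)) n
  have hb1 := (fr_bound ι (W ^ n) hWf I (fun i => y ^ i) (V ^ n)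
    ((hstep n le_rfl).trans (Submodule.span_mono (by
      rintro _ ⟨w, hw, i, hi, rfl⟩
      exact ⟨w, hw, i, hI i hi, rfl⟩)))).2
  rw [hIcard] at hb1
  have e1 : 2 * (r * n) + 1 ≤ (2 * r + 1) * (n + 1) := by nlinarith
  have e2 : 2 * (h * Φ.card) * n + 1 ≤
      (2 * (h * (Φ0.card * (2 * r + 1))) + 1) * (n + 1) ^ 2 := by
    have e3 : Φ.card ≤ Φ0.card * ((2 * r + 1) * (n + 1)) :=
      hΦcard.trans (Nat.mul_le_mul_left _ e1)
    calc 2 * (h * Φ.card) * n + 1
        ≤ 2 * (h * (Φ0.card * ((2 * r + 1) * (n + 1)))) * (n + 1) + (n + 1) ^ 2 := by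
          refine Nat.add_le_add ?_ (Nat.one_le_pow _ _ (Nat.succ_pos n))
          exact Nat.mul_le_mul (Nat.mul_le_mul_left _ (Nat.mul_le_mul_left _ e3)) (Nat.le_succ n)
      _ = _ := by ring
  calc Module.finrank k ↥(V ^ n) ≤ (2 * (r * n) + 1) * Module.finrank k ↥(W ^ n) := hb1
    _ ≤ ((2 * r + 1) * (n + 1)) *
        (N * ((2 * (h * (Φ0.card * (2 * r + 1))) + 1) * (n + 1) ^ 2)) :=
      Nat.mul_le_mul e1 (hWd.trans (Nat.mul_le_mul_left _ e2))
    _ = _ := by ring

end SDR
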