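import Pool.Agent.Helper9_SDR.GK

/-! # Growth of rings of differential operators (MP_87570e_al) -/

open Polynomial IntermediateField

namespace SDR

variable {k : Type} [Field k] {D : Type} [DivisionRing D] [Algebra k D] {K : Type} [Field K]
  [Algebra k K]

theorem W_mono {W : Submodule k K} (hW : (1 : Submodule k K) ≤ W) {n m : ℕ} (h : n ≤ m) :
    W ^ n ≤ W ^ m := by
  obtain ⟨d, rfl⟩ := Nat.exists_eq_add_of_le h
  clear h
  induction d with
  | zero => exact le_rfl
  | succ d ih =>
    refine ih.trans ?_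
    rw [← add_assoc, pow_succ W (n + d)]
    intro x hx
    have h1 := Submodule.mul_mem_mul hx (Submodule.one_le.mp hW)
    rwa [mul_one] at h1

theorem mem_pow_of_adjoin (G : Set K) {x : K} (hx : x ∈ Algebra.adjoin k G) :
    ∃ t, x ∈ (Submodule.span k (insert (1 : K) G)) ^ t := by
  have hW : (1 : Submodule k K) ≤ Submodule.span k (insert (1 : K) G) := by
    rw [Submodule.one_le]
    exact Submodule.subset_span (Set.mem_insert _ _)
  induction hx using Algebra.adjoin_induction with
  | mem x hx => exact ⟨1, by rw [pow_one]; exact Submodule.subset_span (Set.mem_insert_of_mem _ hx)⟩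
  | algebraMap r => exact ⟨0, by rw [pow_zero]; exact Submodule.algebraMap_mem r⟩
  | add x z _ _ hx hz =>
    obtain ⟨t, ht⟩ := hx
    obtain ⟨t', ht'⟩ := hz
    exact ⟨max t t', Submodule.add_mem _ (W_mono hW (le_max_left _ _) ht)
      (W_mono hW (le_max_right _ _) ht')⟩
  | mul x z _ _ hx hz =>
    obtain ⟨t, ht⟩ := hx
    obtain ⟨t', ht'⟩ := hz
    exact ⟨t + t', by rw [pow_add]; exact Submodule.mul_mem_mul ht ht'⟩

/-- finite sets lie in finitely generated subalgebras stable under the derivation -/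
theorem stable_gen (hfg : (⊤ : IntermediateField k K).FG) (δ : Derivation k K K) (Φ : Finset K) :
    ∃ G : Finset K, Φ ⊆ G ∧ ∀ g ∈ G, δ g ∈ Algebra.adjoin k (G : Set K) := by
  classical
  obtain ⟨S, hS⟩ := hfg
  let G0 : Finset K := S ∪ Φ
  have hdiv : ∀ x : K, ∃ r ∈ Algebra.adjoin k (G0 : Set K), ∃ s ∈ Algebra.adjoin k (G0 : Set K),
      s ≠ 0 ∧ x * s = r := by
    intro x
    have hx : x ∈ IntermediateField.adjoin k (G0 : Set K) := by
      have h1 : (⊤ : IntermediateField k K) ≤ IntermediateField.adjoin k (G0 : Set K) := by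
        rw [← hS]
        exact IntermediateField.adjoin.mono _ _ _ (by
          intro z hz
          exact Finset.mem_coe.mpr (Finset.mem_union_left _ (Finset.mem_coe.mp hz)))
      exact h1 trivial
    obtain ⟨r, hr, s, hs, hrs⟩ := mem_adjoin_iff_div.mp hx
    by_cases h0 : s = 0
    · refine ⟨0, zero_mem _, 1, one_mem _, one_ne_zero, ?_⟩
      rw [hrs, h0, div_zero, mul_one]
    · exact ⟨r, hr, s, hs, h0, by rw [hrs, div_mul_cancel₀ _ h0]⟩
  choose r hr s hs hs0 hrs using hdiv
  let h : K := ∏ g ∈ G0, s (δ g)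
  have hh0 : h ≠ 0 := Finset.prod_ne_zero_iff.mpr fun g _ => hs0 _
  let G : Finset K := insert h⁻¹ G0
  have hG0G : (G0 : Set K) ⊆ (G : Set K) := by
    intro z hz
    exact Finset.mem_coe.mpr (Finset.mem_insert_of_mem (Finset.mem_coe.mp hz))
  have hA : ∀ x, x ∈ Algebra.adjoin k (G0 : Set K) → x ∈ Algebra.adjoin k (G : Set K) :=
    fun x hx => Algebra.adjoin_mono hG0G hx
  have hhi : h⁻¹ ∈ Algebra.adjoin k (G : Set K) :=
    Algebra.subset_adjoin (Finset.mem_coe.mpr (Finset.mem_insert_self _ _))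
  have hδ0 : ∀ g ∈ G0, δ g ∈ Algebra.adjoin k (G : Set K) := by
    intro g hg
    have h1 : δ g = r (δ g) * (∏ g' ∈ G0.erase g, s (δ g')) * h⁻¹ := by
      have h2 : h = s (δ g) * ∏ g' ∈ G0.erase g, s (δ g') := (Finset.mul_prod_erase _ _ hg).symm
      rw [eq_mul_inv_iff_mul_eq₀ hh0, h2, ← mul_assoc, hrs]
    rw [h1]
    refine mul_mem (mul_mem (hA _ (hr _)) (prod_mem fun g' _ => hA _ (hs _))) hhi
  have hδA : ∀ x ∈ Algebra.adjoin k (G0 : Set K), δ x ∈ Algebra.adjoin k (G : Set K) := by
    intro x hx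
    induction hx using Algebra.adjoin_induction with
    | mem x hx => exact hδ0 x hx
    | algebraMap c => rw [Derivation.map_algebraMap]; exact zero_mem _
    | add x z _ _ hx hz => rw [map_add]; exact add_mem hx hz
    | mul x z hx' hz' hx hz =>
      rw [Derivation.leibniz, smul_eq_mul, smul_eq_mul]
      exact add_mem (mul_mem (hA _ hx') hz) (mul_mem (hA _ hz') hx)
  refine ⟨G, ?_, ?_⟩
  · intro z hz
    exact Finset.mem_insert_of_mem (Finset.mem_union_right _ hz)
  · intro g hg
    rcases Finset.mem_insert.mp hg with rfl | hg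
    · rw [Derivation.leibniz_inv, smul_eq_mul]
      refine mul_mem (neg_mem (pow_mem hhi 2)) (hδA _ ?_)
      exact prod_mem fun g _ => hs _
    · exact hδ0 g hg

/-- growth of `K[y; δ]` -/
theorem gk_del (hfg : (⊤ : IntermediateField k K).FG)
    (hK : ∀ f : K, Transcendental k f → FiniteDimensional k⟮f⟯ K) {u : K}
    (hu : Transcendental k u) (ι : K →ₐ[k] D) {y : D} {δ : Derivation k K K}
    (hyδ : ∀ a, y * (ι : K →+* D) a = (ι : K →+* D) a * y + (ι : K →+* D) (δ a))
    (V : Submodule k D) (hV : ∀ v ∈ V, v ∈ DR hyδ) (hfin : FiniteDimensional k V) :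
    ∃ C : ℕ, ∀ n, Module.finrank k ↥(V ^ n) ≤ C * (n + 1) ^ 2 := by
  classical
  obtain ⟨S, hS⟩ : V.FG := Module.Finite.iff_fg.mp hfin
  have hSL : ∀ v ∈ S, ∃ p : K[X], v = (p.map (ι : K →+* D)).eval y := fun v hv =>
    hV v (by rw [← hS]; exact Submodule.subset_span hv)
  choose! p hp using hSL
  let Φ0 : Finset K := S.biUnion fun v => (p v).support.image (p v).coeff
  let r : ℕ := ∑ v ∈ S, (p v).natDegree
  have hr : ∀ v ∈ S, (p v).natDegree ≤ r := fun v hv =>
    Finset.single_le_sum (f := fun v => (p v).natDegree) (fun _ _ => Nat.zero_le _) hv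
  have hVle : V ≤ Submodule.span k {x | ∃ f ∈ Φ0, ∃ l : ℕ, l ≤ r ∧ x = ι f * y ^ l} := by
    rw [← hS, Submodule.span_le]
    intro v hv
    have hv' : v ∈ S := hv
    rw [hp v hv']
    have h1 : ((p v).map (ι : K →+* D)).eval y = ∑ n ∈ (p v).support, ι ((p v).coeff n) * y ^ n := by
      rw [eval_map, eval₂_eq_sum, Polynomial.sum]
      rfl
    rw [h1]
    refine Submodule.sum_mem _ fun n hn => Submodule.subset_span ⟨(p v).coeff n, ?_, n, ?_, rfl⟩
    · exact Finset.mem_biUnion.mpr ⟨v, hv', Finset.mem_image_of_mem _ hn⟩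
    · exact (le_natDegree_of_mem_supp n hn).trans (hr v hv')
  obtain ⟨G, hΦG, hδG⟩ := stable_gen hfg δ Φ0
  let W := Submodule.span k (insert (1 : K) (G : Set K))
  have hW1 : (1 : Submodule k K) ≤ W := by
    rw [Submodule.one_le]
    exact Submodule.subset_span (Set.mem_insert _ _)
  obtain ⟨t, ht⟩ : ∃ t, ∀ g ∈ G, δ g ∈ W ^ t := by
    have h1 : ∀ g ∈ G, ∃ t, δ g ∈ W ^ t := fun g hg => mem_pow_of_adjoin _ (hδG g hg)
    choose! t ht using h1
    exact ⟨∑ g ∈ G, t g, fun g hg => W_mono hW1
      (Finset.single_le_sum (f := t) (fun _ _ => Nat.zero_le _) hg) (ht g hg)⟩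
  have hδW : ∀ w ∈ W, δ w ∈ W ^ t := by
    intro w hw
    induction hw using Submodule.span_induction with
    | mem w hw =>
      rcases hw with rfl | hw
      · rw [Derivation.map_one_eq_zero]; exact Submodule.zero_mem _
      · exact ht w hw
    | zero => rw [map_zero]; exact Submodule.zero_mem _
    | add x z _ _ hx hz => rw [map_add]; exact Submodule.add_mem _ hx hz
    | smul c x _ hx => rw [Derivation.map_smul]; exact Submodule.smul_mem _ _ hx
  have hδWj : ∀ j, ∀ w ∈ W ^ j, δ w ∈ W ^ (j + t) := by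
    intro j
    induction j with
    | zero =>
      intro w hw
      rw [pow_zero] at hw
      obtain ⟨c, rfl⟩ := Submodule.mem_one.mp hw
      rw [Derivation.map_algebraMap]
      exact Submodule.zero_mem _
    | succ j ih =>
      intro w hw
      rw [pow_succ] at hw
      induction hw using Submodule.mul_induction_on' with
      | mem_mul_mem a ha b hb =>
        rw [Derivation.leibniz, smul_eq_mul, smul_eq_mul]
        refine Submodule.add_mem _ ?_ ?_
        · refine W_mono hW1 (show j + t ≤ j + 1 + t by omega) ?_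
          rw [pow_add]
          exact Submodule.mul_mem_mul ha (hδW b hb)
        · have h1 : j + 1 + t = 1 + (j + t) := by omega
          rw [h1, pow_add, pow_one]
          exact Submodule.mul_mem_mul hb (ih a ha)
      | add x _ z _ hx hz => rw [map_add]; exact Submodule.add_mem _ hx hz
  -- the spaces
  let U : ℕ → ℕ → Submodule k D := fun j i =>
    Submodule.span k {x | ∃ w ∈ W ^ j, ∃ m : ℕ, m ≤ i ∧ x = ι w * y ^ m}
  have hU_mono : ∀ {j j' i i' : ℕ}, j ≤ j' → i ≤ i' → U j i ≤ U j' i' := by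
    intro j j' i i' hj hi
    refine Submodule.span_mono ?_
    rintro _ ⟨w, hw, m, hm, rfl⟩
    exact ⟨w, W_mono hW1 hj hw, m, hm.trans hi, rfl⟩
  have hyU : ∀ j i, ∀ x ∈ U j i, y * x ∈ U (j + t) (i + 1) := by
    intro j i x hx
    induction hx using Submodule.span_induction with
    | mem x hx =>
      obtain ⟨w, hw, m, hm, rfl⟩ := hx
      have h1 : y * ι w = ι w * y + ι (δ w) := hyδ w
      rw [← mul_assoc, h1, add_mul, mul_assoc, ← pow_succ']
      refine Submodule.add_mem _ (Submodule.subset_span ⟨w, W_mono hW1 (by omega) hw, m + 1,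
        by omega, rfl⟩) (Submodule.subset_span ⟨δ w, hδWj j w hw, m, by omega, rfl⟩)
    | zero => rw [mul_zero]; exact Submodule.zero_mem _
    | add x z _ _ hx hz => rw [mul_add]; exact Submodule.add_mem _ hx hz
    | smul c x _ hx => rw [mul_smul_comm]; exact Submodule.smul_mem _ _ hx
  have hylU : ∀ l j i, ∀ x ∈ U j i, y ^ l * x ∈ U (j + l * t) (i + l) := by
    intro l
    induction l with
    | zero => intro j i x hx; rw [pow_zero, one_mul, zero_mul]; exact hx
    | succ l ih =>
      intro j i x hx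
      have h1 := hyU _ _ _ (ih j i x hx)
      rw [pow_succ', mul_assoc]
      refine hU_mono ?_ ?_ h1
      · rw [Nat.succ_mul]; omega
      · omega
  have hKU : ∀ j i, ∀ f ∈ W, ∀ x ∈ U j i, ι f * x ∈ U (j + 1) i := by
    intro j i f hf x hx
    induction hx using Submodule.span_induction with
    | mem x hx =>
      obtain ⟨w, hw, m, hm, rfl⟩ := hx
      refine Submodule.subset_span ⟨w * f, ?_, m, hm, ?_⟩
      · rw [pow_succ]; exact Submodule.mul_mem_mul hw hf
      · rw [mul_comm w, map_mul, mul_assoc]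
    | zero => rw [mul_zero]; exact Submodule.zero_mem _
    | add x z _ _ hx hz => rw [mul_add (ι f)]; exact Submodule.add_mem _ hx hz
    | smul c x _ hx => rw [mul_smul_comm]; exact Submodule.smul_mem _ _ hx
  have hstep : ∀ n, V ^ n ≤ U ((r * t + 1) * n) (r * n) := by
    intro n
    induction n with
    | zero =>
      rw [pow_zero, mul_zero, mul_zero]
      intro x hx
      obtain ⟨c, rfl⟩ := Submodule.mem_one.mp hx
      refine Submodule.subset_span ⟨algebraMap k K c, ?_, 0, le_rfl, ?_⟩
      · rw [pow_zero]; exact Submodule.algebraMap_mem c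
      · rw [AlgHom.commutes, pow_zero, mul_one]
    | succ n ih =>
      rw [pow_succ', Submodule.mul_le]
      intro v hv a ha
      have ha' := ih ha
      have hv' := hVle hv
      clear ha hv
      induction hv' using Submodule.span_induction with
      | mem v hv =>
        obtain ⟨f, hf, l, hl, rfl⟩ := hv
        have h1 := hylU l _ _ _ ha'
        have h2 := hKU _ _ f (Submodule.subset_span (Set.mem_insert_of_mem _
          (Finset.mem_coe.mpr (hΦG hf)))) _ h1
        rw [mul_assoc]
        refine hU_mono ?_ ?_ h2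
        · have h3 : l * t ≤ r * t := Nat.mul_le_mul_right _ hl
          rw [Nat.mul_succ]
          omega
        · rw [Nat.mul_succ]; omega
      | zero => rw [zero_mul]; exact Submodule.zero_mem _
      | add x z _ _ hx hz => rw [add_mul x z a]; exact Submodule.add_mem _ hx hz
      | smul c x _ hx => rw [smul_mul_assoc]; exact Submodule.smul_mem _ _ hx
  obtain ⟨h, hh⟩ := HB_fin hK G
  let N := Module.finrank k⟮u⟯ K
  let c := r * t + 1
  refine ⟨(r + 1) * (N * (2 * (h * G.card) * c + 1)), fun n => ?_⟩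
  obtain ⟨hWf, hWd⟩ := prod_dim hu (hK u hu) G h
    (fun φ hφ => hh φ hφ (AlgEquiv.refl) u hu)
    (fun φ hφ => hh φ hφ (AlgEquiv.refl) u⁻¹ (transc_inv hu)) (c * n)
  have hb1 := (fr_bound ι (W ^ (c * n)) hWf (Finset.range (r * n + 1)) (fun i => y ^ i) (V ^ n)
    ((hstep n).trans (Submodule.span_mono (by
      rintro _ ⟨w, hw, i, hi, rfl⟩
      exact ⟨w, hw, i, Finset.mem_range.mpr (by omega), rfl⟩)))).2
  rw [Finset.card_range] at hb1
  have e1 : r * n + 1 ≤ (r + 1) * (n + 1) := by nlinarith
  have e2 : 2 * (h * G.card) * (c * n) + 1 ≤ (2 * (h * G.card) * c + 1) * (n + 1) := by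
    nlinarith [Nat.zero_le (2 * (h * G.card) * c)]
  calc Module.finrank k ↥(V ^ n) ≤ (r * n + 1) * Module.finrank k ↥(W ^ (c * n)) := hb1
    _ ≤ ((r + 1) * (n + 1)) * (N * ((2 * (h * G.card) * c + 1) * (n + 1))) :=
      Nat.mul_le_mul e1 (hWd.trans (Nat.mul_le_mul_left _ e2))
    _ = _ := by ring

end SDR
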