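import Pool.Agent.Helper9_SDR.Dim

/-! # Uniform height bounds and dimension of spaces of products (MP_87570e_al) -/

open Polynomial IntermediateField

namespace SDR

variable {k K : Type} [Field k] [Field K] [Algebra k K]

theorem int_map (τ : K ≃ₐ[k] K) {w z : K} (h : Int (k := k) w z) : Int (k := k) (τ w) (τ z) := by
  have hmem : ∀ x : Av k w, ((τ : K →ₐ[k] K).comp (Av k w).val) x ∈ Av k (τ w) := by
    intro x
    obtain ⟨p, hp⟩ := mem_Av.mp x.2
    refine mem_Av.mpr ⟨p, ?_⟩
    show aeval (τ w) p = τ (x : K)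
    rw [← hp]
    exact aeval_algHom_apply (τ : K →ₐ[k] K) w p
  let φ : Av k w →ₐ[k] Av k (τ w) := ((τ : K →ₐ[k] K).comp (Av k w).val).codRestrict _ hmem
  exact IsIntegral.map_of_comp_eq φ.toRingHom (τ : K →+* K) (by ext x; rfl) h

open scoped IntermediateField.algebraAdjoinAdjoin in
/-- algebraic relation between `f` and `w`, of degree at most `[K : k(f)]` in `w` -/
theorem rel_fw {f : K} (_hf : Transcendental k f) (hfin : FiniteDimensional k⟮f⟯ K) (w : K) :
    ∃ A : ℕ → k[X], (∃ i, i ≤ Module.finrank k⟮f⟯ K ∧ A i ≠ 0) ∧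
      ∑ i ∈ Finset.range (Module.finrank k⟮f⟯ K + 1), aeval f (A i) * w ^ i = 0 := by
  classical
  set L := k⟮f⟯ with hL
  set h := Module.finrank L K with hh
  let P := minpoly L w
  have hint : IsIntegral L w := IsIntegral.of_finite L w
  have hP0 : P ≠ 0 := minpoly.ne_zero hint
  have hPd : P.natDegree ≤ h := minpoly.natDegree_le w
  let g : Fin (h + 1) → L := fun i => P.coeff i
  obtain ⟨b, hb⟩ := IsLocalization.exist_integer_multiples_of_finite
    (nonZeroDivisors (Av k f)) g
  have hbne : ((b : Av k f) : K) ≠ 0 := by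
    intro h
    have h1 : (b : Av k f) = 0 := Subtype.ext h
    exact nonZeroDivisors.ne_zero b.2 h1
  choose c hc using hb
  have hc' : ∀ j, (c j : K) = (b : Av k f) * (g j : K) := by
    intro j
    have := congrArg (fun x : L => (x : K)) (hc j)
    exact this
  have hpoly : ∀ j, ∃ p : k[X], aeval f p = (c j : K) := fun j => mem_Av.mp (c j).2
  choose B hB using hpoly
  refine ⟨fun i => if hi : i < h + 1 then B ⟨i, hi⟩ else 0, ⟨P.natDegree, hPd, ?_⟩, ?_⟩
  · beta_reduce
    rw [dif_pos (by omega)]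
    intro h0
    have h1 := hB ⟨P.natDegree, by omega⟩
    rw [h0, map_zero, hc'] at h1
    have h2 : (g ⟨P.natDegree, by omega⟩ : K) = 0 := by
      rcases mul_eq_zero.mp h1.symm with h3 | h3
      · exact absurd h3 hbne
      · exact h3
    have h3 : P.coeff P.natDegree = 0 := Subtype.ext h2
    exact hP0 (leadingCoeff_eq_zero.mp h3)
  · have h1 : ∑ i ∈ Finset.range (h + 1), (P.coeff i : K) * w ^ i = 0 := by
      have h2 : aeval w P = 0 := minpoly.aeval L w
      rw [aeval_eq_sum_range' (Nat.lt_succ_of_le hPd)] at h2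
      rw [← h2]
      rfl
    have h3 : ∑ i ∈ Finset.range (h + 1),
        aeval f (if hi : i < h + 1 then B ⟨i, hi⟩ else 0) * w ^ i =
        ((b : Av k f) : K) * ∑ i ∈ Finset.range (h + 1), (P.coeff i : K) * w ^ i := by
      rw [Finset.mul_sum]
      refine Finset.sum_congr rfl fun i hi => ?_
      have hi' : i < h + 1 := Finset.mem_range.mp hi
      rw [dif_pos hi', hB, hc', mul_assoc]
    rw [h3, h1, mul_zero]

/-- `f` times a polynomial of degree at most `[K : k(f)]` in `w` is integral over `k[w]` -/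
theorem lead_int {f : K} (hf : Transcendental k f) (hfin : FiniteDimensional k⟮f⟯ K) {w : K}
    (hw : Transcendental k w) :
    ∃ b : k[X], b ≠ 0 ∧ b.natDegree ≤ Module.finrank k⟮f⟯ K ∧
      Int (k := k) w (aeval w b * f) := by
  classical
  obtain ⟨A, ⟨i0, hi0, hA0⟩, hA⟩ := rel_fw hf hfin w
  set h := Module.finrank k⟮f⟯ K with hh
  -- a common bound for the degrees in `f`
  let M := ∑ i ∈ Finset.range (h + 1), (A i).natDegree + 1
  have hM : ∀ i, i < h + 1 → (A i).natDegree < M := by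
    intro i hi
    have := Finset.single_le_sum (f := fun j => (A j).natDegree) (fun _ _ => Nat.zero_le _)
      (Finset.mem_range.mpr hi)
    show _ < ∑ i ∈ Finset.range (h + 1), (A i).natDegree + 1
    exact Nat.lt_succ_of_le this
  let b : ℕ → k[X] := fun j => ∑ i ∈ Finset.range (h + 1), C ((A i).coeff j) * X ^ i
  have hbcoeff : ∀ j i, (b j).coeff i = if i < h + 1 then (A i).coeff j else 0 := by
    intro j i
    show (∑ i ∈ Finset.range (h + 1), C ((A i).coeff j) * X ^ i).coeff i = _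
    rw [finsetSum_coeff]
    simp only [coeff_C_mul, coeff_X_pow, mul_ite, mul_one, mul_zero]
    rw [Finset.sum_ite_eq]
    simp only [Finset.mem_range]
  have hbdeg : ∀ j, (b j).natDegree ≤ h := by
    intro j
    refine natDegree_le_iff_coeff_eq_zero.mpr fun m hm => ?_
    rw [hbcoeff, if_neg (by omega)]
  have haev : ∀ j, aeval w (b j) = ∑ i ∈ Finset.range (h + 1), algebraMap k K ((A i).coeff j) * w ^ i := by
    intro j
    show aeval w (∑ i ∈ Finset.range (h + 1), C ((A i).coeff j) * X ^ i) = _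
    rw [map_sum]
    refine Finset.sum_congr rfl fun i _ => ?_
    rw [map_mul, aeval_C, map_pow, aeval_X]
  -- the polynomial over `k[w]`
  let p : (Av k w)[X] := ∑ j ∈ Finset.range M, C (⟨aeval w (b j), aeval_mem w _⟩ : Av k w) * X ^ j
  have hpcoeff : ∀ j, p.coeff j = if j < M then (⟨aeval w (b j), aeval_mem w _⟩ : Av k w) else 0 := by
    intro j
    show (∑ j ∈ Finset.range M, C (⟨aeval w (b j), aeval_mem w _⟩ : Av k w) * X ^ j).coeff j = _
    rw [finsetSum_coeff]
    simp only [coeff_C_mul, coeff_X_pow, mul_ite, mul_one, mul_zero]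
    rw [Finset.sum_ite_eq]
    simp only [Finset.mem_range]
  have hpev : aeval f p = 0 := by
    show aeval f (∑ j ∈ Finset.range M, C (⟨aeval w (b j), aeval_mem w _⟩ : Av k w) * X ^ j) = 0
    rw [map_sum, ← hA]
    have h1 : ∀ j, aeval f (C (⟨aeval w (b j), aeval_mem w _⟩ : Av k w) * X ^ j) =
        ∑ i ∈ Finset.range (h + 1), algebraMap k K ((A i).coeff j) * w ^ i * f ^ j := by
      intro j
      rw [map_mul, aeval_C, map_pow, aeval_X]
      have h2 : algebraMap (Av k w) K ⟨aeval w (b j), aeval_mem w _⟩ = aeval w (b j) := rfl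
      rw [h2, haev, Finset.sum_mul]
    simp only [h1]
    rw [Finset.sum_comm]
    refine Finset.sum_congr rfl fun i hi => ?_
    rw [aeval_eq_sum_range' (hM i (Finset.mem_range.mp hi)), Finset.sum_mul]
    refine Finset.sum_congr rfl fun j _ => ?_
    rw [Algebra.smul_def]
    ring
  have hp0 : p ≠ 0 := by
    intro h0
    have hd := hM i0 (by omega)
    have h1 := hpcoeff (A i0).natDegree
    rw [h0, coeff_zero, if_pos hd] at h1
    have h2 : aeval w (b (A i0).natDegree) = 0 := (congrArg Subtype.val h1).symm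
    have h3 : b (A i0).natDegree = 0 := inj_aeval hw (by rw [h2, map_zero])
    have h4 := hbcoeff (A i0).natDegree i0
    rw [h3, coeff_zero, if_pos (by omega)] at h4
    exact hA0 (leadingCoeff_eq_zero.mp h4.symm)
  have hlt : p.natDegree < M := by
    by_contra hge
    have h1 := hpcoeff p.natDegree
    rw [if_neg hge] at h1
    exact hp0 (leadingCoeff_eq_zero.mp h1)
  have hlc : p.leadingCoeff = (⟨aeval w (b p.natDegree), aeval_mem w _⟩ : Av k w) := by
    show p.coeff p.natDegree = _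
    rw [hpcoeff, if_pos hlt]
  refine ⟨b p.natDegree, ?_, hbdeg _, ?_⟩
  · intro h0
    apply hp0
    apply leadingCoeff_eq_zero.mp
    rw [hlc]
    apply Subtype.ext
    show aeval w (b p.natDegree) = 0
    rw [h0, map_zero]
  · have h1 := isIntegral_leadingCoeff_smul p f hpev
    rw [hlc, Algebra.smul_def] at h1
    exact h1

/-- uniform denominators for the orbit of `f` -/
theorem HB (hK : ∀ f : K, Transcendental k f → FiniteDimensional k⟮f⟯ K) (f : K) :
    ∃ h : ℕ, ∀ (τ : K ≃ₐ[k] K) (v : K), Transcendental k v →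
      ∃ b : k[X], b ≠ 0 ∧ b.natDegree ≤ h ∧ Int (k := k) v (aeval v b * τ f) := by
  by_cases hf : Transcendental k f
  · refine ⟨Module.finrank k⟮f⟯ K, fun τ v hv => ?_⟩
    have hw : Transcendental k (τ.symm v) := by
      intro h
      apply hv
      exact (isAlgebraic_algHom_iff (τ.symm : K →ₐ[k] K) τ.symm.injective).mp h
    obtain ⟨b, hb0, hbd, hbi⟩ := lead_int hf (hK f hf) hw
    refine ⟨b, hb0, hbd, ?_⟩
    have h1 := int_map τ hbi
    rw [map_mul, AlgEquiv.apply_symm_apply] at h1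
    have h2 : τ (aeval (τ.symm v) b) = aeval v b := by
      have h3 := aeval_algHom_apply (τ : K →ₐ[k] K) (τ.symm v) b
      have h4 : (τ : K →ₐ[k] K) (τ.symm v) = v := τ.apply_symm_apply v
      rw [h4] at h3
      exact h3.symm
    rw [h2] at h1
    exact h1
  · refine ⟨0, fun τ v _ => ⟨1, one_ne_zero, by simp, ?_⟩⟩
    rw [map_one, one_mul]
    have hf' : IsAlgebraic k f := not_not.mp hf
    exact int_of_algebraic ((isAlgebraic_algHom_iff (τ : K →ₐ[k] K) τ.injective).mpr hf')

/-- the dimension of the space of products of `m` elements -/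
theorem prod_dim {u : K} (hu : Transcendental k u) (hfin : FiniteDimensional k⟮u⟯ K)
    (Φ : Finset K) (h : ℕ)
    (hb : ∀ φ ∈ Φ, ∃ b : k[X], b ≠ 0 ∧ b.natDegree ≤ h ∧ Int (k := k) u (aeval u b * φ))
    (hc : ∀ φ ∈ Φ, ∃ c : k[X], c ≠ 0 ∧ c.natDegree ≤ h ∧ Int (k := k) u⁻¹ (aeval u⁻¹ c * φ))
    (m : ℕ) :
    Module.Finite k ↥((Submodule.span k (insert (1 : K) (Φ : Set K))) ^ m) ∧
      Module.finrank k ↥((Submodule.span k (insert (1 : K) (Φ : Set K))) ^ m) ≤
        Module.finrank k⟮u⟯ K * (2 * (h * Φ.card) * m + 1) := by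
  classical
  have hu0 : u ≠ 0 := by
    rintro rfl
    exact hu isAlgebraic_zero
  have hui := transc_inv hu
  set W := Submodule.span k (insert (1 : K) (Φ : Set K)) with hW
  choose! b hb0 hbd hbi using hb
  choose! c hc0 hcd hci using hc
  set γ := h * Φ.card with hγ
  let b1 : k[X] := ∏ φ ∈ Φ, b φ
  let c1 : k[X] := ∏ φ ∈ Φ, c φ
  have hb1d : b1.natDegree ≤ γ := by
    refine (natDegree_prod_le _ _).trans ?_
    refine (Finset.sum_le_card_nsmul _ _ h fun φ hφ => hbd φ hφ).trans ?_
    rw [smul_eq_mul, mul_comm]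
  have hc1d : c1.natDegree ≤ γ := by
    refine (natDegree_prod_le _ _).trans ?_
    refine (Finset.sum_le_card_nsmul _ _ h fun φ hφ => hcd φ hφ).trans ?_
    rw [smul_eq_mul, mul_comm]
  have hb10 : b1 ≠ 0 := Finset.prod_ne_zero_iff.mpr hb0
  have hc10 : c1 ≠ 0 := Finset.prod_ne_zero_iff.mpr hc0
  let E : K := aeval u b1 * (u ^ γ * aeval u⁻¹ c1)
  have hE0 : E ≠ 0 := by
    refine mul_ne_zero ?_ (mul_ne_zero (pow_ne_zero _ hu0) ?_)
    · intro h0
      exact hb10 (inj_aeval hu (by rw [h0, map_zero]))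
    · intro h0
      exact hc10 (inj_aeval hui (by rw [h0, map_zero]))
  -- `b1 z` and `c1 z` are integral
  have hbz : ∀ z ∈ (insert (1 : K) (Φ : Set K)), Int (k := k) u (aeval u b1 * z) := by
    rintro z (rfl | hz)
    · rw [mul_one]; exact int_of_mem (aeval_mem _ _)
    · have hz' : z ∈ Φ := hz
      show Int (k := k) u (aeval u (∏ φ ∈ Φ, b φ) * z)
      rw [← Finset.mul_prod_erase Φ b hz', map_mul, mul_comm (aeval u (b z)), mul_assoc]
      exact (int_of_mem (aeval_mem _ _)).mul (hbi z hz')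
  have hcz : ∀ z ∈ (insert (1 : K) (Φ : Set K)), Int (k := k) u⁻¹ (aeval u⁻¹ c1 * z) := by
    rintro z (rfl | hz)
    · rw [mul_one]; exact int_of_mem (aeval_mem _ _)
    · have hz' : z ∈ Φ := hz
      show Int (k := k) u⁻¹ (aeval u⁻¹ (∏ φ ∈ Φ, c φ) * z)
      rw [← Finset.mul_prod_erase Φ c hz', map_mul, mul_comm (aeval u⁻¹ (c z)), mul_assoc]
      exact (int_of_mem (aeval_mem _ _)).mul (hci z hz')
  obtain ⟨c', hc'd, hc'⟩ := reflect_mem u hu0 c1 γ hc1d
  obtain ⟨b', hb'd, hb'⟩ := reflect_mem u⁻¹ (inv_ne_zero hu0) b1 γ hb1d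
  rw [inv_inv] at hb'
  have hE1 : ∀ z ∈ W, Int (k := k) u (E * z) := by
    intro z hz
    induction hz using Submodule.span_induction with
    | mem z hz =>
      have h1 : E * z = aeval u c' * (aeval u b1 * z) := by rw [hc']; ring
      rw [h1]
      exact (int_of_mem (aeval_mem _ _)).mul (hbz z hz)
    | zero => rw [mul_zero]; exact int_zero _
    | add x y _ _ hx hy => rw [mul_add]; exact hx.add hy
    | smul a x _ hx => rw [mul_smul_comm]; exact int_smul a hx
  have hE2 : ∀ z ∈ W, Int (k := k) u⁻¹ ((u⁻¹) ^ (2 * γ) * E * z) := by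
    intro z hz
    induction hz using Submodule.span_induction with
    | mem z hz =>
      have h1 : (u⁻¹) ^ (2 * γ) * E * z = aeval u⁻¹ b' * (aeval u⁻¹ c1 * z) := by
        rw [hb']
        show (u⁻¹) ^ (2 * γ) * (aeval u b1 * (u ^ γ * aeval u⁻¹ c1)) * z = _
        have h2 : (u⁻¹) ^ (2 * γ) * u ^ γ = (u⁻¹) ^ γ := by
          rw [two_mul, pow_add, mul_assoc, ← mul_pow, inv_mul_cancel₀ hu0, one_pow, mul_one]
        calc (u⁻¹) ^ (2 * γ) * (aeval u b1 * (u ^ γ * aeval u⁻¹ c1)) * z
            = ((u⁻¹) ^ (2 * γ) * u ^ γ) * aeval u b1 * (aeval u⁻¹ c1 * z) := by ring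
          _ = _ := by rw [h2]
      rw [h1]
      exact (int_of_mem (aeval_mem _ _)).mul (hcz z hz)
    | zero => rw [mul_zero]; exact int_zero _
    | add x y _ _ hx hy => rw [mul_add]; exact hx.add hy
    | smul a x _ hx => rw [mul_smul_comm]; exact int_smul a hx
  have key : ∀ m : ℕ, ∀ z ∈ W ^ m, Int (k := k) u (E ^ m * z) ∧
      Int (k := k) u⁻¹ (((u⁻¹) ^ (2 * γ) * E) ^ m * z) := by
    intro m
    induction m with
    | zero =>
      intro z hz
      rw [pow_zero, Submodule.mem_one] at hz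
      obtain ⟨a, rfl⟩ := hz
      rw [pow_zero, pow_zero, one_mul]
      exact ⟨int_of_mem (Subalgebra.algebraMap_mem _ a), int_of_mem (Subalgebra.algebraMap_mem _ a)⟩
    | succ m ih =>
      intro z hz
      rw [pow_succ] at hz
      induction hz using Submodule.mul_induction_on' with
      | mem_mul_mem a ha b hb =>
        have h1 : E ^ (m + 1) * (a * b) = (E ^ m * a) * (E * b) := by ring
        have h2 : ((u⁻¹) ^ (2 * γ) * E) ^ (m + 1) * (a * b) =
          (((u⁻¹) ^ (2 * γ) * E) ^ m * a) * ((u⁻¹) ^ (2 * γ) * E * b) := by ring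
        rw [h1, h2]
        exact ⟨(ih a ha).1.mul (hE1 b hb), (ih a ha).2.mul (hE2 b hb)⟩
      | add x _ y _ hx hy =>
        rw [mul_add, mul_add]
        exact ⟨hx.1.add hy.1, hx.2.add hy.2⟩
  obtain ⟨hf1, hf2⟩ := LL_dim hu hfin (2 * γ * m + 1)
  -- multiplication by `E ^ m`
  let T : ↥(W ^ m) →ₗ[k] LL k u (2 * γ * m + 1) :=
    ((LinearMap.mulLeft k (E ^ m)).comp (W ^ m).subtype).codRestrict _ (by
      intro z
      obtain ⟨h1, h2⟩ := key m z z.2
      refine ⟨h1, ?_⟩
      show Int (k := k) u⁻¹ (u * ((u⁻¹) ^ (2 * γ * m + 1) * (E ^ m * (z : K))))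
      have h3 : ∀ E' : K, u * ((u⁻¹) ^ (2 * γ * m + 1) * (E' ^ m * (z : K))) =
          ((u⁻¹) ^ (2 * γ) * E') ^ m * z := by
        intro E'
        rw [pow_succ, mul_pow, ← pow_mul]
        calc u * ((u⁻¹) ^ (2 * γ * m) * u⁻¹ * (E' ^ m * (z : K)))
            = (u * u⁻¹) * ((u⁻¹) ^ (2 * γ * m) * E' ^ m * z) := by ring
          _ = _ := by rw [mul_inv_cancel₀ hu0, one_mul]
      rw [h3]
      exact h2)
  have hT : Function.Injective T := by
    intro a b hab
    have h1 : E ^ m * (a : K) = E ^ m * (b : K) := congrArg Subtype.val hab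
    exact Subtype.ext (mul_left_cancel₀ (pow_ne_zero _ hE0) h1)
  refine ⟨Module.Finite.of_injective T hT, ?_⟩
  exact (LinearMap.finrank_le_finrank_of_injective hT).trans hf2

end SDR
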